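import Pool.Agent.Work.MP_10f4af_ag.Defs

/-!
# Very general complete intersections, Lefschetz properties, numerical equivalence
-/

open MvPolynomial Topology TopologicalSpace

namespace Pool.Agent.Work.MP_10f4af_ag

open MP_ffcd14_ag (Amb ev IsForm)

universe u v w

variable {k : Type u} [Field k] {P : Amb}

/-- The exponents of the monomials of multidegree `a`. -/
def Mon (a : P.ι →₀ ℕ) : Type :=
  {m : P.V →₀ ℕ // Finsupp.weight (fun s : P.V => Finsupp.single s.1 1) m = a}

/-- `X` is the divisor on `Y` of the form `f`, whose degree `a` is positive in every factor. -/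
structure Sec (Y X : SV k P) (f : MvPolynomial P.V k) (a : P.ι →₀ ℕ) : Prop where
  form : IsForm f a
  pos : ∀ i, 0 < a i
  pts : X.pts = {x ∈ Y.pts | ev x f = 0}
  dim : X.dim + 1 = Y.dim
  div : gys (Ideal.span {f}) 1 (Finsupp.single (idl Y.pts) 1) = Finsupp.single (idl X.pts) 1

/-- `X` is a very general complete intersection: it is cut out of the ambient product of projective
spaces by successive smooth sections, and all the coefficients of the equations are algebraically
independent over the prime field. -/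
def VG (X : SV k P) : Prop :=
  ∃ (r : ℕ) (Y : ℕ → SV k P) (f : ℕ → MvPolynomial P.V k) (a : ℕ → P.ι →₀ ℕ),
    (Y 0).pts = Set.univ ∧ Y r = X ∧ (∀ j < r, Sec (Y j) (Y (j + 1)) (f j) (a j)) ∧
    AlgebraicIndependent (⊥ : Subfield k)
      fun p : Σ j : Fin r, Mon (a j) => coeff p.2.1 (f p.1)

variable [IsAlgClosed k] {K : Type v} [Field K]

/-- The restriction `H Y → H X` to a subvariety, given by the graph of the inclusion. -/
noncomputable def Weil.res (W : Weil.{u, v, w} k K) (Y X : SV k P) (y : W.H Y) : W.H X :=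
  W.dn X (Y.prod X) vr (W.cl (Y.prod X) (cyc (Y.prod X) {z | snd z ∈ X.pts ∧ fst z = snd z}) *
    W.up Y (Y.prod X) vl y)

/-- The class of the divisor of the form `g`. -/
noncomputable def Weil.hyp (W : Weil.{u, v, w} k K) (X : SV k P) (g : MvPolynomial P.V k) :
    W.H X :=
  W.cl X (cls X (gys (Ideal.span {g}) 1 (Finsupp.single (idl X.pts) 1)))

/-- The weak and the hard Lefschetz property (only the surjectivity is recorded). -/
structure Weil.Lef (W : Weil.{u, v, w} k K) : Prop where
  weak : ∀ {P : Amb} (Y X : SV k P) (f : MvPolynomial P.V k) (a : P.ι →₀ ℕ), Sec Y X f a →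
    ∀ i < X.dim, ∀ x, W.dg X i x → ∃ y, W.dg Y i y ∧ x = W.res Y X y
  hard : ∀ {P : Amb} (X : SV k P) (g : MvPolynomial P.V k) (a : P.ι →₀ ℕ), IsForm g a →
    (∀ i, 0 < a i) → g ∉ idl X.pts → ∀ i j, i + j = X.dim → ∀ x, W.dg X (i + 2 * j) x →
      ∃ y, W.dg X i y ∧ x = W.hyp X g ^ j * y

/-- The span of the cycle classes. -/
noncomputable def Weil.Alg (W : Weil.{u, v, w} k K) (X : SV k P) : Submodule K (W.H X) :=
  Submodule.span K {x | ∃ i, ∃ z ∈ CH X i, x = W.cl X z}

/-- The zero-cycles of degree zero. -/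
noncomputable def A0 (X : SV k P) : Submodule ℚ (Cl X) :=
  Submodule.span ℚ {z | ∃ p ∈ X.pts, ∃ q ∈ X.pts, z = cyc X {p} - cyc X {q}}

/-- The correspondence `γ` is numerically trivial. -/
def Num (X : SV k P) (γ : Cl (X.prod X)) : Prop :=
  γ ∈ CH (X.prod X) X.dim ∧ ∀ β ∈ CH (X.prod X) X.dim, mul (X.prod X) γ β ∈ A0 (X.prod X)

/-- The span of the products of two subvarieties. -/
noncomputable def Dec (X : SV k P) : Submodule ℚ (Cl (X.prod X)) :=
  Submodule.span ℚ {z | ∃ V V' : IrreducibleCloseds (P.Pt k), (V : Set (P.Pt k)) ⊆ X.pts ∧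
    (V' : Set (P.Pt k)) ⊆ X.pts ∧ z = cyc (X.prod X) {y | fst y ∈ V ∧ snd y ∈ V'}}

end Pool.Agent.Work.MP_10f4af_ag
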