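import Pool.Agent.Work.MP_10f4af_ag.VG.D2
import Pool.Agent.Work.MP_10f4af_ag.K6
import Pool.Agent.Work.MP_10f4af_ag.VG.Defs
import Mathlib

-- merged part: Pool.Agent.Work.MP_10f4af_ag.VG.D3
section
/-!
# Automorphisms of the base field act on Chow rings and on correspondences

Plan.  `tC_TC`, `tC_CH`: `tw_ZA`, `mem_CH`, `tw_Sp`, `Stab.sub`, `sdim_sg`.
`tC_mul`: choose representatives which meet properly (`F1_rep'`), `mul_mk` twice, `tw_prp`,
`tw_ip`.  `tC_pl`: `Pd.pl_mk`, `tw_ex`, `tw_cS`, `Stab.tp`.  For the stability of `Y.pts` use the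
hypothesis `hY`.  `tC_ps`: `Pd.ps_mk`, `tw_push`.
`gal_pull`, `gal_push`: `Mod.pd_co` and `Stab.mod` for `M'.co f`.  `gal_dg`: the set `M.dgs r` is
stable (`pt_pr`, injectivity of `pt σ` from `pt_pt`, `pt_refl`), `Mod.exists_dgs`, `tC_cyc`.
`dgr_gal`: the push-forward to `pow X Empty` is `q • 1`, which is fixed, so the two arguments of
`Mod.exists_dgr` are equal.
`orbit_CR`: the classes with a finite orbit form a submodule (`Set.Finite.image2`,
`Set.Finite.subset`) which contains the classes of the subvarieties (`Sp_map`, `tw_cS`; the set of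
the `cS (sg (σ g) Z) = single ((idl Z).map (mp (σ g) P)) 1` is finite by `hf` and `idl_sg`).
-/

open MvPolynomial Function Function.Embedding

namespace Pool.Agent.Work.MP_10f4af_ag

open MP_ffcd14_ag hiding len vl cyc pl Weil idl_hmg mem_idl idl_prime idl_le_iff

universe u

variable {k : Type u} [Field k] [IsAlgClosed k] {P Q S : Amb} {σ τ : k ≃+* k} {X : SV k P}

/-- The action on classes. -/
noncomputable def tC (h : Stab σ X.pts) : Cl X →ₗ[ℚ] Cl X :=
  (Rt X.pts).mapQ (Rt X.pts) (tw σ P) fun _ ha => tw_Rt h ha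

theorem tC_mk (h : Stab σ X.pts) (a : Cyc k P) :
    tC h ((Rt X.pts).mkQ a) = (Rt X.pts).mkQ (tw σ P a) := rfl

theorem tC_cyc (h : Stab σ X.pts) (V : Sub k P) :
    tC h (cyc X (V : Set (P.Pt k))) = cyc X (sg σ V : Set (P.Pt k)) := by
  rw [cyc_eq, cyc_eq, tC_mk, tw_cS]

theorem tC_TC (h : Stab σ X.pts) {x : Cl X} (hx : x ∈ TC X) : tC h x ∈ TC X := by
  obtain ⟨a, ha, rfl⟩ := hx
  exact ⟨tw σ P a, tw_ZA h ha, rfl⟩

theorem tC_CH (h : Stab σ X.pts) {i : ℕ} {x : Cl X} (hx : x ∈ CH X i) : tC h x ∈ CH X i := by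
  obtain ⟨a, ha, rfl⟩ := (mem_CH X).1 hx
  refine (mem_CH X).2 ⟨tw σ P a, tw_Sp σ (fun Z hZ => ?_) ha, rfl⟩
  exact ⟨h.sub.2 hZ.1, by rw [sdim_sg]; exact hZ.2⟩

theorem tC_one (h : Stab σ X.pts) : tC h (cyc X X.pts) = cyc X X.pts := by
  rw [cyc_tp, tC_mk, tw_cS, h.tp]

theorem tC_mul (h : Stab σ X.pts) {x y : Cl X} (hx : x ∈ TC X) (hy : y ∈ TC X) :
    tC h (mul X x y) = mul X (tC h x) (tC h y) := by
  obtain ⟨b, hb, rfl⟩ := hy
  obtain ⟨a, ha, rfl, hp⟩ := F1_rep' X hx b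
  rw [mul_mk X ha hb hp, tC_mk, tC_mk, tC_mk,
    mul_mk X (tw_ZA h ha) (tw_ZA h hb) (tw_prp σ hp), tw_ip σ X ha hb]

theorem tC_pl {Y : SV k Q} {Z : SV k S} {β : Crd k P S} {γ : Crd k Q S} (H : Pd X Y Z β γ)
    (h : Stab σ X.pts) (hY : Stab σ Y.pts) (hZ : Stab σ Z.pts) {x : Cl X} (hx : x ∈ TC X) :
    tC hZ (pl X Z β.ε x) = pl X Z β.ε (tC h x) := by
  obtain ⟨a, ha, rfl⟩ := hx
  rw [H.pl_mk ha, tC_mk, tC_mk, H.pl_mk (tw_ZA h ha), ← tw_ex, tw_cS, hY.tp]

theorem tC_ps {Y : SV k Q} {Z : SV k S} {β : Crd k P S} {γ : Crd k Q S} (H : Pd X Y Z β γ)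
    (h : Stab σ X.pts) (hZ : Stab σ Z.pts) (z : Cl Z) :
    tC h (ps X Z β.ε z) = ps X Z β.ε (tC hZ z) := by
  obtain ⟨c, rfl⟩ := (Rt Z.pts).mkQ_surjective z
  rw [H.ps_mk, tC_mk, tC_mk, H.ps_mk, tw_push]

/-- The action on the Chow ring. -/
noncomputable def CR.gal (h : Stab σ X.pts) : CR X →ₐ[ℚ] CR X :=
  AlgHom.ofLinearMap
    { toFun x := CR.mk (tC h (CR.val _ x)) (tC_TC h x.mem)
      map_add' x y := CR.ext (by simp only [map_add, CR.val_mk])
      map_smul' q x := CR.ext (by simp only [map_smul, CR.val_mk, RingHom.id_apply]) }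
    (CR.ext (tC_one h)) fun x y => CR.ext (tC_mul h x.mem y.mem)

theorem CR.val_gal (h : Stab σ X.pts) (x : CR X) : CR.val X (CR.gal h x) = tC h (CR.val X x) := rfl

theorem CR.gal_gr (h : Stab σ X.pts) {i : ℕ} {x : CR X} (hx : x ∈ CR.gr X i) :
    CR.gal h x ∈ CR.gr X i := tC_CH h hx

theorem CR.gal_gal (h : Stab σ X.pts) (h' : Stab τ X.pts) (h'' : Stab (τ.trans σ) X.pts)
    (x : CR X) : CR.gal h (CR.gal h' x) = CR.gal h'' x := by
  refine CR.ext ?_
  rw [CR.val_gal, CR.val_gal, CR.val_gal]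
  obtain ⟨c, hc⟩ := (Rt X.pts).mkQ_surjective (CR.val X x)
  rw [← hc, tC_mk, tC_mk, tC_mk, tw_tw]

theorem CR.gal_refl (h : Stab (RingEquiv.refl k) X.pts) (x : CR X) : CR.gal h x = x := by
  refine CR.ext ?_
  rw [CR.val_gal]
  obtain ⟨c, hc⟩ := (Rt X.pts).mkQ_surjective (CR.val X x)
  rw [← hc, tC_mk, tw_refl]

theorem orbit_CR {G : Type*} {s : G → k ≃+* k} (h : ∀ g, Stab (s g) X.pts)
    (hf : ∀ I : Ideal (MvPolynomial P.V k), (Set.range fun g => I.map (mp (s g) P)).Finite)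
    (x : CR X) : (Set.range fun g => CR.gal (h g) x).Finite := by
  let N : Submodule ℚ (Cyc k P) :=
    { carrier := {a | (Set.range fun g => tw (s g) P a).Finite}
      add_mem' := fun {a b} ha hb => by
        refine (Set.Finite.image2 (· + ·) ha hb).subset ?_
        rintro _ ⟨g, rfl⟩
        exact ⟨_, ⟨g, rfl⟩, _, ⟨g, rfl⟩, (map_add _ a b).symm⟩
      zero_mem' := by
        refine (Set.finite_singleton 0).subset ?_
        rintro _ ⟨g, rfl⟩
        exact map_zero _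
      smul_mem' := fun q a ha => by
        refine (Set.Finite.image (q • ·) ha).subset ?_
        rintro _ ⟨g, rfl⟩
        exact ⟨_, ⟨g, rfl⟩, (map_smul _ q a).symm⟩ }
  obtain ⟨a, ha, hx⟩ := x.mem
  have hN : a ∈ N := by
    refine Sp_map LinearMap.id N (fun Z _ => ?_) (F1_za.1 ha)
    refine ((hf (idl (Z : Set (P.Pt k)))).image fun I => Finsupp.single I (1 : ℚ)).subset ?_
    rintro _ ⟨g, rfl⟩
    refine ⟨_, ⟨g, rfl⟩, ?_⟩
    simp only [LinearMap.id_apply]
    rw [tw_cS, cS, idl_sg]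
  refine Set.Finite.of_finite_image (f := CR.val X) ?_ fun _ _ _ _ e => CR.ext e
  refine (Set.Finite.image (Rt X.pts).mkQ hN).subset ?_
  rintro _ ⟨_, ⟨g, rfl⟩, rfl⟩
  refine ⟨_, ⟨g, rfl⟩, ?_⟩
  rw [CR.val_gal, ← hx, tC_mk]

variable {T T' U : Type} (M : Mod X T) (M' : Mod X T') (h : Stab σ X.pts)

theorem gal_pull (f : T ↪ T') (x : CR M.Z) :
    CR.gal (h.mod M') (M.pull M' f x) = M.pull M' f (CR.gal (h.mod M) x) := by
  refine CR.ext ?_
  rw [CR.val_gal, Mod.val_pull, Mod.val_pull, CR.val_gal]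
  exact tC_pl (M.pd_co M' f) (h.mod M) (h.mod (M'.co f)) (h.mod M') x.mem

theorem gal_push (f : T ↪ T') (x : CR M'.Z) :
    CR.gal (h.mod M) (M.push M' f x) = M.push M' f (CR.gal (h.mod M') x) := by
  refine CR.ext ?_
  rw [CR.val_gal, Mod.val_push, Mod.val_push, CR.val_gal]
  exact tC_ps (M.pd_co M' f) (h.mod M) (h.mod M') _

theorem gal_dg (r : T → U) : CR.gal (h.mod M) (M.dg r) = M.dg r := by
  obtain ⟨V, hV⟩ := M.exists_dgs r
  have hi : ∀ x y : P.Pt k, pt σ x = pt σ y → x = y := fun x y e => by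
    have e' := congrArg (pt σ.symm) e
    rwa [pt_pt, pt_pt, RingEquiv.self_trans_symm, pt_refl, pt_refl] at e'
  have hs : Stab σ (V : Set (M.S.Pt k)) := fun z => by
    rw [hV]
    refine and_congr (h.mod M z) (forall_congr' fun a => forall_congr' fun b =>
      imp_congr_right fun _ => ?_)
    rw [pt_pr, pt_pr]
    exact ⟨hi _ _, fun e => by rw [e]⟩
  have hs' : (sg σ V : Set (M.S.Pt k)) = V := by
    refine Set.Subset.antisymm (hs.sub.2 subset_rfl) fun z hz => ?_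
    rw [coe_sg]
    have e : pt σ (pt σ.symm z) = z := by rw [pt_pt, RingEquiv.symm_trans_self, pt_refl]
    exact ⟨pt σ.symm z, (hs _).1 (by rwa [e]), e⟩
  refine CR.ext ?_
  rw [CR.val_gal, Mod.dg, CR.val_mk, ← hV, tC_cyc, hs']

theorem dgr_gal (x : CR M.Z) : M.dgr (CR.gal (h.mod M) x) = M.dgr x := by
  have e : (Mod.pow X Empty).push M (Mod.e0 T) (CR.gal (h.mod M) x) =
      (Mod.pow X Empty).push M (Mod.e0 T) x := by
    rw [← gal_push (Mod.pow X Empty) M h, M.push_dgr x, map_smul, map_one]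
  unfold Mod.dgr
  simp only [e]

theorem gal_cmp (β α : CR (M.prod M).Z) : CR.gal (h.mod (M.prod M)) (M.cmp β α) =
    M.cmp (CR.gal (h.mod (M.prod M)) β) (CR.gal (h.mod (M.prod M)) α) := by
  rw [Mod.cmp, Mod.cmp, gal_push _ _ h, map_mul, gal_pull _ _ h, gal_pull _ _ h]

/-- The action on correspondences. -/
noncomputable def Cor.gal : Cor M →ₐ[ℚ] Cor M :=
  AlgHom.ofLinearMap
    ((Cor.un M).symm.toLinearMap ∘ₗ (CR.gal (h.mod (M.prod M))).toLinearMap ∘ₗ
      (Cor.un M).toLinearMap)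
    (gal_dg (M.prod M) h _) fun β α => gal_cmp M h β α

theorem Cor.un_gal (α : Cor M) :
    Cor.un M (Cor.gal M h α) = CR.gal (h.mod (M.prod M)) (Cor.un M α) := rfl

theorem Cor.gal_xx (b a : CR M.Z) : Cor.gal M h (Cor.xx M b a) =
    Cor.xx M (CR.gal (h.mod M) b) (CR.gal (h.mod M) a) := by
  refine (Cor.un M).injective ?_
  rw [Cor.un_gal, Cor.un_xx, Cor.un_xx, map_mul, gal_pull _ _ h, gal_pull _ _ h]

end Pool.Agent.Work.MP_10f4af_ag
end

-- merged part: Pool.Agent.Work.MP_10f4af_ag.VG.G1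
section
/-!
# Degree, numerically trivial and decomposable correspondences

No cohomology is used in this file.

Plan.  `top_ne_zero`: the coefficient of `idl X.pts` vanishes on `Rt X.pts`.  For `W` in `X × P1`
use `fib_mem`: the coefficient of `X.tp` in `fib b (cS W)` is zero unless `sdim W = X.dim + 1`, and
then `W = bij_sum.xp X.tp L` (`exists_line`, `Bij.le_xp`, `Bij.sdim_xp`, `eq_of_sdim_le`); in this
case `fib b (cS W) = cS X.tp` for both `b` (`fib_cS`, `G3_cut_ex`, `cut_line`, `push_ex_pt`, as in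
`R1_pen`).
`dgL`: `push_dgr`, `CR.one_ne`, `smul_left_injective`.  `dgr_push`: `(CT X).ps_ps'`.
`dgr_gr`: if `i` is larger than the dimension `CR.gr_gt`; if it is smaller, a representative
(`mem_CH`, `Pd.ps_mk` for `Mod.pd_co`) is pushed to `Sp fun _ => False` (`push_mem`, `sdim_mono`,
`SV.sdim_tp`, `pow_dim`, `Pd.img_sub`).  `dgr_pt`: `push_cS`, `deg_pt`, the image is the whole of
`(pow X Empty).Z.tp` (`eq_of_sdim_le`).  `mem_A0`: `CH_top`.
`xx_mul`: `Cor.sw_mul`, `Cor.rx_rx`, `Cor.mul_xx`, `sw_xx`.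
`dgr_cmp`: unfold `Mod.cmp`; `dgr_push` and `Mod.push_pull_mul` twice.
`NJ_tau`: `Cor.tau_apply`, `push_pull_mul`, `dgr_push`; `CR.ind` on `a` and `b`, and `dgr_gr` when
the codimensions do not add up.  `DJD`: `Cor.mul_xx`, `Mod.tau_xx`, `Cor.xx_smul`, span induction.
`dec_iff`: `Pd.mul_pl_pl` for `pd_prod`, `Mod.crd_inl`, `Mod.crd_inr`, `Bij.mem_xp`; `TC` is spanned
by the classes of the subvarieties (`Sp_map`).
-/

open Function Function.Embedding

namespace Pool.Agent.Work.MP_10f4af_ag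

open MP_ffcd14_ag hiding len vl cyc pl Weil idl_hmg mem_idl idl_prime idl_le_iff lin

universe u

variable {k : Type u} [Field k] [IsAlgClosed k] {P : Amb} {X : SV k P} {T T' : Type}

theorem G1_fib {L : Sub k P1} (hL : ∀ z, z ∈ L) (V : Sub k P) (b : Bool) :
    fib b (cS (bij_sum.xp V L)) = cS V := by
  obtain ⟨y, -, h⟩ := cut_line hL b
  have h1 := G3_cut_ex (bij_sum (k := k) (P := P) (Q := P1))
    (R1_fm (IsForm.X (k := k) (P := P1) ⟨(), b⟩)) V L
  rw [MvPolynomial.rename_X, h] at h1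
  exact (fib_cS b _).trans ((congrArg _ h1).trans (push_ex_pt bij_sum V y))

theorem G1_TC {V : Sub k P} (hV : (V : Set (P.Pt k)) ⊆ X.pts) : cyc X V ∈ TC X :=
  ⟨cS V, cS_mem hV, rfl⟩

theorem G1_ind (N : Submodule ℚ (CR X)) (h : ∀ V : Sub k P, (V : Set (P.Pt k)) ⊆ X.pts →
    ∀ u, CR.val X u = cyc X V → u ∈ N) (u : CR X) : u ∈ N := by
  obtain ⟨a, ha, e⟩ := u.mem
  obtain ⟨v, hv, e'⟩ := Sp_map (Rt X.pts).mkQ (N.map (CR.val X))
    (fun V hV => ⟨CR.mk _ (G1_TC hV), h V hV _ rfl, rfl⟩) ha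
  exact CR.ext (e'.trans e) ▸ hv

theorem G1_xp (V W : Sub k P) : (bij_sum.xp V W : Set ((P.sum P).Pt k)) =
    {y | fst y ∈ V ∧ snd y ∈ W} := Set.ext fun _ => bij_sum.mem_xp

theorem top_ne_zero (X : SV k P) : cyc X X.pts ≠ 0 := by
  obtain ⟨L, hL, hd⟩ := exists_line (k := k)
  intro h
  obtain ⟨w, hw, e⟩ := (Submodule.Quotient.mk_eq_zero (Rt X.pts)).1 h
  have h1 := Sp_map (Finsupp.lapply (idl (X.tp : Set (P.Pt k))) ∘ₗ (fib true - fib false)) ⊥
    (fun W hW => ?_) hw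
  · rw [LinearMap.comp_apply, e] at h1
    exact one_ne_zero ((cS_self X.tp).symm.trans h1)
  change fib true (cS W) _ - fib false (cS W) _ = 0
  by_cases h2 : sdim W = X.dim + 1
  · obtain rfl : W = bij_sum.xp X.tp L := eq_of_sdim_le
      (fun z hz => bij_sum.mem_xp.2 ⟨hW z hz, hL _⟩) (by rw [Bij.sdim_xp, X.sdim_tp, hd, h2])
    rw [G1_fib hL, G1_fib hL, sub_self]
  · have h3 : ∀ b, fib b (cS W) (idl (X.tp : Set (P.Pt k))) = 0 := fun b => by
      by_contra h4
      exact h2 (by rw [← (Sp_of (fib_mem b W) h4).2, X.sdim_tp])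
    rw [h3, h3, sub_self]

theorem CR.one_ne (X : SV k P) : (1 : CR X) ≠ 0 := by
  exact fun h => top_ne_zero X (congrArg (CR.val X) h)

variable (M : Mod X T) (M' : Mod X T')

theorem G1_dgr {u : CR M.Z} {q : ℚ} (h : (Mod.pow X Empty).push M (Mod.e0 T) u = q • 1) :
    M.dgr u = q := smul_left_injective ℚ (CR.one_ne _) ((M.push_dgr u).symm.trans h)

theorem dgr_linear : IsLinearMap ℚ M.dgr := by
  refine ⟨fun u v => G1_dgr M ?_, fun q u => G1_dgr M ?_⟩
  · rw [map_add, M.push_dgr, M.push_dgr, add_smul]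
  · rw [map_smul, M.push_dgr, smul_smul, smul_eq_mul]

/-- The degree as a linear map. -/
noncomputable def Mod.dgL : CR M.Z →ₗ[ℚ] ℚ := IsLinearMap.mk' _ (dgr_linear M)

theorem Mod.dgL_apply (u : CR M.Z) : M.dgL u = M.dgr u := rfl

theorem dgr_push (f : T ↪ T') (z : CR M'.Z) : M.dgr (M.push M' f z) = M'.dgr z := by
  exact G1_dgr M (((CT X).ps_ps' (Mod.pow X Empty) M M' (Mod.e0 T') (fun t => t.elim) z).trans
    (M'.push_dgr z))

theorem dgr_gr {i : ℕ} {u : CR M.Z} (hu : u ∈ CR.gr M.Z i) (h : i ≠ M.Z.dim) : M.dgr u = 0 := by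
  obtain ⟨a, ha, e⟩ := (mem_CH _).1 hu
  have hp := (Mod.pow X Empty).pd_co M (Mod.e0 T)
  refine G1_dgr M (CR.ext ?_)
  rw [Mod.val_push, ← e, hp.ps_mk, zero_smul, map_zero,
    Sp_bot (Sp_mono ?_ (push_mem hp.bij.inj ha)), map_zero]
  rintro _ ⟨V, ⟨h1, h2⟩, rfl, h3⟩
  have h4 := sdim_mono (Z := (Mod.pow X Empty).Z.tp) (hp.img_sub h1)
  rw [SV.sdim_tp, Mod.pow_dim, Nat.card_of_isEmpty] at h4
  omega

theorem dgr_pt {p : M.S.Pt k} (hp : p ∈ M.Z.pts) {u : CR M.Z} (hu : CR.val _ u = cyc M.Z {p}) :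
    M.dgr u = 1 := by
  have h := (Mod.pow X Empty).pd_co M (Mod.e0 T)
  refine G1_dgr M (CR.ext ?_)
  have h1 : (({p} : Sub k M.S) : Set (M.S.Pt k)) ⊆ M.Z.pts := Set.singleton_subset_iff.2 hp
  have h2 := eq_of_sdim_le (Z := (Mod.pow X Empty).Z.tp) (h.img_sub h1)
    (by rw [SV.sdim_tp, Mod.pow_dim, Nat.card_of_isEmpty, zero_mul]; exact Nat.zero_le _)
  rw [Mod.val_push, hu, one_smul, CR.val_one, cyc_tp, ← h2]
  refine (h.ps_mk (cS {p})).trans ?_
  rw [push_cS h.bij.inj, deg_pt h.bij fun z (hz : z = p) => congrArg _ hz, Nat.cast_one, one_smul]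

theorem mem_A0 {u : CR M.Z} (hu : u ∈ CR.gr M.Z M.Z.dim) :
    CR.val _ u ∈ A0 M.Z ↔ M.dgr u = 0 := by
  have hT : ∀ p ∈ M.Z.pts, cyc M.Z {p} ∈ TC M.Z := fun p hp =>
    G1_TC (V := {p}) (Set.singleton_subset_iff.2 hp)
  have h1 : ∀ p (hp : p ∈ M.Z.pts), M.dgL (CR.mk _ (hT p hp)) = 1 := fun p hp => dgr_pt M hp rfl
  constructor
  · intro h
    have h2 : A0 M.Z ≤ (LinearMap.ker M.dgL).map (CR.val _) := Submodule.span_le.2 (by
      rintro _ ⟨p, hp, q, hq, rfl⟩
      exact ⟨CR.mk _ (hT p hp) - CR.mk _ (hT q hq),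
        LinearMap.mem_ker.2 (by rw [map_sub, h1 p hp, h1 q hq, sub_self]), rfl⟩)
    obtain ⟨v, hv, e⟩ := h2 h
    exact CR.ext e ▸ hv
  · intro h
    obtain ⟨q, hq⟩ := M.Z.irr.nonempty
    have h2 : CH M.Z M.Z.dim ≤
        ((A0 M.Z).comap (CR.val _ - M.dgL.smulRight (cyc M.Z {q}))).map (CR.val _) := by
      rw [CH_top]
      refine Submodule.span_le.2 ?_
      rintro _ ⟨p, hp, rfl⟩
      refine ⟨CR.mk _ (hT p hp), Submodule.subset_span ⟨p, hp, q, hq, ?_⟩, rfl⟩
      rw [LinearMap.sub_apply, LinearMap.smulRight_apply, h1 p hp, one_smul, CR.val_mk]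
    obtain ⟨v, hv, e⟩ := h2 hu
    obtain rfl := CR.ext e
    rwa [SetLike.mem_coe, Submodule.mem_comap, LinearMap.sub_apply, LinearMap.smulRight_apply,
      Mod.dgL_apply, h, zero_smul, sub_zero] at hv

/-- The numerically trivial correspondences of degree zero. -/
noncomputable def Cor.NJ : Submodule ℚ (Cor M) where
  carrier := {γ | γ ∈ Cor.R0 M ∧
    ∀ β ∈ CR.gr (M.prod M).Z M.Z.dim, (M.prod M).dgL (Cor.un M γ * β) = 0}
  add_mem' h h' := ⟨add_mem h.1 h'.1, fun β hβ => by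
    rw [map_add, add_mul, map_add, h.2 β hβ, h'.2 β hβ, add_zero]⟩
  zero_mem' := ⟨zero_mem _, fun β _ => by rw [map_zero, zero_mul, map_zero]⟩
  smul_mem' q _ h := ⟨Subalgebra.smul_mem _ h.1 q, fun β hβ => by
    rw [map_smul, smul_mul_assoc, map_smul, h.2 β hβ, smul_zero]⟩

/-- The decomposable correspondences. -/
noncomputable def Cor.DD : Submodule ℚ (Cor M) :=
  Submodule.span ℚ {y | ∃ b a, y = Cor.xx M b a}

theorem sw_xx (b a : CR M.Z) : Cor.rx M (Cor.sw T) (Cor.xx M b a) = Cor.xx M a b := by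
  refine (Cor.un M).injective ?_
  rw [Cor.un_rx, Cor.un_xx, Cor.un_xx, map_mul, Mod.pull_pull _ _ _ inr fun _ => rfl,
    Mod.pull_pull _ _ _ inl fun _ => rfl, mul_comm]

theorem xx_mul (b a : CR M.Z) (α : Cor M) :
    Cor.xx M b a * α = Cor.xx M (Cor.tau M (Cor.rx M (Cor.sw T) α) b) a := by
  have h : ∀ y : Cor M, Cor.rx M (Cor.sw T) (Cor.rx M (Cor.sw T) y) = y := fun y =>
    (Cor.rx_rx M (Embedding.refl _) (by rintro (t | t) <;> rfl) y).trans
      ((CT X).pl_id (M.prod M) y)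
  rw [← h (_ * α), Cor.sw_mul, sw_xx, Cor.mul_xx, sw_xx]

theorem dgr_cmp (γ δ β : CR (M.prod M).Z) : (M.prod M).dgr (M.cmp γ δ * β) =
    (M.prod M).dgr (γ * (M.prod M).push ((M.prod M).prod M) (e23 T)
      ((M.prod M).pull ((M.prod M).prod M) (e12 T) δ *
        (M.prod M).pull ((M.prod M).prod M) (e13 T) β)) := by
  rw [Mod.cmp, mul_comm _ β, ← Mod.push_pull_mul, ← Mod.push_pull_mul, dgr_push, dgr_push]
  congr 1
  ring

variable {M}

theorem DD_ideal (a b : Cor M) {y : Cor M} (hy : y ∈ Cor.DD M) : a * y * b ∈ Cor.DD M := by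
  induction hy using Submodule.span_induction with
  | mem y h =>
    obtain ⟨c, d, rfl⟩ := h
    exact Submodule.subset_span ⟨_, _, by rw [Cor.mul_xx, xx_mul]⟩
  | zero => rw [mul_zero, zero_mul]; exact zero_mem _
  | add y z _ _ h h' => rw [mul_add, add_mul]; exact add_mem h h'
  | smul q y _ h => rw [mul_smul_comm, smul_mul_assoc]; exact Submodule.smul_mem _ q h

theorem NJ_mul {γ δ : Cor M} (hγ : γ ∈ Cor.NJ M) (hδ : δ ∈ Cor.R0 M) : γ * δ ∈ Cor.NJ M := by
  refine ⟨mul_mem hγ.1 hδ, fun β hβ => (dgr_cmp M _ _ β).trans (hγ.2 _ ?_)⟩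
  exact Mod.push_gr _ _ _ (by simp only [Mod.prod_dim']; ring)
    (CR.mul_gr (Mod.pull_gr _ _ _ hδ) (Mod.pull_gr _ _ _ hβ))

theorem NJ_tau {γ : Cor M} (hγ : γ ∈ Cor.NJ M) (b a : CR M.Z) :
    M.dgr (b * Cor.tau M γ a) = 0 := by
  rw [Cor.tau_apply, ← Mod.push_pull_mul, dgr_push, mul_left_comm, ← Mod.dgL_apply]
  induction a using CR.ind with
  | h2 x y hx hy => rw [map_add, mul_add, mul_add, map_add, hx, hy, add_zero]
  | h1 i a ha =>
    induction b using CR.ind with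
    | h2 x y hx hy => rw [map_add, add_mul, mul_add, map_add, hx, hy, add_zero]
    | h1 j b hb =>
      have h := CR.mul_gr (M.pull_gr (M.prod M) inr hb) (M.pull_gr (M.prod M) inl ha)
      by_cases e : j + i = M.Z.dim
      · exact hγ.2 _ (e ▸ h)
      · exact dgr_gr _ (CR.mul_gr hγ.1 h) (by rw [Mod.prod_dim']; omega)

theorem DJD {x γ y : Cor M} (hx : x ∈ Cor.DD M) (hγ : γ ∈ Cor.NJ M) (hy : y ∈ Cor.DD M) :
    x * γ * y = 0 := by
  induction hx using Submodule.span_induction with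
  | zero => rw [zero_mul, zero_mul]
  | add y z _ _ h h' => rw [add_mul, add_mul, h, h', add_zero]
  | smul q y _ h => rw [smul_mul_assoc, smul_mul_assoc, h, smul_zero]
  | mem x h =>
    obtain ⟨b, a, rfl⟩ := h
    induction hy using Submodule.span_induction with
    | zero => rw [mul_zero]
    | add y z _ _ h h' => rw [mul_add, h, h', add_zero]
    | smul q y _ h => rw [mul_smul_comm, h, smul_zero]
    | mem y h =>
      obtain ⟨b', a', rfl⟩ := h
      rw [mul_assoc, Cor.mul_xx, Cor.mul_xx, Mod.tau_xx, NJ_tau hγ, Cor.xx_smul, zero_smul]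

theorem num_iff {γ : Cor M} : Num M.Z (Cor.vv M γ) ↔ γ ∈ Cor.NJ M := by
  refine and_congr_right fun (h : γ ∈ Cor.R0 M) => ?_
  have h1 : ∀ β ∈ CR.gr (M.prod M).Z M.Z.dim,
      Cor.un M γ * β ∈ CR.gr (M.prod M).Z (M.prod M).Z.dim := fun β hβ => by
    rw [Mod.prod_dim']
    exact CR.mul_gr h hβ
  exact ⟨fun h2 β hβ => (mem_A0 _ (h1 β hβ)).1 (h2 _ hβ),
    fun h2 β hβ => (mem_A0 _ (h1 (CR.mk β (CH_le _ _ hβ)) hβ)).2 (h2 _ hβ)⟩

theorem dec_iff {γ : Cor M} : Cor.vv M γ ∈ Dec M.Z ↔ γ ∈ Cor.DD M := by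
  have h : ∀ (V W : Sub k M.S) (b a : CR M.Z), (V : Set (M.S.Pt k)) ⊆ M.Z.pts →
      (W : Set (M.S.Pt k)) ⊆ M.Z.pts → CR.val _ b = cyc M.Z V → CR.val _ a = cyc M.Z W →
      Cor.vv M (Cor.xx M b a) = cyc (M.Z.prod M.Z) {y | fst y ∈ V ∧ snd y ∈ W} :=
    fun V W b a hV hW hb ha => by
      change mul _ (pl _ _ (M.crd (M.prod M) Sum.inl).ε (CR.val _ b))
        (pl _ _ (M.crd (M.prod M) Sum.inr).ε (CR.val _ a)) = _
      rw [Mod.crd_inl, Mod.crd_inr, hb, ha, ← G1_xp]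
      exact (pd_prod M.Z M.Z).mul_pl_pl hV hW
  have h1 : Dec M.Z = (Cor.DD M).map (Cor.vv M) := by
    refine le_antisymm (Submodule.span_le.2 ?_)
      (Submodule.map_le_iff_le_comap.2 (Submodule.span_le.2 ?_))
    · rintro _ ⟨V, W, hV, hW, rfl⟩
      exact ⟨_, Submodule.subset_span ⟨CR.mk _ (G1_TC hV), CR.mk _ (G1_TC hW), rfl⟩,
        h V W _ _ hV hW rfl rfl⟩
    · rintro _ ⟨b, a, rfl⟩
      let B := ((LinearMap.mul ℚ (CR (M.prod M).Z)).compl₁₂ (M.pull (M.prod M) inl).toLinearMap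
        (M.pull (M.prod M) inr).toLinearMap).compr₂ (CR.val _)
      refine G1_ind ((Dec M.Z).comap (B b)) (fun W hW a ha => ?_) a
      exact G1_ind ((Dec M.Z).comap (B.flip a))
        (fun V hV b hb => Submodule.subset_span ⟨V, W, hV, hW, h V W b a hV hW hb ha⟩) b
  rw [h1]
  exact ⟨fun ⟨δ, h2, h3⟩ => Cor.vv_inj M h3 ▸ h2, fun h2 => ⟨γ, h2, rfl⟩⟩

theorem dec_TC {z : Cl (X.prod X)} (h : z ∈ Dec X) : z ∈ TC (X.prod X) := by
  refine Submodule.span_le.2 ?_ h
  rintro _ ⟨V, W, hV, hW, rfl⟩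
  rw [← G1_xp]
  exact G1_TC ((pd_prod X X).xp_sub hV hW)

end Pool.Agent.Work.MP_10f4af_ag
end

-- merged part: Pool.Agent.Work.MP_10f4af_ag.VG.B1
section
/-!
# A vanishing theorem for functions on powers of a finite group

`f : Γ ^ N → ℚ` has zero sums when `Γ` acts by left multiplication on the coordinates of any
interval.  If `N ≥ |Γ|` then `f = 0`.

Plan.  Put `n = |Γ|`.  For `z : Fin (N + 1) → Γ` let `F z = f (fun t => z t.castSucc)` if
`z (Fin.last N) = 1` and `F z = 0` otherwise.  For `p : Fin (N + 1)` and `g : Γ` let `τ p g` be the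
permutation of `Fin (N + 1) → Γ` which multiplies the coordinates `t ≥ p` by `g` on the left; it is
an action of `Γ`, and it always moves the last coordinate.  Put `S p F z = ∑ g, F (τ p g z)`, and
`⟨u, v⟩ = ∑ z, u z * v z`.
(1) `⟨F, S p F⟩ = ⟨F, F⟩`: only `g = 1` keeps the last coordinate equal to `1`.
(2) `⟨S p u, v⟩ = ⟨u, S p v⟩` (reindex by `τ p g` and `g ↦ g⁻¹`), `S p (S p u) = n • S p u`, so
`⟨S p F, S p F⟩ = n ⟨F, F⟩`.
(3) For `p < q`, `⟨S p F, S q F⟩ = ⟨F, S p (S q F)⟩ = 0`: for `z` with last coordinate `1`, the point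
`τ q h (τ p g z)` has last coordinate `h * g`, so only `h = g⁻¹` contributes, and then the point is
`z` with the coordinates in `[p, q - 1]` multiplied by `g`; the sum over `g` vanishes by `hf`.
(4) With `u = ∑ p, S p F`:
`0 ≤ ⟨n • F - u, n • F - u⟩ = (n ^ 2 - 2 n (N + 1) + (N + 1) n) ⟨F, F⟩ = n (n - N - 1) ⟨F, F⟩`,
so `⟨F, F⟩ = 0`.  `B1_bessel` is step (4) in abstract form.
-/

namespace Pool.Agent.Work.MP_10f4af_ag

theorem B1_bessel {Ω ι : Type*} [Fintype Ω] [Fintype ι] (F : Ω → ℚ) (u : ι → Ω → ℚ) {n : ℕ}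
    (hn : 0 < n) (hι : n < Fintype.card ι) (h1 : ∀ p, ∑ z, F z * u p z = ∑ z, F z * F z)
    (h2 : ∀ p, ∑ z, u p z * u p z = n * ∑ z, F z * F z)
    (h3 : ∀ p q, p ≠ q → ∑ z, u p z * u q z = 0) : F = 0 := by
  classical
  have h1' : ∀ p, F ⬝ᵥ u p = F ⬝ᵥ F := h1
  have h2' : ∀ p, u p ⬝ᵥ u p = n * (F ⬝ᵥ F) := h2
  have h3' : ∀ p q, p ≠ q → u p ⬝ᵥ u q = 0 := h3
  have a1 : F ⬝ᵥ (∑ p, u p) = Fintype.card ι * (F ⬝ᵥ F) := by
    rw [dotProduct_sum]
    simp [h1']
  have a2 : (∑ p, u p) ⬝ᵥ (∑ p, u p) = Fintype.card ι * (n * (F ⬝ᵥ F)) := by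
    rw [sum_dotProduct]
    have : ∀ p, u p ⬝ᵥ (∑ q, u q) = n * (F ⬝ᵥ F) := fun p => by
      rw [dotProduct_sum, Finset.sum_eq_single p (fun q _ hq => h3' p q (Ne.symm hq)) (by simp),
        h2']
    simp [this]
  have a3 : ∀ v : Ω → ℚ, 0 ≤ v ⬝ᵥ v := fun v => Finset.sum_nonneg fun z _ => mul_self_nonneg _
  have a4 := a3 ((n : ℚ) • F - ∑ p, u p)
  rw [sub_dotProduct, dotProduct_sub, dotProduct_sub, smul_dotProduct, smul_dotProduct,
    dotProduct_smul, dotProduct_smul, dotProduct_comm (∑ p, u p) F, a1, a2] at a4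
  simp only [smul_eq_mul] at a4
  have a5 : (0 : ℚ) < n := by exact_mod_cast hn
  have a6 : (n : ℚ) < Fintype.card ι := by exact_mod_cast hι
  have a7 : F ⬝ᵥ F ≤ 0 := by
    by_contra k
    have := mul_pos (mul_pos a5 (sub_pos.2 a6)) (not_le.1 k)
    nlinarith
  exact dotProduct_self_eq_zero.1 (le_antisymm a7 (a3 F))

section

variable {Γ : Type*} [Group Γ] {N : ℕ}

/-- multiplication of the coordinates from `p` on -/
def B1_tau (p : Fin (N + 1)) (g : Γ) (z : Fin (N + 1) → Γ) : Fin (N + 1) → Γ :=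
  fun t => if p ≤ t then g * z t else z t

theorem B1_tau_mul (p : Fin (N + 1)) (g h : Γ) (z : Fin (N + 1) → Γ) :
    B1_tau p g (B1_tau p h z) = B1_tau p (g * h) z := by
  funext t
  unfold B1_tau
  split_ifs <;> simp [mul_assoc]

theorem B1_tau_one (p : Fin (N + 1)) (z : Fin (N + 1) → Γ) : B1_tau p 1 z = z := by
  funext t
  simp [B1_tau]

theorem B1_tau_last (p : Fin (N + 1)) (g : Γ) (z : Fin (N + 1) → Γ) :
    B1_tau p g z (Fin.last N) = g * z (Fin.last N) := by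
  simp [B1_tau, Fin.le_last]

variable [Fintype Γ]

/-- the sum over the orbit -/
def B1_S (p : Fin (N + 1)) (u : (Fin (N + 1) → Γ) → ℚ) (z : Fin (N + 1) → Γ) : ℚ :=
  ∑ g, u (B1_tau p g z)

theorem B1_adj (p : Fin (N + 1)) (u v : (Fin (N + 1) → Γ) → ℚ) :
    ∑ z, B1_S p u z * v z = ∑ z, u z * B1_S p v z := by
  simp only [B1_S, Finset.sum_mul, Finset.mul_sum]
  rw [Finset.sum_comm, Finset.sum_comm (f := fun z g => u z * v (B1_tau p g z))]
  refine Fintype.sum_equiv (Equiv.inv Γ) _ _ fun g => ?_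
  refine Fintype.sum_equiv ⟨B1_tau p g, B1_tau p g⁻¹, fun z => ?_, fun z => ?_⟩ _ _ fun z => ?_
  · rw [B1_tau_mul, inv_mul_cancel, B1_tau_one]
  · rw [B1_tau_mul, mul_inv_cancel, B1_tau_one]
  · simp [B1_tau_mul, B1_tau_one]

theorem B1_sq (p : Fin (N + 1)) (u : (Fin (N + 1) → Γ) → ℚ) (z : Fin (N + 1) → Γ) :
    B1_S p (B1_S p u) z = Fintype.card Γ * B1_S p u z := by
  have : ∀ g, B1_S p u (B1_tau p g z) = B1_S p u z := fun g => by
    simp only [B1_S, B1_tau_mul]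
    exact Fintype.sum_equiv (Equiv.mulRight g) _ _ fun h => rfl
  rw [B1_S]
  simp [this]

end

theorem BI_fun {Γ : Type*} [Group Γ] [Fintype Γ] {N : ℕ} (hN : Fintype.card Γ ≤ N)
    (f : (Fin N → Γ) → ℚ)
    (hf : ∀ (i j : Fin N), i ≤ j → ∀ x : Fin N → Γ,
      ∑ g : Γ, f (fun t => if i ≤ t ∧ t ≤ j then g * x t else x t) = 0) : f = 0 := by
  classical
  set F : (Fin (N + 1) → Γ) → ℚ := fun z =>
    if z (Fin.last N) = 1 then f (fun t => z t.castSucc) else 0 with hF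
  have h1 : ∀ p, ∑ z, F z * B1_S p F z = ∑ z, F z * F z := fun p => by
    refine Finset.sum_congr rfl fun z _ => ?_
    by_cases hz : z (Fin.last N) = 1
    · rw [B1_S, Finset.sum_eq_single (1 : Γ) (fun g _ hg => ?_) (by simp), B1_tau_one]
      simp [hF, B1_tau_last, hz, hg]
    · simp [hF, hz]
  have h3 : ∀ p q, p < q → ∑ z, B1_S p F z * B1_S q F z = 0 := fun p q hpq => by
    rw [B1_adj]
    refine Finset.sum_eq_zero fun z _ => ?_
    by_cases hz : z (Fin.last N) = 1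
    swap
    · simp [hF, hz]
    have hq := q.2
    have hpq' : (p : ℕ) < q := hpq
    have := hf ⟨p, by omega⟩ ⟨q - 1, by omega⟩ (Fin.mk_le_mk.2 (by omega)) fun t => z t.castSucc
    rw [B1_S, ← mul_zero (F z), ← this]
    congr 1
    refine Finset.sum_congr rfl fun g _ => ?_
    rw [B1_S, Finset.sum_eq_single g⁻¹ (fun h _ hh => ?_) (by simp)]
    · simp only [hF, B1_tau_last, hz, mul_one, inv_mul_cancel, if_true]
      congr 1
      funext t
      simp only [B1_tau, Fin.le_def, Fin.val_castSucc]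
      split_ifs <;> first | omega | simp
    · have : h * g ≠ 1 := fun k => hh (eq_inv_of_mul_eq_one_left k)
      simp [hF, B1_tau_last, hz, this]
  have h0 : F = 0 := by
    refine B1_bessel F (fun p : Fin (N + 1) => B1_S p F) (n := Fintype.card Γ) Fintype.card_pos
      (by rw [Fintype.card_fin]; omega) h1 (fun p => ?_) fun p q hpq => ?_
    · rw [B1_adj, ← h1 p, Finset.mul_sum]
      exact Finset.sum_congr rfl fun z _ => by rw [B1_sq]; ring
    · rcases lt_or_gt_of_ne hpq with k | k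
      · exact h3 p q k
      · rw [← h3 q p k]
        exact Finset.sum_congr rfl fun z _ => mul_comm _ _
  funext x
  have := congrFun h0 (Fin.snoc x 1)
  simpa [hF] using this

end Pool.Agent.Work.MP_10f4af_ag
end

-- merged part: Pool.Agent.Work.MP_10f4af_ag.VG.B2
section
/-!
# Groups acting with finite orbits: averaging and nilpotence

Plan.  `exists_normal`: the stabiliser of a vector with a finite orbit has finite index (the map
from the left cosets to the orbit is injective); take the `Subgroup.normalCore` of the finite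
intersection (or induct on `s`, `Subgroup.FiniteIndex` of `⊓`).
`exists_av`: `s = Quotient.out : G ⧸ N → G`; for `y` fixed by `N` the vector `ρ g y` only depends
on the class of `g`.
`inv_mem`: write `t = d + ∑ c i • (ρ (g i) (m i) - m i)` (`Submodule.mem_sup`,
`Submodule.mem_span_set'` or an induction on the span which produces the finite set of the `m i`),
take `N` which fixes all the `m i`; the operator `∑ γ, ρ (s γ)` kills `ρ g m - m` for `m` fixed by
`N` (reindex by `γ ↦ γ * g`), multiplies `t` by `card ≠ 0` and preserves `D`.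
`BI_ring`: `Γ = G ⧸ N` with `N` fixing `x`, `n = card Γ`.  For a linear form `λ : A →ₗ[ℚ] ℚ` which
vanishes on `D` put `f γ = λ (List.ofFn fun t => ρ (s (γ t)) x).prod`.  Split the product into the
parts before, inside and after the interval `[i, j]` (`B2_split`).  The middle part `y` lies in `J`
and is fixed by `N`, the sum over `g` is `λ (a * (∑ g, ρ (s g) y) * b)`, and `∑ g, ρ (s g) y` is an
invariant element of `J`, so it lies in `D`.  By `BI_fun`, `f 1 = λ (x ^ n) = 0`; conclude with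
`Subspace.forall_mem_dualAnnihilator_apply_eq_zero_iff` (or `Submodule.exists_dual_map_eq_bot_of_notMem`).
-/

namespace Pool.Agent.Work.MP_10f4af_ag

variable {G : Type*} [Group G]

theorem exists_normal {V : Type*} (ρ : G → V → V) (h1 : ∀ x, ρ 1 x = x)
    (hm : ∀ g h x, ρ (g * h) x = ρ g (ρ h x)) {s : Set V} (hs : s.Finite)
    (hf : ∀ x ∈ s, (Set.range fun g => ρ g x).Finite) :
    ∃ N : Subgroup G, N.Normal ∧ N.FiniteIndex ∧ ∀ g ∈ N, ∀ x ∈ s, ρ g x = x := by
  letI : MulAction G V := { smul := ρ, one_smul := h1, mul_smul := hm }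
  haveI := hs.to_subtype
  haveI : (⨅ x : s, MulAction.stabilizer G x.1).FiniteIndex :=
    Subgroup.finiteIndex_iInf fun x => ⟨by
      rw [MulAction.index_stabilizer]
      exact Set.ncard_ne_zero_of_mem (MulAction.mem_orbit_self x.1) (hf x.1 x.2)⟩
  exact ⟨(⨅ x : s, MulAction.stabilizer G x.1).normalCore, inferInstance, inferInstance,
    fun g hg x hx => Subgroup.mem_iInf.1 (Subgroup.normalCore_le _ hg) ⟨x, hx⟩⟩

theorem exists_av {V : Type*} (ρ : G → V → V) (hm : ∀ g h x, ρ (g * h) x = ρ g (ρ h x))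
    (N : Subgroup G) [N.Normal] {y : V} (hy : ∀ g ∈ N, ρ g y = y) (g : G) :
    ρ (QuotientGroup.mk g : G ⧸ N).out y = ρ g y ∧ ∀ h ∈ N, ρ h (ρ g y) = ρ g y := by
  constructor
  · obtain ⟨h, e⟩ := QuotientGroup.mk_out_eq_mul N g
    rw [e, hm, hy _ h.2]
  · intro h hh
    rw [← hm, show h * g = g * (g⁻¹ * h * g) by group, hm,
      hy _ (Subgroup.Normal.conj_mem' inferInstance h hh g)]

theorem B2_left {V : Type*} (ρ : G → V → V) (hm : ∀ g h x, ρ (g * h) x = ρ g (ρ h x))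
    (N : Subgroup G) [N.Normal] {y : V} (hy : ∀ g ∈ N, ρ g y = y) (g : G) (γ : G ⧸ N) :
    ρ ((QuotientGroup.mk g : G ⧸ N) * γ).out y = ρ g (ρ γ.out y) := by
  rw [← hm, ← (exists_av ρ hm N hy (g * γ.out)).1, QuotientGroup.mk_mul, QuotientGroup.out_eq']

theorem B2_right {V : Type*} (ρ : G → V → V) (hm : ∀ g h x, ρ (g * h) x = ρ g (ρ h x))
    (N : Subgroup G) [N.Normal] {y : V} (hy : ∀ g ∈ N, ρ g y = y) (g : G) (γ : G ⧸ N) :
    ρ (γ * (QuotientGroup.mk g : G ⧸ N)).out y = ρ γ.out (ρ g y) := by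
  rw [← hm, ← (exists_av ρ hm N hy (γ.out * g)).1, QuotientGroup.mk_mul, QuotientGroup.out_eq']

theorem inv_mem {V : Type*} [AddCommGroup V] [Module ℚ V] (ρ : G → V →ₗ[ℚ] V)
    (h1 : ∀ x, ρ 1 x = x) (hm : ∀ g h x, ρ (g * h) x = ρ g (ρ h x))
    (hf : ∀ x, (Set.range fun g => ρ g x).Finite) (D : Submodule ℚ V)
    (hD : ∀ g, ∀ x ∈ D, ρ g x ∈ D) {t : V} (ht : ∀ g, ρ g t = t)
    (h : t ∈ D ⊔ Submodule.span ℚ {y | ∃ g m, y = ρ g m - m}) : t ∈ D := by
  obtain ⟨d, hd, y, hy, e⟩ := Submodule.mem_sup.1 h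
  have key : ∃ s : Set V, s.Finite ∧ ∀ (N : Subgroup G) [N.Normal] [Fintype (G ⧸ N)],
      (∀ g ∈ N, ∀ x ∈ s, ρ g x = x) → ∑ γ : G ⧸ N, ρ γ.out y = 0 := by
    clear e
    induction hy using Submodule.span_induction with
    | mem y hy =>
      obtain ⟨g, m, rfl⟩ := hy
      refine ⟨{m}, Set.finite_singleton m, fun N _ _ hN => ?_⟩
      simp only [map_sub, Finset.sum_sub_distrib, sub_eq_zero]
      rw [← Equiv.sum_comp (Equiv.mulRight (QuotientGroup.mk g : G ⧸ N)) fun γ => ρ γ.out m]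
      exact Finset.sum_congr rfl fun γ _ =>
        (B2_right (fun g x => ρ g x) hm N (fun g hg => hN g hg m rfl) g γ).symm
    | zero => exact ⟨∅, Set.finite_empty, fun N _ _ _ => by simp⟩
    | add y z _ _ iy iz =>
      obtain ⟨s, hs, k⟩ := iy
      obtain ⟨s', hs', k'⟩ := iz
      refine ⟨s ∪ s', hs.union hs', fun N _ _ hN => ?_⟩
      simp only [map_add, Finset.sum_add_distrib]
      rw [k N fun g hg x hx => hN g hg x (Or.inl hx), k' N fun g hg x hx => hN g hg x (Or.inr hx),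
        add_zero]
    | smul c y _ iy =>
      obtain ⟨s, hs, k⟩ := iy
      refine ⟨s, hs, fun N _ _ hN => ?_⟩
      simp only [map_smul, ← Finset.smul_sum]
      rw [k N hN, smul_zero]
  obtain ⟨s, hs, k⟩ := key
  obtain ⟨N, _, _, hN⟩ := exists_normal (fun g x => ρ g x) h1 hm hs fun x _ => hf x
  letI := Fintype.ofFinite (G ⧸ N)
  have h2 : (Fintype.card (G ⧸ N) : ℚ) • t = ∑ γ : G ⧸ N, ρ γ.out d := by
    rw [← add_zero (∑ γ : G ⧸ N, ρ γ.out d), ← k N hN, ← Finset.sum_add_distrib]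
    simp only [← map_add, e, ht, Finset.sum_const, Finset.card_univ, Nat.cast_smul_eq_nsmul]
  have h3 : (Fintype.card (G ⧸ N) : ℚ) ≠ 0 := Nat.cast_ne_zero.2 Fintype.card_ne_zero
  exact (D.smul_mem_iff h3).1 (h2 ▸ D.sum_mem fun γ _ => hD _ d hd)

theorem B2_take {N k : ℕ} {t : Fin N} (h : t ∈ (List.finRange N).take k) : t.val < k := by
  obtain ⟨j, hj, rfl⟩ := List.mem_take_iff_getElem.1 h
  simp only [List.getElem_finRange, Fin.cast_mk]
  omega

theorem B2_drop {N k : ℕ} {t : Fin N} (h : t ∈ (List.finRange N).drop k) : k ≤ t.val := by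
  obtain ⟨j, hj, rfl⟩ := List.mem_drop_iff_getElem.1 h
  simp only [List.getElem_finRange, Fin.cast_mk]
  omega

theorem B2_split {A : Type*} [Monoid A] {N : ℕ} (i j : Fin N) (u : Fin N → A) :
    ∃ (a b : A) (l : List (Fin N)), (i ≤ j → l ≠ []) ∧ (∀ t ∈ l, i ≤ t ∧ t ≤ j) ∧
      ∀ v : Fin N → A, (List.ofFn fun t => if i ≤ t ∧ t ≤ j then v t else u t).prod =
        a * (l.map v).prod * b := by
  have hl : ∀ t ∈ ((List.finRange N).take (j + 1)).drop i, i ≤ t ∧ t ≤ j := fun t ht =>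
    ⟨B2_drop (List.mem_of_mem_take (List.drop_take ▸ ht)),
      Nat.lt_succ_iff.1 (B2_take (List.mem_of_mem_drop ht))⟩
  refine ⟨((((List.finRange N).take (j + 1)).take i).map u).prod,
    (((List.finRange N).drop (j + 1)).map u).prod, ((List.finRange N).take (j + 1)).drop i,
    fun h => List.ne_nil_of_length_pos ?_, hl, fun v => ?_⟩
  · have h1 := j.2
    have h2 : i.val ≤ j.val := h
    simp only [List.length_drop, List.length_take, List.length_finRange]
    omega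
  · rw [List.ofFn_eq_map]
    conv_lhs => rw [← List.take_append_drop (j + 1) (List.finRange N),
      ← List.take_append_drop i ((List.finRange N).take (j + 1))]
    simp only [List.map_append, List.prod_append]
    congr 2
    · refine congrArg _ (List.map_congr_left fun t ht => if_neg fun h => ?_)
      rw [List.take_take] at ht
      exact (Fin.le_def.1 h.1).not_gt ((B2_take ht).trans_le (min_le_left _ _))
    · exact congrArg _ (List.map_congr_left fun t ht => if_pos (hl t ht))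
    · exact List.map_congr_left fun t ht => if_neg fun h =>
        (Fin.le_def.1 h.2).not_gt (B2_drop ht)

theorem B2_prod {A ι : Type*} [Ring A] [Algebra ℚ A] (J : Submodule ℚ A)
    (hJ : ∀ x ∈ J, ∀ y ∈ J, x * y ∈ J) (w : ι → A) (hw : ∀ t, w t ∈ J) :
    ∀ l : List ι, l ≠ [] → (l.map w).prod ∈ J
  | [], h => absurd rfl h
  | [t], _ => by simpa using hw t
  | t :: t' :: l, _ => hJ _ (hw t) _ (B2_prod J hJ w hw (t' :: l) (List.cons_ne_nil _ _))

theorem BI_ring {A : Type*} [Ring A] [Algebra ℚ A] (ρ : G → A →ₐ[ℚ] A) (h1 : ∀ x, ρ 1 x = x)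
    (hm : ∀ g h x, ρ (g * h) x = ρ g (ρ h x)) (J D : Submodule ℚ A)
    (hJ : ∀ x ∈ J, ∀ y ∈ J, x * y ∈ J) (hG : ∀ g, ∀ x ∈ J, ρ g x ∈ J)
    (hD : ∀ a b, ∀ y ∈ D, a * y * b ∈ D) (inv : ∀ x ∈ J, (∀ g, ρ g x = x) → x ∈ D) {x : A}
    (hx : x ∈ J) (hf : (Set.range fun g => ρ g x).Finite) : ∃ n, 0 < n ∧ x ^ n ∈ D := by
  obtain ⟨N, _, _, hN⟩ := exists_normal (fun g x => ρ g x) h1 hm (Set.finite_singleton x)
    (fun y hy => hy ▸ hf)
  have hN' : ∀ g ∈ N, ρ g x = x := fun g hg => hN g hg x rfl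
  letI := Fintype.ofFinite (G ⧸ N)
  refine ⟨Fintype.card (G ⧸ N), Fintype.card_pos,
    (Subspace.forall_mem_dualAnnihilator_apply_eq_zero_iff D _).1 fun φ hφ => ?_⟩
  have h2 := BI_fun (Γ := G ⧸ N) le_rfl (fun γ => φ (List.ofFn fun t => ρ (γ t).out x).prod)
    fun i j hij γ => by
      obtain ⟨a, b, l, l1, -, l3⟩ := B2_split i j fun t => ρ (γ t).out x
      have y1 := B2_prod J hJ (fun t => ρ (γ t).out x) (fun t => hG _ x hx) l (l1 hij)
      have y2 : ∀ g, ρ g (l.map fun t => ρ (γ t).out x).prod =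
          (l.map fun t => ρ g (ρ (γ t).out x)).prod := fun g => by
        rw [map_list_prod, List.map_map]
        rfl
      have y3 : ∀ g ∈ N, ρ g (l.map fun t => ρ (γ t).out x).prod =
          (l.map fun t => ρ (γ t).out x).prod := fun g hg => by
        rw [y2]
        exact congrArg _ (List.map_congr_left fun t _ =>
          (exists_av (fun g x => ρ g x) hm N hN' _).2 g hg)
      have y4 : ∀ g : G ⧸ N, (List.ofFn fun t =>
          ρ (if i ≤ t ∧ t ≤ j then g * γ t else γ t).out x).prod =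
          a * ρ g.out (l.map fun t => ρ (γ t).out x).prod * b := fun g => by
        rw [y2, ← l3]
        refine congrArg _ (congrArg _ (funext fun t => ?_))
        split_ifs
        · rw [← B2_left (fun g x => ρ g x) hm N hN' g.out (γ t), QuotientGroup.out_eq']
        · rfl
      simp only [y4]
      rw [← map_sum, ← Finset.sum_mul, ← Finset.mul_sum]
      refine (Submodule.mem_dualAnnihilator φ).1 hφ _ (hD a b _ (inv _
        (J.sum_mem fun g _ => hG _ _ y1) fun g => ?_))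
      rw [map_sum, ← Equiv.sum_comp (Equiv.mulLeft (QuotientGroup.mk g : G ⧸ N))
        fun k => ρ k.out (l.map fun t => ρ (γ t).out x).prod]
      exact Finset.sum_congr rfl fun k _ => (B2_left (fun g x => ρ g x) hm N y3 g k).symm
  have h3 := congrFun h2 1
  have h4 : ρ (1 : G ⧸ N).out x = x := ((exists_av (fun g x => ρ g x) hm N hN' 1).1).trans (h1 x)
  simpa [h4] using h3

end Pool.Agent.Work.MP_10f4af_ag
end

-- merged part: Pool.Agent.Work.MP_10f4af_ag.VG.G2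
section
/-!
# Nilpotence of numerically trivial correspondences

Plan.  The group `G = k ≃ₐ[B] k` acts on `Cor (Mod.one X)` by `Dat.act`; `(g * h).toRingEquiv` is
`h.toRingEquiv.trans g.toRingEquiv` by `rfl`, so `act_one`, `act_mul` follow from `CR.gal_refl`,
`CR.gal_gal`, and `act_fin` from `orbit_CR`, `orbit_ideal`.
`act_NJ`: `CR.gal_gr`; write `β = gal σ (gal σ⁻¹ β)` and use `map_mul`, `dgr_gal`.
`Dat.inv`: let `Q' = Q ⊔ span {y | ∃ g m, y = act g m - m}` and
`N = (Q'.map (Cor.vv _)).comap (Rt (X.prod X).pts).mkQ`.  Check the hypotheses of `Dat.fr`: a class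
`cyc _ T` is `Cor.vv _ m` for some `m` (`CR.mk`, `cyc_mem`, `CH_le` or `cS_mem`), `tC_cyc`,
`Cor.vv_one`, `dec_iff`.  Then `mem_CH`, `Sp_map` (dimension: `prod_dim`), `Cor.vv_inj` give
`t ∈ Q'`, and `inv_mem` finishes.
`one_mem_DD`: `exists_dat` with `r = 0` (`algebraicIndependent_empty_type`), `Dat.inv` with
`Q = Cor.DD _`, `t = 1`.
`VG.nil`: `chain_pts`, `exists_dat`.  An invariant `t ∈ NJ` is `δ + c • 1` by `Dat.inv` with
`Q = DD ⊔ span {1}`; if `c ≠ 0` then `1 - (-c⁻¹ • δ) = c⁻¹ • t ∈ NJ`, which is excluded.  So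
`BI_ring` (`NJ_mul`, `DD_ideal`) gives `γ ^ n ∈ DD`, and `γ ^ n * γ * γ ^ n = 0` by `DJD`.
-/

open MvPolynomial Function

namespace Pool.Agent.Work.MP_10f4af_ag

open MP_ffcd14_ag hiding len vl cyc pl Weil idl_hmg mem_idl idl_prime idl_le_iff lin

universe u

variable {k : Type u} [Field k] [IsAlgClosed k] {P : Amb} {Z : SV k P}

section

variable {r : ℕ} {f : Fin r → MvPolynomial P.V k} {a : Fin r → P.ι →₀ ℕ} {k₀ : Type u} [Field k₀]
  [Algebra (MvPolynomial (Par a) k₀) k] (h : Dat Z k₀ f a)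

/-- The action of the Galois group on the correspondences. -/
noncomputable def Dat.act (σ : k ≃ₐ[MvPolynomial (Par a) k₀] k) :
    Cor (Mod.one Z) →ₐ[ℚ] Cor (Mod.one Z) := Cor.gal (Mod.one Z) (h.stab σ)

theorem Dat.act_one (x : Cor (Mod.one Z)) : h.act 1 x = x := by
  exact (Cor.un _).injective
    (CR.gal_refl ((h.stab 1).mod ((Mod.one Z).prod (Mod.one Z))) (Cor.un _ x))

theorem Dat.act_mul (σ τ : k ≃ₐ[MvPolynomial (Par a) k₀] k) (x : Cor (Mod.one Z)) :
    h.act (σ * τ) x = h.act σ (h.act τ x) := by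
  exact (Cor.un _).injective (CR.gal_gal ((h.stab σ).mod ((Mod.one Z).prod (Mod.one Z)))
    ((h.stab τ).mod _) ((h.stab (σ * τ)).mod _) (Cor.un _ x)).symm

theorem Dat.act_DD (σ : k ≃ₐ[MvPolynomial (Par a) k₀] k) {x : Cor (Mod.one Z)}
    (hx : x ∈ Cor.DD (Mod.one Z)) : h.act σ x ∈ Cor.DD (Mod.one Z) := by
  refine (Submodule.span_le (p := (Cor.DD _).comap (h.act σ).toLinearMap)).2 ?_ hx
  rintro _ ⟨b, a, rfl⟩
  exact Submodule.subset_span ⟨_, _, Cor.gal_xx _ (h.stab σ) b a⟩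

theorem Dat.G2_R0 (σ : k ≃ₐ[MvPolynomial (Par a) k₀] k) {x : Cor (Mod.one Z)}
    (hx : x ∈ Cor.R0 (Mod.one Z)) : h.act σ x ∈ Cor.R0 (Mod.one Z) :=
  CR.gal_gr ((h.stab σ).mod ((Mod.one Z).prod (Mod.one Z))) hx

theorem Dat.act_NJ (σ : k ≃ₐ[MvPolynomial (Par a) k₀] k) {x : Cor (Mod.one Z)}
    (hx : x ∈ Cor.NJ (Mod.one Z)) : h.act σ x ∈ Cor.NJ (Mod.one Z) := by
  refine ⟨h.G2_R0 σ hx.1, fun β hβ => ?_⟩
  obtain ⟨β, rfl⟩ := (Cor.un _).surjective β
  have e : h.act σ (h.act σ⁻¹ β) = β := by rw [← h.act_mul, mul_inv_cancel, h.act_one]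
  rw [← e, Dat.act, Cor.un_gal, Cor.un_gal, ← map_mul, Mod.dgL_apply, dgr_gal _ (h.stab σ)]
  exact hx.2 _ (h.G2_R0 σ⁻¹ hβ)

variable [FaithfulSMul (MvPolynomial (Par a) k₀) k]
  [Algebra.IsAlgebraic (MvPolynomial (Par a) k₀) k]

theorem Dat.act_fin (x : Cor (Mod.one Z)) : (Set.range fun σ => h.act σ x).Finite := by
  exact orbit_CR (fun σ => (h.stab σ).mod ((Mod.one Z).prod (Mod.one Z)))
    (fun I => orbit_ideal I) (Cor.un _ x)

omit h in
theorem G2_mk {T : Sub k (P.sum P)} (hT : (T : Set ((P.sum P).Pt k)) ⊆ (Z.prod Z).pts) :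
    ∃ m, Cor.vv (Mod.one Z) m = (Rt (Z.prod Z).pts).mkQ (cS T) :=
  ⟨(Cor.un _).symm (CR.mk _ ⟨cS T, cS_mem hT, rfl⟩), rfl⟩

theorem Dat.inv (Q : Submodule ℚ (Cor (Mod.one Z))) (hD : Cor.DD (Mod.one Z) ≤ Q)
    (h1 : r ≠ 0 → 1 ∈ Q) (hQ : ∀ σ, ∀ x ∈ Q, h.act σ x ∈ Q) {t : Cor (Mod.one Z)}
    (ht : t ∈ Cor.R0 (Mod.one Z)) (hi : ∀ σ, h.act σ t = t) : t ∈ Q := by
  refine inv_mem (fun σ => (h.act σ).toLinearMap) h.act_one h.act_mul h.act_fin Q hQ hi ?_
  generalize hQ' : Q ⊔ Submodule.span ℚ _ = Q'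
  have k1 : Q ≤ Q' := hQ' ▸ le_sup_left
  have k2 : ∀ σ m, h.act σ m - m ∈ Q' := fun σ m =>
    hQ' ▸ Submodule.mem_sup_right (Submodule.subset_span ⟨σ, m, rfl⟩)
  obtain ⟨c, hc, e⟩ := (mem_CH _).1 ((Cor.mem_R0' _).1 ht)
  obtain ⟨s, hs, e'⟩ : (Rt (Z.prod Z).pts).mkQ c ∈ Q'.map (Cor.vv (Mod.one Z)) := by
    refine Sp_map _ _ (fun T hT => ?_) hc
    refine h.fr (N := (Q'.map (Cor.vv (Mod.one Z))).comap (Rt (Z.prod Z).pts).mkQ)
      (fun c hc => ?_) (fun σ T hT => ?_) (fun hr => ?_) (fun V W hV hW => ?_) hT.1 ?_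
    · exact ⟨0, zero_mem _, (map_zero _).trans ((Submodule.Quotient.mk_eq_zero _).2 hc).symm⟩
    · obtain ⟨m, hm⟩ := G2_mk hT
      refine ⟨_, k2 σ m, ?_⟩
      have e : Cor.vv (Mod.one Z) (h.act σ m) =
          tC ((h.stab σ).mod ((Mod.one Z).prod (Mod.one Z))) (Cor.vv (Mod.one Z) m) := rfl
      rw [map_sub, map_sub, e, hm, ← tw_cS]
      rfl
    · exact ⟨1, k1 (h1 hr), Cor.vv_one _⟩
    · obtain ⟨m, hm⟩ := G2_mk (Z := Z) (T := bij_sum.xp V W) fun z hz =>
        mem_prod.2 ⟨hV (bij_sum.mem_xp.1 hz).1, hW (bij_sum.mem_xp.1 hz).2⟩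
      refine ⟨m, k1 (hD (dec_iff.1 (Submodule.subset_span ⟨V, W, hV, hW, hm.trans ?_⟩))), hm⟩
      exact congrArg (cyc (Z.prod Z)) (Set.ext fun z => bij_sum.mem_xp)
    · exact Nat.add_right_cancel (hT.2.trans (prod_dim Z Z))
  rwa [← Cor.vv_inj _ (e'.trans e)]

end

theorem one_mem_DD (h : Z.pts = Set.univ) : (1 : Cor (Mod.one Z)) ∈ Cor.DD (Mod.one Z) := by
  have : IsEmpty (Par (P := P) (r := 0) Fin.elim0) := IsEmpty.mk fun p => p.1.elim0
  obtain ⟨k₀, _, _, _, hd⟩ := exists_dat (Z := Z) (r := 0) (f := Fin.elim0) (a := Fin.elim0)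
    (fun j => j.elim0) (fun j => j.elim0) (fun x => by simp [h]) algebraicIndependent_empty_type
  exact hd.inv _ le_rfl (fun k => absurd rfl k) (fun σ _ => hd.act_DD σ) (one_mem _)
    fun σ => map_one _

theorem VG.nil (h : VG Z) (hn : ∀ δ ∈ Cor.DD (Mod.one Z), 1 - δ ∉ Cor.NJ (Mod.one Z))
    {γ : Cor (Mod.one Z)} (hγ : γ ∈ Cor.NJ (Mod.one Z)) : IsNilpotent γ := by
  obtain ⟨r, Y, f, a, h0, rfl, h1, h2⟩ := h
  obtain ⟨k₀, _, _, _, hd⟩ := exists_dat (f := fun j : Fin r => f j) (a := fun j : Fin r => a j)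
    (fun j => (h1 j j.2).form) (fun j => (h1 j j.2).pos) (chain_pts h0 h1) h2
  refine (BI_ring hd.act hd.act_one hd.act_mul (Cor.NJ _) (Cor.DD _)
    (fun x hx y hy => NJ_mul hx hy.1) (fun σ _ => hd.act_NJ σ) (fun a b _ => DD_ideal a b)
    (fun t ht hi => ?_) hγ (hd.act_fin γ)).elim fun n h3 =>
      ⟨n + 1 + n, by rw [pow_add, pow_succ, DJD h3.2 hγ h3.2]⟩
  obtain ⟨δ, hδ, _, hy, rfl⟩ := Submodule.mem_sup.1 (hd.inv (Cor.DD _ ⊔ Submodule.span ℚ {1})
    le_sup_left (fun _ => Submodule.mem_sup_right (Submodule.mem_span_singleton_self _))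
    (fun σ x hx => by
      obtain ⟨δ, hδ, _, hy, rfl⟩ := Submodule.mem_sup.1 hx
      obtain ⟨c, rfl⟩ := Submodule.mem_span_singleton.1 hy
      rw [map_add, map_smul, map_one]
      exact Submodule.add_mem_sup (hd.act_DD σ hδ) hy) ht.1 hi)
  obtain ⟨c, rfl⟩ := Submodule.mem_span_singleton.1 hy
  by_cases hc : c = 0
  · rwa [hc, zero_smul, add_zero]
  refine absurd ?_ (hn _ (Submodule.smul_mem _ (-c⁻¹) hδ))
  have := Submodule.smul_mem _ c⁻¹ ht
  rwa [smul_add, smul_smul, inv_mul_cancel₀ hc, one_smul, add_comm, ← sub_neg_eq_add,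
    ← neg_smul] at this

end Pool.Agent.Work.MP_10f4af_ag
end

-- merged part: Pool.Agent.Work.MP_10f4af_ag.K3
section
/-!
# Varieties with algebraic cohomology

Plan.  `exists_basis`: `exists_linearIndependent` in the spanning set, finite by
`LinearIndependent.setFinite`; a class is not zero, so its codimension is at most the dimension
(`CR.gr_gt`).  `exists_dual`: the matrix `dgr (a r * a s)` is invertible over `K` (`cast_dgr`,
`pd_l`), hence over `ℚ`; take `b r = ∑ s with m s + m r = dim, c r s • a s`; `dgr` is linear and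
vanishes outside the top codimension (again by `cast_dgr`, `tr_gr`, `Rat.cast_injective`).
`exists_fam`: `e r = xx (b r) (a r)` are orthogonal idempotents (`mul_xx`, `Mod.tau_xx`,
`xx_smul`), `rho (∑ e r) = 1` on the basis (`rho_xx`), so `p = 1 - ∑ e r` is killed by `rho`
(`CompleteOrthogonalIdempotents.option`); a class `z` with `clR z = 0` is killed by each `e r`.
`inj_of_IS`: `IS.phantom`, `Fam.sum_tau`.  `IS_of_inj`: `tau (q c) z = 0` if `n c ≠ 2 i`
(`clR_tau`, `Fam.kill`), so `KS` is everything if `¬ s (2 i)` and `{0}` if `s (2 i)`.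
`H3`: dictionary K0 with `M = Mod.one X`; for `Fil` take `m = 2 i`, `a = 1`, `b = 0`; for `Ker`
take `m = 1`, `a = 2 i`, `b ≠ 2 i`; if `dim < i` use `CR.gr_gt`; if the dimension is `0` use
`CR.gr_zero`, `clR_smul`, `one_ne`.
-/

open Function Function.Embedding

namespace Pool.Agent.Work.MP_10f4af_ag

open MP_ffcd14_ag (Amb)

universe u v w

variable {k : Type u} [Field k] [IsAlgClosed k] {K : Type v} [Field K] [CharZero K] {P : Amb}
  {W : Weil.{u, v, w} k K} {X : SV k P} {T : Type} {M : Mod X T}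

theorem exists_basis
    (h : Submodule.span K {x | ∃ i, ∃ z ∈ CH X i, x = W.cl X z} = ⊤) :
    ∃ (N : ℕ) (a : Fin N → CR X) (m : Fin N → ℕ), (∀ r, a r ∈ CR.gr X (m r)) ∧
      (∀ r, m r ≤ X.dim) ∧ LinearIndependent K (fun r => W.clR X (a r)) ∧
      Submodule.span K (Set.range fun r => W.clR X (a r)) = ⊤ := by
  obtain ⟨B, hB, hs, hl⟩ := exists_linearIndependent K {x | ∃ i, ∃ z ∈ CH X i, x = W.cl X z}
  have hf : Finite B := hl.finite_of_isNoetherian
  have hf' := Fintype.ofFinite B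
  let e := (Fintype.equivFin B).symm
  have h0 : ∀ r : Fin (Fintype.card B), ∃ i, ∃ y ∈ CR.gr X i, W.clR X y = (e r : W.H X) :=
    fun r => by
      obtain ⟨i, z, hz, e'⟩ := hB (e r).2
      obtain ⟨y, hy, rfl⟩ := exists_val hz
      exact ⟨i, y, hy, e'.symm⟩
  choose m a h1 h2 using h0
  have h3 : (fun r => W.clR X (a r)) = Subtype.val ∘ e := funext h2
  have h4 : LinearIndependent K (fun r => W.clR X (a r)) := h3 ▸ hl.comp e e.injective
  refine ⟨_, a, m, h1, fun r => ?_, h4, ?_⟩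
  · by_contra hc
    exact h4.ne_zero r (by rw [CR.gr_gt (not_le.1 hc) (h1 r), map_zero])
  · rw [h3, e.surjective.range_comp, Subtype.range_coe, hs, h]

variable (W) in
include W in
theorem K3_dgr {ι : Type} (t : Finset ι) (v : ι → ℚ) (a : ι → CR M.Z) (z : CR M.Z) :
    M.dgr ((∑ r ∈ t, v r • a r) * z) = ∑ r ∈ t, v r * M.dgr (a r * z) := by
  apply Rat.cast_injective (α := K)
  rw [W.cast_dgr, Finset.sum_mul, map_sum, map_sum, Rat.cast_sum]
  refine Finset.sum_congr rfl fun r _ => ?_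
  rw [smul_mul_assoc, W.clR_smul, map_smul, Rat.cast_mul, W.cast_dgr, smul_eq_mul]

variable (W) in
include W in
theorem K3_dgr0 {i : ℕ} {u : CR M.Z} (hu : u ∈ CR.gr M.Z i) (h : i ≠ M.Z.dim) : M.dgr u = 0 :=
  Rat.cast_eq_zero.1 ((W.cast_dgr M u).trans (Weil.tr_gr (W.clR_gr hu) (by omega)))

theorem exists_dual {N : ℕ} {a : Fin N → CR M.Z} {m : Fin N → ℕ}
    (h1 : ∀ r, a r ∈ CR.gr M.Z (m r)) (h2 : ∀ r, m r ≤ M.Z.dim)
    (h3 : LinearIndependent K fun r => W.clR M.Z (a r))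
    (h4 : Submodule.span K (Set.range fun r => W.clR M.Z (a r)) = ⊤) :
    ∃ b : Fin N → CR M.Z, (∀ r, b r ∈ CR.gr M.Z (M.Z.dim - m r)) ∧
      ∀ r s, M.dgr (b r * a s) = if r = s then 1 else 0 := by
  classical
  let G : Matrix (Fin N) (Fin N) ℚ := Matrix.of fun r s => M.dgr (a r * a s)
  have hG : G.det ≠ 0 := fun h0 => by
    obtain ⟨v, hv, e⟩ := Matrix.exists_vecMul_eq_zero_iff.2 h0
    have e1 : ∀ s, M.dgr ((∑ r, v r • a r) * a s) = 0 := fun s =>
      (K3_dgr W _ v a (a s)).trans (congrFun e s)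
    have e2 : W.trL M.Z ∘ₗ LinearMap.mulLeft K (W.clR M.Z (∑ r, v r • a r)) = 0 :=
      LinearMap.ext_on_range h4 fun s => by
        have := W.cast_dgr M ((∑ r, v r • a r) * a s)
        rw [e1, RingHom.map_mul, Rat.cast_zero] at this
        exact this.symm
    have e3 : W.clR M.Z (∑ r, v r • a r) = 0 :=
      Weil.pd_l fun _ y _ => LinearMap.congr_fun e2 y
    rw [map_sum] at e3
    simp only [W.clR_smul] at e3
    exact hv (funext fun r =>
      Rat.cast_eq_zero.1 (Fintype.linearIndependent_iff.1 h3 (fun r => (v r : K)) e3 r))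
  have hc : G⁻¹ * G = 1 := Matrix.nonsing_inv_mul G (Ne.isUnit hG)
  have hz : ∀ r s, m r + m s ≠ M.Z.dim → M.dgr (a r * a s) = 0 := fun r s h =>
    K3_dgr0 W (CR.mul_gr (h1 r) (h1 s)) h
  refine ⟨fun r => ∑ t with m t + m r = M.Z.dim, G⁻¹ r t • a t, fun r => ?_, fun r s => ?_⟩
  · refine Submodule.sum_mem _ fun t ht => Submodule.smul_mem _ _ ?_
    have := (Finset.mem_filter.1 ht).2
    rw [show M.Z.dim - m r = m t by omega]
    exact h1 t
  · rw [K3_dgr W]
    by_cases e : m r = m s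
    · rw [Finset.sum_filter_of_ne fun t _ ht => by
        by_contra h
        exact ht (by rw [hz t s (e ▸ h), mul_zero])]
      exact (congrFun (congrFun hc r) s).trans (Matrix.one_apply ..)
    · rw [if_neg fun h => e (by rw [h])]
      refine Finset.sum_eq_zero fun t ht => ?_
      have := (Finset.mem_filter.1 ht).2
      rw [hz t s (by omega), mul_zero]

theorem exists_fam
    (h : Submodule.span K {x | ∃ i, ∃ z ∈ CH M.Z i, x = W.cl M.Z z} = ⊤) :
    ∃ (N : ℕ) (q : Option (Fin N) → Cor M) (n : Option (Fin N) → ℕ), Fam W M q n ∧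
      W.rho M (q none) = 0 ∧ ∀ r z, W.clR M.Z z = 0 → Cor.tau M (q (some r)) z = 0 := by
  classical
  obtain ⟨N, a, m, h1, h2, h3, h4⟩ := exists_basis h
  obtain ⟨b, hb, hd⟩ := exists_dual h1 h2 h3 h4
  have he : OrthogonalIdempotents fun r => Cor.xx M (b r) (a r) :=
    OrthogonalIdempotents.iff_mul_eq.2 fun r s => by
      rw [Cor.mul_xx, Mod.tau_xx, Cor.xx_smul, hd]
      split_ifs with e
      · rw [one_smul, e]
      · rw [zero_smul]
  have hm : ∀ r, Cor.xx M (b r) (a r) ∈ Cor.R0 M := fun r =>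
    Cor.xx_mem M (hb r) (h1 r) (Nat.sub_add_cancel (h2 r))
  have h0 : W.rho M (1 - ∑ r, Cor.xx M (b r) (a r)) = 0 := by
    rw [map_sub, map_one, map_sum, sub_eq_zero]
    refine LinearMap.ext_on_range h4 fun s => ?_
    rw [LinearMap.sum_apply, Finset.sum_eq_single s, W.rho_xx, ← RingHom.map_mul, ← W.cast_dgr,
      hd, if_pos rfl, Rat.cast_one, one_smul, Module.End.one_apply]
    · intro r _ hr
      rw [W.rho_xx, ← RingHom.map_mul, ← W.cast_dgr, hd, if_neg hr, Rat.cast_zero, zero_smul]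
    · exact fun hs => (hs (Finset.mem_univ s)).elim
  refine ⟨N, fun c => c.elim (1 - ∑ r, Cor.xx M (b r) (a r)) fun r => Cor.xx M (b r) (a r),
    fun c => c.elim 0 fun r => 2 * m r,
    ⟨?_, CompleteOrthogonalIdempotents.option he, ?_, ?_⟩, h0, fun r z hz => ?_⟩
  · rintro (_ | r)
    · exact sub_mem (one_mem _) (sum_mem fun r _ => hm r)
    · exact hm r
  · rintro (_ | r)
    · exact Nat.zero_le _
    · exact Nat.mul_le_mul_left 2 (h2 r)
  · rintro (_ | r) x
    · rw [Option.elim_none, Option.elim_none, h0]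
      exact zero_mem _
    · rw [Option.elim_some, Option.elim_some, W.rho_xx]
      exact Submodule.smul_mem _ _ (W.clR_gr (h1 r))
  · have e : M.dgr (b r * z) = 0 := Rat.cast_eq_zero.1 <|
      (W.cast_dgr M _).trans (by rw [RingHom.map_mul, hz, mul_zero, map_zero])
    exact (Mod.tau_xx M (b r) (a r) z).trans (by rw [e, zero_smul])

theorem inj_of_IS (h : Submodule.span K {x | ∃ i, ∃ z ∈ CH M.Z i, x = W.cl M.Z z} = ⊤) {i : ℕ}
    {s : ℕ → Prop} (hs : IS W M i s) {a b : ℕ} (ha : a ≤ 2 * M.Z.dim) (hb : b ≤ 2 * M.Z.dim)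
    (sa : s a) (sb : ¬ s b) {z : CR M.Z} (hz : z ∈ CR.gr M.Z i) (h0 : W.clR M.Z z = 0) :
    z = 0 := by
  obtain ⟨N, q, n, hq, h1, h2⟩ := exists_fam h
  rw [← hq.sum_tau z]
  refine Finset.sum_eq_zero ?_
  rintro (_ | r) _
  · exact hs.phantom ha hb sa sb hq h1 hz
  · exact h2 r z h0

omit [CharZero K] in
theorem IS_of_inj {i : ℕ} (h : ∀ z ∈ CR.gr M.Z i, W.clR M.Z z = 0 → z = 0) (s : ℕ → Prop) :
    IS W M i s := by
  have key : ∀ {ι : Type} [Fintype ι] {q : ι → Cor M} {n : ι → ℕ}, Fam W M q n → ∀ c,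
      n c ≠ 2 * i → ∀ z ∈ CR.gr M.Z i, Cor.tau M (q c) z = 0 := fun hq c hc z hz =>
    h _ (Cor.tau_gr M (hq.mem c) hz) ((W.clR_tau M _ z).trans (hq.kill c (W.clR_gr hz) hc.symm))
  intro ι ι' _ _ q n q' n' hq hq' z hz
  refine ⟨hz.1, fun c sc => ?_⟩
  by_cases e : n' c = 2 * i
  · have e0 : z = 0 := by
      rw [← hq.sum_tau z]
      refine Finset.sum_eq_zero fun d _ => ?_
      by_cases e' : n d = 2 * i
      · exact hz.2 d (by rw [e', ← e]; exact sc)
      · exact key hq d e' z hz.1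
    rw [e0, map_zero]
  · exact key hq' c e z hz.1

omit [CharZero K] in
variable (W) in
theorem K3_inj (i : ℕ) :
    (∀ z ∈ CR.gr X i, W.clR X z = 0 → z = 0) ↔ Set.InjOn (W.cl X) (CH X i) := by
  refine ⟨fun H x hx y hy e => ?_, fun H z hz h0 => CR.ext (H hz (CR.gr X i).zero_mem ?_)⟩
  · obtain ⟨x', hx', rfl⟩ := exists_val hx
    obtain ⟨y', hy', rfl⟩ := exists_val hy
    rw [sub_eq_zero.1 (H (x' - y') (sub_mem hx' hy') (by
      rw [map_sub, W.clR_apply, W.clR_apply, e, sub_self]))]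
  · exact h0.trans (map_zero (W.clR X)).symm

variable (W) in
theorem K3_small {i : ℕ} (e : X.dim = 0 ∨ X.dim < i) {z : CR X} (hz : z ∈ CR.gr X i)
    (h0 : W.clR X z = 0) : z = 0 := by
  by_cases h : X.dim < i
  · exact CR.gr_gt h hz
  · obtain rfl : i = 0 := by omega
    obtain ⟨q, rfl⟩ := CR.gr_zero hz
    rw [W.clR_smul, map_one, smul_eq_zero, Rat.cast_eq_zero] at h0
    rw [h0.resolve_right Weil.one_ne, zero_smul]

theorem H3 (W : Weil.{u, v, w} k K) (X : SV k P)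
    (h : Submodule.span K {x | ∃ i, ∃ z ∈ CH X i, x = W.cl X z} = ⊤) :
    List.TFAE [∀ i m, Indep W X (Fil X i m), ∀ i m, Indep W X (Ker X i m),
      ∀ i, Set.InjOn (W.cl X) (CH X i)] := by
  have h3 : (∀ i, Set.InjOn (W.cl X) (CH X i)) →
      ∀ i s, IS W (Mod.one X) i s :=
    fun H i s => IS_of_inj (M := Mod.one X) ((K3_inj (X := X) W i).2 (H i)) s
  tfae_have 1 → 3 := fun H i => (K3_inj W i).1 fun z hz h0 => by
    by_cases e : X.dim = 0
    · exact K3_small W (Or.inl e) hz h0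
    · exact inj_of_IS (M := Mod.one X) h ((IS_fil (Mod.one X) i (2 * i)).1 (H i _)) (a := 1)
        (b := 0) (by change 1 ≤ 2 * X.dim; omega) (Nat.zero_le _) (by simp) (by simp) hz h0
  tfae_have 2 → 3 := fun H i => (K3_inj W i).1 fun z hz h0 => by
    by_cases e : X.dim = 0 ∨ X.dim < i
    · exact K3_small W e hz h0
    · exact inj_of_IS (M := Mod.one X) h ((IS_ker (Mod.one X) i 1).1 (H i _)) (a := 2 * i)
        (b := if i = 0 then 1 else 0) (by change 2 * i ≤ 2 * X.dim; omega)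
        (by change _ ≤ 2 * X.dim; split_ifs <;> omega) (by omega) (by split_ifs <;> omega) hz h0
  tfae_have 3 → 1 := fun H i m => (IS_fil (Mod.one X) i m).2 (h3 H i _)
  tfae_have 3 → 2 := fun H i m => (IS_ker (Mod.one X) i m).2 (h3 H i _)
  tfae_finish

end Pool.Agent.Work.MP_10f4af_ag
end

-- merged part: Pool.Agent.Work.MP_10f4af_ag.VG.G3
section
/-!
# The trace formula, and the cohomology of a complete intersection

Plan.  `exists_par`: with the grading `W.W0_ga X`, take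
`S = ∑ i ∈ Finset.range (2 * X.dim + 1), (-1) ^ i • GradedAlgebra.proj _ i` (`Weil.gr_gt`), or
`DirectSum.toModule`.
`trace_op`: both sides are linear in `u`; by `span_t2` and `Weil.ind` take `u = up x * up y` with
`y` of degree `j`.  For `z` of degree `i`, `up y * up z = (-1) ^ (j * i) • up z * up y`
(`gr_comm`, `upA_gr`), so the operator is `z ↦ (-1) ^ (j * i) * tr (x * z) • y` (test against `w`
with `W2_tr_dn`, `kun_tr`, `ext_l`); it is `φ.smulRight y` with `φ z = tr (x * (S ^ j) z)`, and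
`LinearMap.trace_smulRight` gives `φ (S y) = tr (x * y)`, which is the right side by
`W.cy.cl_dia`, `Mod.val_dl`, `W2_up_inl`, `W2_up_inr`.
`trace_zero`: `S ∘ rho α = (-1) ^ n • rho α`; the trace of an idempotent is the dimension of its
range (`LinearMap.IsProj.trace`, `LinearMap.IsIdempotentElem.isProj_range` or similar);
`cast_dgr`, `clR_comm`.
`res_linear`: `dn` is linear for a projection (`W.fn.adj`, `Weil.ext_r`, as in `dn_linear`;
`(pd_prod Y X).symm.isProd`), `W.fn.up_hom`.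
`res_alg`: the graph is the class of a subvariety of dimension `X.dim`
(`((Crd.refl k P).pair (Crd.refl k P)).img X.tp`, or `exists_dia` and `fst z = snd z`), so it lies
in `CH (Y.prod X) Y.dim` (`cyc_mem`, `prod_dim`); `W.cy.cl_pl`, `cl_mul`, `cl_ps`, `Pd.pl_CH`,
`mul_mem_CH`, `Pd.ps_CH`.
`alg_univ`: `one_mem_DD`, `rho_xx`, `clR_alg`.  `alg_low`: induction on `r` with `hW.weak`,
`res_linear`, `res_alg` (span induction); the dimension drops by one at each step.
`VG.alg`: for `i > dim` either `gr_gt`, or `i = i' + 2 * j` with `i' + j = dim`, `i' < dim`, and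
`hW.hard` for a form from `exists_form_deg` of degree `(1, ..., 1)`; the class `W.hyp` is the class
of an element of `CH X 1` (`gys_single`, `cut_mem`, `mem_CH`), `alg_mul`.
-/

open MvPolynomial Function Function.Embedding

namespace Pool.Agent.Work.MP_10f4af_ag

open MP_ffcd14_ag hiding len vl cyc pl Weil idl_hmg mem_idl idl_prime idl_le_iff lin

universe u v w

variable {k : Type u} [Field k] [IsAlgClosed k] {K : Type v} [Field K] {P : Amb}
  (W : Weil.{u, v, w} k K) {X Y : SV k P} {T : Type} (M : Mod X T)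

theorem exists_par (X : SV k P) :
    ∃ S : Module.End K (W.H X), ∀ i, ∀ x ∈ W.gr X i, S x = (-1 : K) ^ i • x := by
  let := W.W0_ga X
  refine ⟨DirectSum.toModule K ℕ _ (fun i => (-1 : K) ^ i • (W.gr X i).subtype) ∘ₗ
    (DirectSum.decomposeLinearEquiv (W.gr X)).toLinearMap, fun i x hx => ?_⟩
  rw [LinearMap.comp_apply, LinearEquiv.coe_coe, DirectSum.decomposeLinearEquiv_apply,
    DirectSum.decompose_of_mem (W.gr X) hx]
  exact DirectSum.toModule_lof K i _

theorem trace_op {S : Module.End K (W.H M.Z)} (hS : ∀ i, ∀ x ∈ W.gr M.Z i, S x = (-1 : K) ^ i • x)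
    (u : W.H (M.prod M).Z) :
    LinearMap.trace K _ (S ∘ₗ W.dnL M (M.prod M) inr ∘ₗ LinearMap.mulLeft K u ∘ₗ
      (W.upA M (M.prod M) inl).toLinearMap) = W.trL _ (W.clR _ M.dl * u) := by
  have hb : Bijective (Sum.elim (inl : T ↪ T ⊕ T) (inr : T ↪ T ⊕ T)) := by
    have : Sum.elim (inl : T ↪ T ⊕ T) (inr : T ↪ T ⊕ T) = id := Sum.elim_inl_inr
    rw [this]
    exact bijective_id
  let L : W.H (M.prod M).Z →ₗ[K] Module.End K (W.H M.Z) :=
    ((LinearMap.mul K _).compl₂ (W.upA M (M.prod M) inl).toLinearMap).compr₂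
      (S ∘ₗ W.dnL M (M.prod M) inr)
  have hp : ∀ (j i : ℕ), ∀ z ∈ W.gr M.Z i, (S ^ j) z = (-1 : K) ^ (j * i) • z := fun j i z hz => by
    induction j with
    | zero => simp
    | succ j ih =>
      rw [pow_succ', Module.End.mul_apply, ih, map_smul, hS i z hz, smul_smul, add_mul, one_mul,
        pow_add]
  have key : LinearMap.trace K _ ∘ₗ L = W.trL _ ∘ₗ LinearMap.mulLeft K (W.clR _ M.dl) := by
    refine LinearMap.ext_on (W.span_t2 M) ?_
    rintro _ ⟨x, y, rfl⟩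
    induction y using Weil.ind with
    | h2 y y' h h' => simp only [map_add, mul_add, h, h']
    | h1 j y hy =>
      have e : L (W.upA M (M.prod M) inl x * W.upA M (M.prod M) inr y) =
          (W.trL M.Z ∘ₗ LinearMap.mulLeft K x ∘ₗ (S ^ j)).smulRight (S y) := by
        refine LinearMap.ext fun z => ?_
        induction z using Weil.ind with
        | h2 z z' h h' => rw [map_add, map_add, h, h']
        | h1 i z hz =>
          refine Eq.trans (congrArg S (?_ : _ = W.trL M.Z (x * (S ^ j) z) • y)) (map_smul S _ _)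
          refine Weil.ext_l fun w => (W.W2_tr_dn M _ w).trans ?_
          rw [LinearMap.compl₂_apply, AlgHom.toLinearMap_apply, LinearMap.mul_apply', mul_assoc (W.upA _ _ _ x),
            Weil.gr_comm (W.upA_gr _ _ inr hy) (W.upA_gr _ _ inl hz), mul_smul_comm,
            smul_mul_assoc, ← mul_assoc, ← map_mul, mul_assoc, ← map_mul, map_smul,
            W.kun_tr M M (M.prod M) hb, hp j i z hz, mul_smul_comm, smul_mul_assoc, map_smul,
            map_smul, smul_eq_mul, smul_eq_mul, smul_eq_mul, mul_assoc]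
      rw [LinearMap.comp_apply, e, LinearMap.trace_smulRight, hS j y hy, map_smul,
        LinearMap.comp_apply, LinearMap.comp_apply, hp j j y hy, map_smul, map_smul, smul_smul,
        ← pow_add, (show Even (j + j * j) by
          rw [add_comm, ← Nat.mul_succ]; exact Nat.even_mul_succ_self j).neg_one_pow, one_smul,
        LinearMap.comp_apply, LinearMap.mulLeft_apply, LinearMap.mulLeft_apply, W.clR_apply,
        Mod.val_dl, W.W2_up_inl, W.W2_up_inr]
      exact (W.cy.cl_dia M.Z x y).symm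
  exact LinearMap.congr_fun key u

theorem trace_zero [CharZero K] {n : ℕ} {α : Cor M} (hα : α * α = α)
    (h : ∀ x, W.rho M α x ∈ W.gr M.Z n) (h0 : (M.prod M).dgr (Cor.un M α * M.dl) = 0) :
    W.rho M α = 0 := by
  obtain ⟨S, hS⟩ := exists_par W M.Z
  have h1 := trace_op W M hS (W.clR _ (Cor.un M α))
  have h2 : S ∘ₗ W.dnL M (M.prod M) inr ∘ₗ LinearMap.mulLeft K (W.clR _ (Cor.un M α)) ∘ₗ
      (W.upA M (M.prod M) inl).toLinearMap = (-1 : K) ^ n • W.rho M α :=
    LinearMap.ext fun x => hS n _ (h x)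
  have h3 : IsIdempotentElem (W.rho M α) := (map_mul (W.rho M) α α).symm.trans (congrArg _ hα)
  rw [h2, ← RingHom.map_mul, mul_comm M.dl, ← W.cast_dgr, h0, map_smul,
    (LinearMap.IsIdempotentElem.isProj_range _ h3).trace, Rat.cast_zero, smul_eq_zero,
    Nat.cast_eq_zero, Submodule.finrank_eq_zero, LinearMap.range_eq_bot] at h1
  exact h1.resolve_left (pow_ne_zero _ (neg_ne_zero.2 one_ne_zero))

theorem clR_alg (x : CR X) : W.clR X x ∈ W.Alg X := by
  induction x using CR.ind with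
  | h1 i x hx => exact Submodule.subset_span ⟨i, _, hx, rfl⟩
  | h2 x y h h' => exact map_add (W.clR X) x y ▸ add_mem h h'

theorem alg_mul {x y : W.H X} (hx : x ∈ W.Alg X) (hy : y ∈ W.Alg X) : x * y ∈ W.Alg X := by
  induction hx using Submodule.span_induction with
  | zero => exact (zero_mul y).symm ▸ zero_mem _
  | add x x' _ _ h h' => exact (add_mul x x' y).symm ▸ add_mem h h'
  | smul c x _ h => exact (smul_mul_assoc c x y).symm ▸ Submodule.smul_mem _ c h
  | mem x hx =>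
    induction hy using Submodule.span_induction with
    | zero => exact (mul_zero x).symm ▸ zero_mem _
    | add y y' _ _ h h' => exact (mul_add x y y').symm ▸ add_mem h h'
    | smul c y _ h => exact (mul_smul_comm c x y).symm ▸ Submodule.smul_mem _ c h
    | mem y hy =>
      obtain ⟨i, z, hz, rfl⟩ := hx
      obtain ⟨j, z', hz', rfl⟩ := hy
      exact Submodule.subset_span ⟨_, _, mul_mem_CH X hz hz', (W.cy.cl_mul X i j z hz z' hz').symm⟩

theorem res_linear (Y X : SV k P) : IsLinearMap K (W.res Y X) := by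
  obtain ⟨φ, hφ⟩ := W.fn.up_hom Y (Y.prod X) vl ⟨_, _, _, (pd_prod Y X).isProd⟩
  have h : ∀ x z, W.trL X (x * W.dn X (Y.prod X) vr z) =
      W.trL (Y.prod X) (W.up X (Y.prod X) vr x * z) :=
    W.fn.adj X (Y.prod X) vr ⟨_, _, _, (pd_prod Y X).symm.isProd⟩
  refine ⟨fun y y' => Weil.ext_r fun x => ?_, fun c y => Weil.ext_r fun x => ?_⟩
  · simp only [Weil.res, ← hφ, h, mul_add, map_add]
  · simp only [Weil.res, ← hφ, h, mul_smul_comm, map_smul]

theorem res_alg (h : X.pts ⊆ Y.pts) {y : W.H Y} (hy : y ∈ W.Alg Y) : W.res Y X y ∈ W.Alg X := by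
  have e : {z | snd z ∈ X.pts ∧ fst z = snd z} =
      ((Crd.diag k P).img X.tp : Set ((P.sum P).Pt k)) := by
    refine Set.ext fun z => ⟨fun hz => ?_, fun hz => ?_⟩
    · exact (Crd.mem_img_iff _).2 ⟨snd z, hz.1, bij_sum.ext hz.2.symm rfl⟩
    · obtain ⟨x, hx, rfl⟩ := (Crd.mem_img_iff _).1 hz
      exact ⟨hx, rfl⟩
  have hΓ : cyc (Y.prod X) {z | snd z ∈ X.pts ∧ fst z = snd z} ∈ CH (Y.prod X) Y.dim := by
    rw [e]
    refine cyc_mem _ (fun z hz => ?_) ?_
    · obtain ⟨x, hx, rfl⟩ := (Crd.mem_img_iff _).1 hz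
      exact mem_prod.2 ⟨h hx, hx⟩
    · rw [sdim_img_of_inj (Crd.diag k P) fun x _ y _ e => congrArg (Crd.inl k P P).pr e, X.sdim_tp,
        prod_dim, add_comm]
  refine Submodule.span_le (p := (W.Alg X).comap ((res_linear W Y X).mk' _)).2 ?_ hy
  rintro _ ⟨i, z, hz, rfl⟩
  have h1 : pl Y (Y.prod X) vl z ∈ CH (Y.prod X) i := (pd_prod Y X).pl_CH hz
  have h2 := mul_mem_CH _ hΓ h1
  refine Submodule.subset_span ⟨i, _, (pd_prod Y X).symm.ps_CH (add_comm Y.dim i ▸ h2), ?_⟩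
  refine Eq.trans ?_ (W.cy.cl_ps X (Y.prod X) vr ⟨_, _, _, (pd_prod Y X).symm.isProd⟩ _ _ h2).symm
  rw [W.cy.cl_mul _ _ _ _ hΓ _ h1,
    W.cy.cl_pl Y (Y.prod X) vl ⟨_, _, _, (pd_prod Y X).isProd⟩ i z hz]
  rfl

theorem alg_univ [CharZero K] (h : X.pts = Set.univ) : W.Alg X = ⊤ := by
  refine eq_top_iff.2 fun x _ => ?_
  have key : ∀ y ∈ Cor.DD (Mod.one X), W.rho (Mod.one X) y x ∈ W.Alg X := fun y hy => by
    induction hy using Submodule.span_induction with
    | zero => exact map_zero (W.rho (Mod.one X)) ▸ zero_mem _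
    | add y y' _ _ h h' => exact map_add (W.rho (Mod.one X)) y y' ▸ add_mem h h'
    | smul c y _ h => exact W.rho_smul (Mod.one X) c y ▸ Submodule.smul_mem _ _ h
    | mem y hy =>
      obtain ⟨b, a, rfl⟩ := hy
      exact W.rho_xx (Mod.one X) b a x ▸ Submodule.smul_mem _ _ (clR_alg W a)
  have := key 1 (one_mem_DD h)
  rwa [map_one] at this

variable {W}

theorem alg_low [CharZero K] (hW : W.Lef) {r : ℕ} {Y : ℕ → SV k P} {f : ℕ → MvPolynomial P.V k}
    {a : ℕ → P.ι →₀ ℕ} (h0 : (Y 0).pts = Set.univ)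
    (h : ∀ j < r, Sec (Y j) (Y (j + 1)) (f j) (a j)) {i : ℕ} (hi : i < (Y r).dim)
    {x : W.H (Y r)} (hx : x ∈ W.gr (Y r) i) : x ∈ W.Alg (Y r) := by
  induction r with
  | zero => exact alg_univ W h0 ▸ Submodule.mem_top
  | succ r ih =>
    have h1 := h r r.lt_succ_self
    obtain ⟨y, hy, rfl⟩ := hW.weak _ _ _ _ h1 i hi x (Weil.mem_gr.1 hx)
    have h2 := h1.dim
    exact res_alg W (h1.pts ▸ Set.sep_subset _ _)
      (ih (fun j hj => h j (hj.trans r.lt_succ_self)) (by omega) (Weil.mem_gr.2 hy))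

theorem VG.alg [CharZero K] (hW : W.Lef) (h : VG X) {i : ℕ} (hi : i ≠ X.dim) {x : W.H X}
    (hx : x ∈ W.gr X i) : x ∈ W.Alg X := by
  obtain ⟨r, Y, f, a, h0, rfl, h, -⟩ := h
  rcases hi.lt_or_gt with hi | hi
  · exact alg_low hW h0 h hi hx
  by_cases h1 : 2 * (Y r).dim < i
  · exact Weil.gr_gt h1 hx ▸ zero_mem _
  obtain ⟨g, hg, h2⟩ := exists_form_deg (Set.finite_singleton (Y r).tp)
    (Finsupp.equivFunOnFinite.symm fun _ => 1)
  obtain ⟨y, hy, rfl⟩ := hW.hard (Y r) g _ hg (fun _ => Nat.one_pos)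
    (fun e => h2 _ rfl ((mem_idl hg).1 e)) (2 * (Y r).dim - i) (i - (Y r).dim) (by omega) x
    (Weil.mem_gr.1 (by convert hx using 2; omega))
  have h3 : W.hyp (Y r) g ∈ W.Alg (Y r) := by
    refine Submodule.subset_span ⟨1, _, (mem_CH _).2 ⟨_, ?_, rfl⟩, rfl⟩
    refine (gys_single hg (Y r).tp).symm ▸ Sp_mono (fun T hT => ⟨hT.1, ?_⟩)
      (cut_mem (fs := [g]) (fun f hf => List.mem_singleton.1 hf ▸ ⟨_, hg⟩) (Y r).tp)
    exact hT.2.1.trans (Y r).sdim_tp
  refine alg_mul W ?_ (alg_low hW h0 h (by omega) (Weil.mem_gr.2 hy))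
  generalize i - (Y r).dim = j
  induction j with
  | zero => exact (pow_zero _).trans (map_one (W.clR (Y r))).symm ▸ clR_alg W 1
  | succ j ih => exact pow_succ (W.hyp (Y r) g) j ▸ alg_mul W ih h3

end Pool.Agent.Work.MP_10f4af_ag
end

-- merged part: Pool.Agent.Work.MP_10f4af_ag.VG.H1
section
/-!
# Varieties whose cohomology is algebraic outside the middle degree

Plan.  `alg_gr`: apply the projection `GradedAlgebra.proj` of `W.W0_ga X` to a combination of cycle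
classes (`W.cy.cl_dg`; span induction on the statement about the projection).
`hom_NJ`: `tr (clR (un γ) * (up x * up y)) = tr (rho γ x * y) = 0` (`rho_apply`, `W2_tr_dn`), so
`clR (un γ) = 0` by `span_t2` and `Weil.pd_l`; then `cast_dgr`.
`rho_NJ`: by `Weil.ind` take `x` of degree `i`; for `i = dim` use `rho_gr`.  For `i ≠ dim` the class
`y = rho γ x` has degree `i` and `tr (z * y) = 0` for all `z` of degree `j`: if `j + i ≠ 2 dim` by
`tr_gr`, otherwise `j ≠ dim`, both `x` and `z` are in `Alg`, and `clR_tau`, `cast_dgr`, `NJ_tau`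
apply (`Alg` is spanned by the `clR`, `exists_val`); so `y = 0` by `pd_r`.
`na_of`: let `j = 1 - δ ∈ NJ`.  Then `δ * j * δ = 0` (`DJD`), so `δ ^ 3 = δ ^ 2`, and
`ε = 1 - δ * δ = j + j - j * j` is an idempotent of `NJ` (`NJ_mul`).  `trace_zero` with `rho_NJ`
and `Mod.dl_gr` gives `rho ε = 0`, so `x = rho δ (rho δ x) ∈ Alg` for all `x` (`rho_DD`).
`exists_std`: as `exists_basis`, `exists_dual`, `exists_fam` in K3, for a basis `clR (a r)` of the
span `V` of the classes of codimension `m` with `2 * m ≠ dim`.  `V` contains `gr i` for `i ≠ dim`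
(`al`, `alg_gr`) and is orthogonal to `gr dim` (`tr_gr`), so the Gram matrix is invertible.
`rho (1 - ∑ e r)` kills `V` and preserves `gr dim`.
`std_tri`: three cases.  (i) `b = some r`: `Cor.mul_xx`, put `z = tau γ (a r)` of codimension `m r`;
if `a = some s` use `Mod.tau_xx` and `dgr_gr`; if `a = none`, `tau p z` has codimension `m r` with
`2 * m r < dim` and trivial class (`Fam.kill`), so it is zero.  (ii) `b = none`, `a = some s`:
`xx_mul`; the class `tau (rx sw (γ * p)) (b s) = tau (rx sw p) (tau (rx sw γ) (b s))`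
(`Cor.sw_mul`) has codimension `dim - m s` and trivial class by `Fam.dual` and `Fam.kill`.
(iii) `a = b = none` is excluded.
`main_iff`: from right to left `IS_fil`, `IS_of_tri`, `std_tri` (codimension `0`: `CR.gr_zero`,
`clR_smul`, `Weil.one_ne`; `K3_inj`).  From left to right `bplus`, `Fam.sum_tau`; the members
`some r` kill a class with trivial cohomology class (`Mod.tau_xx`, `cast_dgr`).
`ker_of_fil`: `IS_ker`; by `bplus` the conditions for `2 * i < j` are automatic, so the two sets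
`KS` agree.
-/

open Function Function.Embedding

namespace Pool.Agent.Work.MP_10f4af_ag

open MP_ffcd14_ag (Amb)

universe u v w

variable {k : Type u} [Field k] [IsAlgClosed k] {K : Type v} [Field K] [CharZero K] {P : Amb}
  {W : Weil.{u, v, w} k K} {X : SV k P} {T : Type} {M : Mod X T}

omit [CharZero K] in
theorem H1_le {p : Submodule K (W.H X)} (h : ∀ i, ∀ z ∈ CR.gr X i, W.clR X z ∈ p) :
    W.Alg X ≤ p := by
  refine Submodule.span_le.2 ?_
  rintro _ ⟨i, z, hz, rfl⟩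
  obtain ⟨y, hy, rfl⟩ := exists_val hz
  exact h i y hy

theorem H1_dgr {b z : CR M.Z} (h : W.clR M.Z z = 0) : M.dgr (b * z) = 0 :=
  Rat.cast_eq_zero.1 <| (W.cast_dgr M _).trans (by rw [RingHom.map_mul, h, mul_zero, map_zero])

theorem H1_dual {N : ℕ} {a : Fin N → CR M.Z} {m : Fin N → ℕ}
    (h1 : ∀ r, a r ∈ CR.gr M.Z (m r)) (h3 : LinearIndependent K fun r => W.clR M.Z (a r))
    (h4 : ∀ v ∈ Submodule.span K (Set.range fun r => W.clR M.Z (a r)),
      (∀ s, W.trL M.Z (v * W.clR M.Z (a s)) = 0) → v = 0) :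
    ∃ b : Fin N → CR M.Z, (∀ r, b r ∈ CR.gr M.Z (M.Z.dim - m r)) ∧
      ∀ r s, M.dgr (b r * a s) = if r = s then 1 else 0 := by
  classical
  let G : Matrix (Fin N) (Fin N) ℚ := Matrix.of fun r s => M.dgr (a r * a s)
  have hG : G.det ≠ 0 := fun h0 => by
    obtain ⟨v, hv, e⟩ := Matrix.exists_vecMul_eq_zero_iff.2 h0
    have e0 : W.clR M.Z (∑ r, v r • a r) = ∑ r, (v r : K) • W.clR M.Z (a r) := by
      simp only [map_sum, W.clR_smul]
    have e3 := h4 (∑ r, (v r : K) • W.clR M.Z (a r)) (Submodule.sum_mem _ fun r _ =>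
      Submodule.smul_mem _ _ (Submodule.subset_span ⟨r, rfl⟩)) fun s => by
        rw [← e0, ← RingHom.map_mul, ← W.cast_dgr, K3_dgr W, Rat.cast_eq_zero]
        exact congrFun e s
    exact hv (funext fun r =>
      Rat.cast_eq_zero.1 (Fintype.linearIndependent_iff.1 h3 (fun r => (v r : K)) e3 r))
  have hc : G⁻¹ * G = 1 := Matrix.nonsing_inv_mul G (Ne.isUnit hG)
  have hz : ∀ r s, m r + m s ≠ M.Z.dim → M.dgr (a r * a s) = 0 := fun r s h =>
    K3_dgr0 W (CR.mul_gr (h1 r) (h1 s)) h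
  refine ⟨fun r => ∑ t with m t + m r = M.Z.dim, G⁻¹ r t • a t, fun r => ?_, fun r s => ?_⟩
  · refine Submodule.sum_mem _ fun t ht => Submodule.smul_mem _ _ ?_
    have := (Finset.mem_filter.1 ht).2
    rw [show M.Z.dim - m r = m t by omega]
    exact h1 t
  · rw [K3_dgr W]
    by_cases e : m r = m s
    · rw [Finset.sum_filter_of_ne fun t _ ht => by
        by_contra h
        exact ht (by rw [hz t s (e ▸ h), mul_zero])]
      exact (congrFun (congrFun hc r) s).trans (Matrix.one_apply ..)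
    · rw [if_neg fun h => e (by rw [h])]
      refine Finset.sum_eq_zero fun t ht => ?_
      have := (Finset.mem_filter.1 ht).2
      rw [hz t s (by omega), mul_zero]

omit [CharZero K] in
theorem alg_gr {i : ℕ} {x : W.H X} (hx : x ∈ W.Alg X) (hi : x ∈ W.gr X i) :
    x ∈ Submodule.span K {y | ∃ m, 2 * m = i ∧ ∃ z ∈ CR.gr X m, y = W.clR X z} := by
  let := W.W0_ga X
  have key : W.Alg X ≤ (Submodule.span K
      {y | ∃ m, 2 * m = i ∧ ∃ z ∈ CR.gr X m, y = W.clR X z}).comap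
      (GradedAlgebra.proj (W.gr X) i) := H1_le fun j z hz => by
    rw [Submodule.mem_comap, GradedAlgebra.proj_apply]
    by_cases e : 2 * j = i
    · rw [DirectSum.decompose_of_mem_same (W.gr X) (e ▸ W.clR_gr hz)]
      exact Submodule.subset_span ⟨j, e, z, hz, rfl⟩
    · rw [DirectSum.decompose_of_mem_ne (W.gr X) (W.clR_gr hz) e]
      exact zero_mem _
  have := key hx
  rwa [Submodule.mem_comap, GradedAlgebra.proj_apply,
    DirectSum.decompose_of_mem_same (W.gr X) hi] at this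

theorem hom_NJ {γ : Cor M} (hγ : γ ∈ Cor.R0 M) (h : W.rho M γ = 0) : γ ∈ Cor.NJ M := by
  have e2 : W.trL (M.prod M).Z ∘ₗ LinearMap.mulLeft K (W.clR _ (Cor.un M γ)) = 0 := by
    refine LinearMap.ext_on (W.span_t2 M) ?_
    rintro _ ⟨x, y, rfl⟩
    rw [LinearMap.comp_apply, LinearMap.mulLeft_apply, ← mul_assoc, ← W.W2_tr_dn, ← W.rho_apply, h,
      LinearMap.zero_apply, zero_mul, map_zero, LinearMap.zero_apply]
  have e3 : W.clR _ (Cor.un M γ) = 0 := Weil.pd_l fun _ y _ => LinearMap.congr_fun e2 y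
  refine ⟨hγ, fun β _ => ?_⟩
  rw [mul_comm]
  exact H1_dgr e3

theorem rho_DD {δ : Cor M} (hδ : δ ∈ Cor.DD M) (x : W.H M.Z) : W.rho M δ x ∈ W.Alg M.Z := by
  induction hδ using Submodule.span_induction with
  | mem y hy =>
    obtain ⟨b, a, rfl⟩ := hy
    rw [W.rho_xx]
    exact Submodule.smul_mem _ _ (clR_alg W a)
  | zero =>
    rw [map_zero]
    exact zero_mem _
  | add y z _ _ hy hz =>
    rw [map_add]
    exact add_mem hy hz
  | smul q y _ hy =>
    rw [W.rho_smul]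
    exact Submodule.smul_mem _ _ hy

variable (al : ∀ i ≠ M.Z.dim, ∀ x ∈ W.gr M.Z i, x ∈ W.Alg M.Z)
include al

theorem rho_NJ {γ : Cor M} (hγ : γ ∈ Cor.NJ M) (x : W.H M.Z) :
    W.rho M γ x ∈ W.gr M.Z M.Z.dim := by
  induction x using Weil.ind with
  | h1 i x hx =>
    by_cases e : i = M.Z.dim
    · exact W.rho_gr M hγ.1 (e ▸ hx)
    have k : W.rho M γ x = 0 := Weil.pd_r fun j z hz => by
      by_cases e' : j + i = 2 * M.Z.dim
      · refine H1_le (p := LinearMap.ker (W.trL M.Z ∘ₗ LinearMap.mulRight K (W.rho M γ x)))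
          (fun _ b _ => ?_) (al j (by omega) z hz)
        refine H1_le (p := LinearMap.ker (W.trL M.Z ∘ₗ LinearMap.mulLeft K (W.clR M.Z b) ∘ₗ
          W.rho M γ)) (fun _ a _ => ?_) (al i e x hx)
        change W.trL M.Z (W.clR M.Z b * W.rho M γ (W.clR M.Z a)) = 0
        rw [← W.clR_tau, ← RingHom.map_mul, ← W.cast_dgr, NJ_tau hγ, Rat.cast_zero]
      · exact Weil.tr_gr (Weil.mul_gr hz (W.rho_gr M hγ.1 hx)) e'
    rw [k]
    exact zero_mem _
  | h2 x y hx hy =>
    rw [map_add]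
    exact add_mem hx hy

theorem na_of (hA : W.Alg M.Z ≠ ⊤) : ∀ δ ∈ Cor.DD M, 1 - δ ∉ Cor.NJ M := by
  intro δ hδ hj
  have e3 : δ * δ * δ = δ * δ := by
    have := DJD hδ hj hδ
    rw [mul_sub, mul_one, sub_mul, sub_eq_zero] at this
    exact this.symm
  have h1 : 1 - δ * δ ∈ Cor.NJ M := by
    rw [show 1 - δ * δ = (1 - δ) + (1 - δ) - (1 - δ) * (1 - δ) by noncomm_ring]
    exact sub_mem (add_mem hj hj) (NJ_mul hj hj.1)
  have h2 : (1 - δ * δ) * (1 - δ * δ) = 1 - δ * δ := by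
    rw [mul_sub, mul_one, sub_mul, one_mul, ← mul_assoc, e3, e3, sub_self, sub_zero]
  have h3 := trace_zero W M h2 (rho_NJ al h1) (h1.2 _ M.dl_gr)
  rw [map_sub, map_one, sub_eq_zero, map_mul] at h3
  refine hA (eq_top_iff.2 fun x _ => ?_)
  rw [show x = W.rho M δ (W.rho M δ x) from LinearMap.congr_fun h3 x]
  exact rho_DD hδ _

theorem H1_basis : ∃ (N : ℕ) (a : Fin N → CR M.Z) (m : Fin N → ℕ),
    (∀ r, a r ∈ CR.gr M.Z (m r)) ∧ (∀ r, m r ≤ M.Z.dim) ∧ (∀ r, 2 * m r ≠ M.Z.dim) ∧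
    LinearIndependent K (fun r => W.clR M.Z (a r)) ∧ ∀ i ≠ M.Z.dim,
      W.gr M.Z i ≤ Submodule.span K (Set.range fun r => W.clR M.Z (a r)) := by
  obtain ⟨B, hB, hs, hl⟩ := exists_linearIndependent K
    {x | ∃ i, 2 * i ≠ M.Z.dim ∧ ∃ z ∈ CR.gr M.Z i, x = W.clR M.Z z}
  have hf : Finite B := hl.finite_of_isNoetherian
  have hf' := Fintype.ofFinite B
  let e := (Fintype.equivFin B).symm
  choose m h0 a h1 h2 using fun r : Fin (Fintype.card B) => hB (e r).2
  have h3 : (fun r => W.clR M.Z (a r)) = Subtype.val ∘ e := (funext h2).symm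
  have h4 : LinearIndependent K (fun r => W.clR M.Z (a r)) := h3 ▸ hl.comp e e.injective
  refine ⟨_, a, m, h1, fun r => ?_, h0, h4, fun i hi x hx => ?_⟩
  · by_contra hc
    exact h4.ne_zero r (by rw [CR.gr_gt (not_le.1 hc) (h1 r), map_zero])
  · rw [h3, e.surjective.range_comp, Subtype.range_coe, hs]
    refine Submodule.span_mono ?_ (alg_gr (al i hi x hx) hx)
    rintro y ⟨j, hj, hy⟩
    exact ⟨j, hj ▸ hi, hy⟩

theorem exists_std : ∃ (N : ℕ) (a b : Fin N → CR M.Z) (m : Fin N → ℕ),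
    (∀ r, a r ∈ CR.gr M.Z (m r)) ∧ (∀ r, b r ∈ CR.gr M.Z (M.Z.dim - m r)) ∧
    (∀ r, m r ≤ M.Z.dim) ∧ (∀ r, 2 * m r ≠ M.Z.dim) ∧
    Fam W M (fun c : Option (Fin N) => c.elim (1 - ∑ r, Cor.xx M (b r) (a r))
      fun r => Cor.xx M (b r) (a r)) fun c => c.elim M.Z.dim fun r => 2 * m r := by
  classical
  obtain ⟨N, a, m, h1, h2, h3, h4, h5⟩ := H1_basis al
  obtain ⟨b, hb, hd⟩ := H1_dual h1 h4 fun v hv h => Weil.pd_l fun j y hy => by
    by_cases e : j = M.Z.dim
    · refine (Submodule.span_le (p := LinearMap.ker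
        (W.trL M.Z ∘ₗ LinearMap.mulRight K y))).2 ?_ hv
      rintro _ ⟨r, rfl⟩
      exact Weil.tr_gr (Weil.mul_gr (W.clR_gr (h1 r)) hy) (by have := h3 r; omega)
    · refine (Submodule.span_le (p := LinearMap.ker
        (W.trL M.Z ∘ₗ LinearMap.mulLeft K v))).2 ?_ (h5 j e hy)
      rintro _ ⟨r, rfl⟩
      exact h r
  have he : OrthogonalIdempotents fun r => Cor.xx M (b r) (a r) :=
    OrthogonalIdempotents.iff_mul_eq.2 fun r s => by
      rw [Cor.mul_xx, Mod.tau_xx, Cor.xx_smul, hd]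
      split_ifs with e
      · rw [one_smul, e]
      · rw [zero_smul]
  have hm : ∀ r, Cor.xx M (b r) (a r) ∈ Cor.R0 M := fun r =>
    Cor.xx_mem M (hb r) (h1 r) (Nat.sub_add_cancel (h2 r))
  have hp : 1 - ∑ r, Cor.xx M (b r) (a r) ∈ Cor.R0 M :=
    sub_mem (one_mem _) (sum_mem fun r _ => hm r)
  have h0 : Submodule.span K (Set.range fun r => W.clR M.Z (a r)) ≤
      LinearMap.ker (W.rho M (1 - ∑ r, Cor.xx M (b r) (a r))) := by
    refine Submodule.span_le.2 ?_
    rintro _ ⟨s, rfl⟩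
    rw [SetLike.mem_coe, LinearMap.mem_ker, map_sub, map_one, map_sum, LinearMap.sub_apply,
      LinearMap.sum_apply, Finset.sum_eq_single_of_mem s (Finset.mem_univ s), W.rho_xx,
      ← RingHom.map_mul, ← W.cast_dgr, hd, if_pos rfl, Rat.cast_one, one_smul,
      Module.End.one_apply, sub_self]
    intro r _ hr
    rw [W.rho_xx, ← RingHom.map_mul, ← W.cast_dgr, hd, if_neg hr, Rat.cast_zero, zero_smul]
  refine ⟨N, a, b, m, h1, hb, h2, h3, ?_, CompleteOrthogonalIdempotents.option he, ?_, ?_⟩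
  · rintro (_ | r)
    exacts [hp, hm r]
  · rintro (_ | r)
    exacts [Nat.le_mul_of_pos_left _ two_pos, Nat.mul_le_mul_left 2 (h2 r)]
  · rintro (_ | r) x
    · rw [Option.elim_none, Option.elim_none]
      induction x using Weil.ind with
      | h1 i x hx =>
        by_cases e : i = M.Z.dim
        · exact W.rho_gr M hp (e ▸ hx)
        · rw [LinearMap.mem_ker.1 (h0 (h5 i e hx))]
          exact zero_mem _
      | h2 x y hx hy =>
        rw [map_add]
        exact add_mem hx hy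
    · rw [Option.elim_some, Option.elim_some, W.rho_xx]
      exact Submodule.smul_mem _ _ (W.clR_gr (h1 r))

omit al in
theorem std_tri {N : ℕ} {a b : Fin N → CR M.Z} {m : Fin N → ℕ} {p : Cor M}
    (h1 : ∀ r, a r ∈ CR.gr M.Z (m r)) (h2 : ∀ r, b r ∈ CR.gr M.Z (M.Z.dim - m r))
    (h3 : ∀ r, m r ≤ M.Z.dim)
    (hq : Fam W M (fun c : Option (Fin N) => c.elim p fun r => Cor.xx M (b r) (a r))
      fun c => c.elim M.Z.dim fun r => 2 * m r)
    (inj : ∀ i, 2 * i < M.Z.dim → ∀ z ∈ CR.gr M.Z i, W.clR M.Z z = 0 → z = 0)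
    (c c' : Option (Fin N))
    (h : (c'.elim M.Z.dim fun r => 2 * m r) < c.elim M.Z.dim fun r => 2 * m r) {γ : Cor M}
    (hγ : γ ∈ Cor.R0 M) : (c.elim p fun r => Cor.xx M (b r) (a r)) * γ *
      (c'.elim p fun r => Cor.xx M (b r) (a r)) = 0 := by
  rcases c' with _ | r
  · rcases c with _ | s
    · exact absurd h (lt_irrefl _)
    simp only [Option.elim_none, Option.elim_some] at h ⊢
    have hz := Cor.tau_gr M (Cor.rx_mem M (Cor.sw T) hγ) (h2 s)
    have k := inj _ (by have := h3 s; omega) _ (Cor.tau_gr M (hq.dual.mem none) hz)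
      ((W.clR_tau M _ _).trans (hq.dual.kill none (W.clR_gr hz) (by
        have := h3 s
        simp only [Option.elim_none]
        omega)))
    rw [Option.elim_none] at k
    rw [mul_assoc, xx_mul, Cor.sw_mul, K2_tau_mul, k, Cor.xx, map_zero, zero_mul, map_zero]
  · have hz := Cor.tau_gr M hγ (h1 r)
    have k : Cor.tau M (c.elim p fun r => Cor.xx M (b r) (a r)) (Cor.tau M γ (a r)) = 0 := by
      rcases c with _ | s
      · exact inj _ h _ (Cor.tau_gr M (hq.mem none) hz)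
          ((W.clR_tau M _ _).trans (hq.kill none (W.clR_gr hz) h.ne))
      · simp only [Option.elim_some] at h ⊢
        rw [Mod.tau_xx, dgr_gr M (CR.mul_gr (h2 s) hz) (by have := h3 s; omega), zero_smul]
    rw [Option.elim_some, Cor.mul_xx, K2_tau_mul, k, Cor.xx, map_zero, mul_zero, map_zero]

theorem main_iff (hp : ∀ p ∈ Cor.R0 M, p * p = p → W.rho M p = 0 → p = 0) :
    (∀ i m, Indep W M.Z (Fil M.Z i m)) ↔
      ∀ i, 0 < i → 2 * i < M.Z.dim → Set.InjOn (W.cl M.Z) (CH M.Z i) := by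
  obtain ⟨N, a, b, m, h1, h2, h3, -, hq⟩ := exists_std al
  refine ⟨fun H i _ hi => (K3_inj W i).1 fun z hz h0 => ?_, fun H i r => (IS_fil M i r).2
    (IS_of_tri hq (fun c c' h γ hγ => std_tri h1 h2 h3 hq (fun i hi z hz h0 => ?_) c c' h hγ)
      hp i _)⟩
  · rw [← hq.sum_tau z]
    refine Finset.sum_eq_zero ?_
    rintro (_ | r) _
    · exact bplus ((IS_fil M i 0).1 (H i 0)) _ _ _ hq none hi z hz
    · rw [Option.elim_some, Mod.tau_xx, H1_dgr h0, zero_smul]
  · rcases i.eq_zero_or_pos with rfl | e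
    · obtain ⟨q, rfl⟩ := CR.gr_zero hz
      rw [W.clR_smul, map_one, smul_eq_zero, Rat.cast_eq_zero] at h0
      rw [h0.resolve_right Weil.one_ne, zero_smul]
    · exact (K3_inj W i).2 (H i e hi) z hz h0

omit al in
theorem ker_of_fil (h : ∀ i m, Indep W M.Z (Fil M.Z i m)) (i m : ℕ) :
    Indep W M.Z (Ker M.Z i m) := by
  refine (IS_ker M i m).2 fun ι ι' _ _ q n q' n' hq hq' z hz => ⟨hz.1, fun c hc => ?_⟩
  refine ((IS_fil M i m).1 (h i m) ι ι' q n q' n' hq hq' ⟨hz.1, fun d hd => ?_⟩).2 c (by omega)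
  by_cases e : n d ≤ 2 * i
  · exact hz.2 d ⟨by omega, e⟩
  · exact bplus ((IS_fil M i 0).1 (h i 0)) _ _ _ hq d (not_le.1 e) z hz.1

end Pool.Agent.Work.MP_10f4af_ag
end

-- merged part: Pool.Agent.Work.MP_10f4af_ag.VG.H2
section
/-!
# The main theorems for very general complete intersections
-/

open Function

namespace Pool.Agent.Work.MP_10f4af_ag

open MP_ffcd14_ag (Amb)

universe u v w

variable {k : Type u} [Field k] [IsAlgClosed k] {P : Amb} {X : SV k P}

theorem H2_iter {T : Type} (M : Mod X T) (α : Cor M) (n : ℕ) :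
    (comp M.Z (Cor.vv M α))^[n] (Cor.vv M α) = Cor.vv M (α ^ (n + 1)) := by
  induction n with
  | zero => simp
  | succ n ih => rw [Function.iterate_succ_apply', ih, pow_succ' α (n + 1), Cor.vv_mul]

theorem HN (h : VG X) (hn : ∀ δ ∈ Dec X, ¬ Num X (dia X - δ)) {γ : Cl (X.prod X)}
    (hγ : Num X γ) : ∃ n, (comp X γ)^[n] γ = 0 := by
  obtain ⟨α, -, rfl⟩ := exists_vv (Mod.one X) hγ.1
  have hα : α ∈ Cor.NJ (Mod.one X) := (num_iff (M := Mod.one X)).1 hγ
  have hn' : ∀ δ ∈ Cor.DD (Mod.one X), 1 - δ ∉ Cor.NJ (Mod.one X) := by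
    intro δ hδ h1
    have h0 : Cor.vv (Mod.one X) δ ∈ Dec X := (dec_iff (M := Mod.one X)).2 hδ
    have h2 := (num_iff (M := Mod.one X)).2 h1
    rw [map_sub, Cor.vv_one] at h2
    exact hn _ h0 h2
  obtain ⟨n, hn⟩ := VG.nil h hn' hα
  refine ⟨n, ?_⟩
  have h3 := H2_iter (Mod.one X) α n
  rw [pow_succ, hn, zero_mul, map_zero] at h3
  exact h3

variable {K : Type v} [Field K] [CharZero K] {W : Weil.{u, v, w} k K}

theorem H2_al (hW : W.Lef) (h : VG X) :
    ∀ i ≠ (Mod.one X).Z.dim, ∀ x ∈ W.gr (Mod.one X).Z i, x ∈ W.Alg (Mod.one X).Z :=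
  fun _ hi _ hx => VG.alg hW h hi hx

theorem H2_hp (hW : W.Lef) (h : VG X) (hA : W.Alg X ≠ ⊤) :
    ∀ p ∈ Cor.R0 (Mod.one X), p * p = p → W.rho (Mod.one X) p = 0 → p = 0 := by
  intro p hp hpp h0
  have h1 : IsNilpotent p := VG.nil h (na_of (H2_al hW h) hA) (hom_NJ hp h0)
  exact IsIdempotentElem.eq_zero_of_isNilpotent hpp h1

theorem HE (hW : W.Lef) (h : VG X) (hA : W.Alg X ≠ ⊤) :
    (∀ i m, Indep W X (Fil X i m)) ↔
      ∀ i, 0 < i → 2 * i < X.dim → Set.InjOn (W.cl X) (CH X i) :=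
  main_iff (M := Mod.one X) (H2_al hW h) (H2_hp hW h hA)

end Pool.Agent.Work.MP_10f4af_ag
end
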