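import Pool.Agent.Work.MP_10f4af_ag.T0
import Pool.Agent.Work.MP_10f4af_ag.CA1
import Mathlib
import Pool.Agent.Work.MP_10f4af_ag.VG.Defs
import Pool.Agent.Work.MP_10f4af_ag.G2
import Pool.Agent.Work.MP_10f4af_ag.CA5

-- merged part: Pool.Agent.Work.MP_10f4af_ag.VG.D0
section
/-!
# Automorphisms of the base field act on points and on subvarieties

Plan.  `rp_pt`: `Projectivization.exists_smul_eq_mk_rep`.  `ev_pt`: `ev_eq`, `IsForm.eval_scale`,
`chi_ne_zero`, and `eval (σ ∘ v) (map σ f) = σ (eval v f)` (`eval_map`, `eval₂_comp`,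
`MvPolynomial.map_eval`...).  `pt_pt`, `pt_refl`, `pt_pr`: `pt_eq`, `Crd.rp_pr`.
`pt_cont`: `continuous_of_form`, `eventually_ne` for the form `map σ.symm g`.
`exists_sg`: the image under the homeomorphism `pt σ` with inverse `pt σ.symm`.
`idl_pt`: `Ideal.map_span`; both generating sets correspond.  `sdim_sg`: `Order.height_orderIso`.
-/

open MvPolynomial Topology TopologicalSpace Finsupp

namespace Pool.Agent.Work.MP_10f4af_ag

open MP_ffcd14_ag hiding len vl cyc pl Weil idl_hmg mem_idl idl_prime idl_le_iff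

universe u

variable {k : Type u} [Field k] {P S : Amb} (σ τ : k ≃+* k)

/-- The action on polynomials. -/
noncomputable def mp (σ : k ≃+* k) (P : Amb) : MvPolynomial P.V k →+* MvPolynomial P.V k :=
  MvPolynomial.map (σ : k →+* k)

/-- The action on points. -/
noncomputable def pt (x : P.Pt k) : P.Pt k := fun i =>
  Projectivization.mk k (fun s => σ ((x i).rep s)) fun h =>
    (x i).rep_nonzero (funext fun s => σ.map_eq_zero_iff.1 (congrFun h s))

/-- The set `A` is stable. -/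
def Stab (A : Set (P.Pt k)) : Prop := ∀ x, pt σ x ∈ A ↔ x ∈ A

theorem mp_X (s : P.V) : mp σ P (X s) = X s := map_X _ _

theorem mp_C (c : k) : mp σ P (C c) = C (σ c) := map_C _ _

theorem mp_mp (f : MvPolynomial P.V k) : mp σ P (mp τ P f) = mp (τ.trans σ) P f := by
  unfold mp
  rw [map_map]
  rfl

theorem mp_refl (f : MvPolynomial P.V k) : mp (RingEquiv.refl k) P f = f := map_id f

theorem mp_bij : Function.Bijective (mp σ P) :=   ⟨map_injective _ σ.injective, map_surjective _ σ.surjective⟩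

theorem mp_rename (ε : P.V → S.V) (f : MvPolynomial P.V k) :
    mp σ S (rename ε f) = rename ε (mp σ P f) := map_rename _ _ _

theorem mp_form {f : MvPolynomial P.V k} {a : P.ι →₀ ℕ} (hf : IsForm f a) :
    IsForm (mp σ P f) a := by
  intro d hd
  apply hf
  intro h
  apply hd
  unfold mp
  rw [coeff_map, h, map_zero]

theorem rp_pt (x : P.Pt k) :
    ∃ μ : P.ι → k, (∀ i, μ i ≠ 0) ∧ ∀ s, rp (pt σ x) s = μ s.1 * σ (rp x s) := by
  choose a ha using fun i => Projectivization.exists_smul_eq_mk_rep k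
    (fun s => σ ((x i).rep s)) fun h =>
      (x i).rep_nonzero (funext fun s => σ.map_eq_zero_iff.1 (congrFun h s))
  exact ⟨fun i => (a i : k), fun i => (a i).ne_zero, fun s => (congrFun (ha s.1) s.2).symm⟩

theorem D0_eval (v : P.V → k) (f : MvPolynomial P.V k) :
    eval (fun s => σ (v s)) (mp σ P f) = σ (eval v f) :=
  (map_eval (σ : k →+* k) v f).symm

theorem ev_pt (x : P.Pt k) {f : MvPolynomial P.V k} {a : P.ι →₀ ℕ} (hf : IsForm f a) :
    ev (pt σ x) (mp σ P f) = 0 ↔ ev x f = 0 := by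
  obtain ⟨μ, hμ, e⟩ := rp_pt σ x
  rw [ev_eq, ev_eq, funext e, (mp_form σ hf).eval_scale, D0_eval, mul_eq_zero,
    σ.map_eq_zero_iff, or_iff_right (chi_ne_zero hμ a)]

theorem pt_pt (x : P.Pt k) : pt σ (pt τ x) = pt (τ.trans σ) x := by
  obtain ⟨μ, -, e⟩ := rp_pt σ (pt τ x)
  obtain ⟨μ', -, e'⟩ := rp_pt τ x
  obtain ⟨ν, hν, e''⟩ := rp_pt (τ.trans σ) x
  refine pt_eq (μ := fun i => μ i * σ (μ' i) / ν i) fun s => ?_
  rw [e, e', e'', map_mul, RingEquiv.trans_apply]
  field_simp [hν s.1]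

theorem pt_refl (x : P.Pt k) : pt (RingEquiv.refl k) x = x := by
  obtain ⟨μ, -, e⟩ := rp_pt (RingEquiv.refl k) x
  exact pt_eq e

theorem pt_pr (β : Crd k P S) (z : S.Pt k) : β.pr (pt σ z) = pt σ (β.pr z) := by
  obtain ⟨μ, -, e⟩ := rp_pt σ z
  obtain ⟨ν, hν, e'⟩ := rp_pt σ (β.pr z)
  refine pt_eq (μ := fun i => μ (β.ψ i) / ν i) fun s => ?_
  rw [β.rp_pr, e, e', β.rp_pr, β.fst]
  field_simp [hν s.1]

theorem D0_mp (f : MvPolynomial P.V k) : mp σ P (mp σ.symm P f) = f := by
  rw [mp_mp, RingEquiv.symm_trans_self, mp_refl]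

theorem D0_mp' (f : MvPolynomial P.V k) : mp σ.symm P (mp σ P f) = f :=
  D0_mp σ.symm f

theorem D0_pt (x : P.Pt k) : pt σ (pt σ.symm x) = x := by
  rw [pt_pt, RingEquiv.symm_trans_self, pt_refl]

theorem D0_pt' (x : P.Pt k) : pt σ.symm (pt σ x) = x :=
  D0_pt σ.symm x

theorem D0_inj : Function.Injective (pt σ : P.Pt k → P.Pt k) :=
  Function.LeftInverse.injective (D0_pt' σ)

theorem pt_cont : Continuous (pt σ : P.Pt k → P.Pt k) := by
  refine continuous_of_form fun x g a hg hx => ?_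
  have h : ∀ y : P.Pt k, ev (pt σ y) g = 0 ↔ ev y (mp σ.symm P g) = 0 := fun y => by
    rw [← ev_pt σ y (mp_form σ.symm hg), D0_mp]
  filter_upwards [eventually_ne (mp_form σ.symm hg) (mt (h x).2 hx)] with y hy using mt (h y).1 hy

/-- The image of a subvariety. -/
noncomputable def D0_sg (Z : Sub k P) : Sub k P :=
  ⟨pt σ '' (Z : Set (P.Pt k)), Z.isIrreducible.image _ (pt_cont σ).continuousOn, by
    rw [Set.image_eq_preimage_of_inverse (D0_pt' σ) (D0_pt σ)]
    exact Z.isClosed.preimage (pt_cont σ.symm)⟩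

theorem D0_sg_sg (Z : Sub k P) : D0_sg σ (D0_sg σ.symm Z) = Z := by
  apply SetLike.coe_injective
  change pt σ '' (pt σ.symm '' (Z : Set (P.Pt k))) = Z
  rw [Set.image_image]
  simp only [D0_pt, Set.image_id']

theorem exists_sg : ∃ e : Sub k P ≃o Sub k P, ∀ Z : Sub k P,
    (e Z : Set (P.Pt k)) = pt σ '' (Z : Set (P.Pt k)) := by
  refine ⟨⟨⟨D0_sg σ, D0_sg σ.symm, D0_sg_sg σ.symm, D0_sg_sg σ⟩, ?_⟩, fun _ => rfl⟩
  intro A B
  exact Set.image_subset_image_iff (D0_inj σ)

/-- The action on subvarieties. -/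
noncomputable def sg : Sub k P ≃o Sub k P := (exists_sg σ).choose

theorem coe_sg (Z : Sub k P) : (sg σ Z : Set (P.Pt k)) = pt σ '' (Z : Set (P.Pt k)) :=
  (exists_sg σ).choose_spec Z

theorem mem_sg {Z : Sub k P} {x : P.Pt k} : pt σ x ∈ sg σ Z ↔ x ∈ Z := by
  rw [← SetLike.mem_coe, coe_sg, (D0_inj σ).mem_set_image, SetLike.mem_coe]

theorem idl_pt (A : Set (P.Pt k)) : idl (pt σ '' A) = (idl A).map (mp σ P) := by
  unfold idl
  rw [Ideal.map_span]
  congr 1
  ext f
  constructor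
  · rintro ⟨⟨a, ha⟩, h⟩
    refine ⟨mp σ.symm P f, ⟨⟨a, mp_form _ ha⟩, fun x hx => ?_⟩, D0_mp σ f⟩
    rw [← ev_pt σ x (mp_form _ ha), D0_mp]
    exact h _ ⟨x, hx, rfl⟩
  · rintro ⟨g, ⟨⟨a, ha⟩, h⟩, rfl⟩
    refine ⟨⟨a, mp_form _ ha⟩, ?_⟩
    rintro _ ⟨x, hx, rfl⟩
    exact (ev_pt σ x ha).2 (h x hx)

theorem idl_sg (Z : Sub k P) :
    idl (sg σ Z : Set (P.Pt k)) = (idl (Z : Set (P.Pt k))).map (mp σ P) := by
  rw [coe_sg, idl_pt]

theorem sdim_sg (Z : Sub k P) : sdim (sg σ Z) = sdim Z := by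
  unfold sdim
  rw [Order.height_orderIso]

theorem D0_inCh {ς : ∀ i, P.σ i} {x : P.Pt k} : InCh ς (pt σ x) ↔ InCh ς x := by
  obtain ⟨μ, hμ, e⟩ := rp_pt σ x
  refine forall_congr' fun i => ?_
  rw [e, mul_ne_zero_iff, and_iff_right (hμ i), Ne, σ.map_eq_zero_iff]

theorem D0_hat (ς : ∀ i, P.σ i) (x : P.Pt k) : hat ς (pt σ x) = fun s => σ (hat ς x s) := by
  obtain ⟨μ, hμ, e⟩ := rp_pt σ x
  funext s
  unfold hat
  rw [e, e, map_div₀, mul_div_mul_left _ _ (hμ s.1)]

theorem chI_sg (Z : Sub k P) (ς : ∀ i, P.σ i) :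
    chI (sg σ Z : Set (P.Pt k)) ς = (chI (Z : Set (P.Pt k)) ς).map (mp σ P) := by
  ext f
  obtain ⟨g, rfl⟩ := (mp_bij σ).2 f
  rw [Ideal.mem_map_iff_of_surjective _ (mp_bij σ).2, coe_sg]
  constructor
  · intro h
    refine ⟨g, fun x hx hc => ?_, rfl⟩
    have := h _ ⟨x, hx, rfl⟩ ((D0_inCh σ).2 hc)
    rwa [D0_hat, D0_eval, σ.map_eq_zero_iff] at this
  · rintro ⟨g', h, e⟩ _ ⟨x, hx, rfl⟩ hc
    rw [← e, D0_hat, D0_eval, h x hx ((D0_inCh σ).1 hc), map_zero]

theorem inCh_pt {ς : ∀ i, P.σ i} {x : P.Pt k} : InCh ς (pt σ x) ↔ InCh ς x := D0_inCh σ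

variable {σ}

theorem Stab.sub {A : Set (P.Pt k)} (h : Stab σ A) {Z : Sub k P} :
    (sg σ Z : Set (P.Pt k)) ⊆ A ↔ (Z : Set (P.Pt k)) ⊆ A := by
  rw [coe_sg, Set.image_subset_iff]
  exact forall_congr' fun x => imp_congr_right fun _ => h x

theorem Stab.tp {X : SV k P} (h : Stab σ X.pts) : sg σ X.tp = X.tp := by
  ext x
  obtain ⟨y, rfl⟩ : ∃ y, pt σ y = x := ⟨_, D0_pt σ x⟩
  exact (mem_sg σ).trans (h y).symm

theorem Stab.mod {X : SV k P} (h : Stab σ X.pts) {T : Type} (M : Mod X T) :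
    Stab σ M.Z.pts := by
  intro z
  rw [M.mem, M.mem]
  exact forall_congr' fun t => by rw [pt_pr, h]

theorem stab_zero {J : Type} {f : J → MvPolynomial P.V k} (hf : ∀ j, ∃ a, IsForm (f j) a)
    (h : ∀ j, mp σ P (f j) = f j) : Stab σ {x : P.Pt k | ∀ j, ev x (f j) = 0} := by
  intro x
  refine forall_congr' fun j => ?_
  obtain ⟨a, ha⟩ := hf j
  rw [← ev_pt σ x ha, h]

end Pool.Agent.Work.MP_10f4af_ag
end

-- merged part: Pool.Agent.Work.MP_10f4af_ag.VG.A1
section
/-!
# Linkage of prime ideals in polynomial rings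

Pure commutative algebra.

Plan.  `link_comap`: the map `comap θ` is an order embedding of the primes of `R'` onto the primes
`r ⊇ ker θ` which contain no `c` with `θ c` a unit (for such an `r` the ideal
`{y | ∃ g ∈ r, ∃ c, IsUnit (θ c) ∧ y * θ c = θ g}`, equal to `r.map θ`, is a prime with contraction
`r`; if `comap p ≤ comap q` then `p ≤ q`): this is `A1_lift`, `A1_le`.  Given `p' g' p` in `R'` write
`g' * θ c = θ g`; then `comap p` is minimal over `comap p' ⊔ span {g}` (a prime in between contains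
`ker θ` and no bad `c`, lift it), and another minimal prime `r` either contains a bad `c`
(hypothesis `hb`) or lifts to a minimal prime of `p' ⊔ span {g'}` different from `p`.
`AFF.equiv`: `link_comap` with the isomorphism, `comap_symm`.  `AFF_pid`: a non-zero prime is
`span {g}`, the only minimal prime of `⊥ ⊔ span {g}`.
`A1_ext`: the minimal primes of `(p' ⊔ span {g}).map C` are the `r.map C`
(`Ideal.isPrime_map_C_of_isPrime`, `Ideal.mem_map_C_iff`; a prime `n ⊇ I.map C` contains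
`(n.comap C).map C`), so `fun w => Good (w.map C)` is linked.
`AFF.polynomial`: Noetherian induction on `w = p.comap C` (larger first,
`WellFoundedGT`/`IsNoetherianRing` induction), `link_comap` for
`θ = Polynomial.mapRingHom (algebraMap R w.ResidueField)` (kernel `w.map C`, `Polynomial.ker_mapRingHom`;
a prime `r ⊇ ker θ` with a bad `c` has a contraction strictly larger than `w`, because otherwise
`θ` followed by evaluation gives the map to the residue field of `r`), then `AFF_pid`, `A1_ext`,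
`A1_lift`.  `AFF_mv`: `Finite.induction_empty_option`, `MvPolynomial.optionEquivLeft`,
`renameEquiv`, `isEmptyRingEquiv`.
-/

namespace Pool.Agent.Work.MP_10f4af_ag

universe u

variable {R R' : Type u} [CommRing R] [CommRing R']

/-- If all the other components of the divisor of `g` on `V(p')` are good, the last one is good. -/
def LinkOn (I : Ideal R) (Good : Ideal R → Prop) : Prop :=
  ∀ (p' : Ideal R) (g : R) (p : Ideal R), p'.IsPrime → I ≤ p' → g ∉ p' →
    p ∈ (p' ⊔ Ideal.span {g}).minimalPrimes →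
    (∀ r ∈ (p' ⊔ Ideal.span {g}).minimalPrimes, r ≠ p → Good r) → Good p

/-- Every prime is linked to the zero ideal. -/
def AFF (R : Type u) [CommRing R] : Prop :=
  ∀ Good : Ideal R → Prop, LinkOn ⊥ Good → Good ⊥ → ∀ p : Ideal R, p.IsPrime → Good p

/-- `R'` is a localisation of a quotient of `R`. -/
def LQ (θ : R →+* R') : Prop := ∀ y, ∃ g c, IsUnit (θ c) ∧ y * θ c = θ g

theorem A1_le {θ : R →+* R'} (h : LQ θ) {p q : Ideal R'} (e : p.comap θ ≤ q.comap θ) : p ≤ q := by
  intro y hy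
  obtain ⟨g, c, hc, hg⟩ := h y
  have h1 : θ g ∈ q := e (show θ g ∈ p from hg ▸ p.mul_mem_right _ hy)
  rwa [← hg, Ideal.mul_unit_mem_iff_mem _ hc] at h1

theorem A1_lift {θ : R →+* R'} (h : LQ θ) {r : Ideal R} (hr : r.IsPrime)
    (hk : RingHom.ker θ ≤ r) (hc : ∀ c ∈ r, ¬ IsUnit (θ c)) :
    ∃ p : Ideal R', p.IsPrime ∧ p.comap θ = r := by
  let p : Ideal R' :=
    { carrier := {y | ∃ g ∈ r, ∃ c, IsUnit (θ c) ∧ y * θ c = θ g}
      zero_mem' := ⟨0, r.zero_mem, 1, by simp, by simp⟩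
      add_mem' := by
        rintro y z ⟨g, hg, c, h1, h2⟩ ⟨g', hg', c', h1', h2'⟩
        refine ⟨g * c' + g' * c, r.add_mem (r.mul_mem_right _ hg) (r.mul_mem_right _ hg'), c * c',
          by rw [map_mul]; exact h1.mul h1', ?_⟩
        rw [map_add, map_mul, map_mul, map_mul, ← h2, ← h2']
        ring
      smul_mem' := by
        rintro a y ⟨g, hg, c, h1, h2⟩
        obtain ⟨g', c', h1', h2'⟩ := h a
        refine ⟨g' * g, r.mul_mem_left _ hg, c' * c, by rw [map_mul]; exact h1'.mul h1, ?_⟩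
        rw [map_mul, map_mul, ← h2, ← h2', smul_eq_mul]
        ring }
  have key : ∀ x, θ x ∈ p ↔ x ∈ r := fun x => by
    refine ⟨fun ⟨g, hg, c, h1, h2⟩ => ?_, fun hx => ⟨x, hx, 1, by simp, by simp⟩⟩
    have h3 : x * c - g ∈ r := hk (by rw [RingHom.mem_ker, map_sub, map_mul, h2, sub_self])
    exact (hr.mem_or_mem (sub_add_cancel (x * c) g ▸ r.add_mem h3 hg)).resolve_right
      fun k => hc c k h1
  refine ⟨p, ⟨fun ht => hr.ne_top ?_, fun {y z} hyz => ?_⟩, Ideal.ext key⟩
  · rw [Ideal.eq_top_iff_one, ← key, ht]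
    trivial
  · obtain ⟨g, c, h1, h2⟩ := h y
    obtain ⟨g', c', h1', h2'⟩ := h z
    have h3 : g * g' ∈ r := (key _).1 (by
      rw [map_mul, ← h2, ← h2', mul_mul_mul_comm]
      exact p.mul_mem_right _ hyz)
    exact (hr.mem_or_mem h3).imp (fun k => ⟨g, k, c, h1, h2⟩) fun k => ⟨g', k, c', h1', h2'⟩

theorem link_comap {θ : R →+* R'} (h : LQ θ) {I : Ideal R} {I' : Ideal R'} (hI : I ≤ I'.comap θ)
    {Good : Ideal R → Prop} (hl : LinkOn I Good)
    (hb : ∀ r : Ideal R, r.IsPrime → I'.comap θ ≤ r → (∃ c ∈ r, IsUnit (θ c)) → Good r) :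
    LinkOn I' fun p => Good (p.comap θ) := by
  intro p' g' p hp' hI' hg' hp hr
  obtain ⟨g, c, hc, hg⟩ := h g'
  have hm : ∀ q : Ideal R', g ∈ q.comap θ ↔ g' ∈ q := fun q => by
    rw [Ideal.mem_comap, ← hg, Ideal.mul_unit_mem_iff_mem _ hc]
  have hJ : ∀ q : Ideal R', p'.comap θ ⊔ Ideal.span {g} ≤ q.comap θ ↔ p' ⊔ Ideal.span {g'} ≤ q :=
    fun q => by
      rw [sup_le_iff, sup_le_iff, Ideal.span_singleton_le_iff_mem, Ideal.span_singleton_le_iff_mem,
        hm]
      exact and_congr_left' ⟨A1_le h, Ideal.comap_mono⟩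
  have hk : RingHom.ker θ ≤ p'.comap θ := Ideal.comap_mono bot_le
  have := hp.1.1
  refine hl (p'.comap θ) g _ (Ideal.comap_isPrime θ p') (hI.trans (Ideal.comap_mono hI'))
    (fun k => hg' ((hm _).1 k)) ⟨⟨Ideal.comap_isPrime θ p, (hJ p).2 hp.1.2⟩, fun r h1 h2 => ?_⟩
    fun r h1 h2 => ?_
  · obtain ⟨q, h3, rfl⟩ := A1_lift h h1.1 (hk.trans (le_sup_left.trans h1.2)) fun x hx hu =>
      this.ne_top (Ideal.eq_top_of_isUnit_mem _ (h2 hx) hu)
    exact Ideal.comap_mono (hp.2 ⟨h3, (hJ q).1 h1.2⟩ (A1_le h h2))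
  · by_cases hbad : ∃ c ∈ r, IsUnit (θ c)
    · exact hb r h1.1.1 ((Ideal.comap_mono hI').trans (le_sup_left.trans h1.1.2)) hbad
    obtain ⟨q, h3, rfl⟩ := A1_lift h h1.1.1 (hk.trans (le_sup_left.trans h1.1.2))
      fun x hx hu => hbad ⟨x, hx, hu⟩
    refine hr q ⟨⟨h3, (hJ q).1 h1.1.2⟩, fun q' h4 h5 => A1_le h ?_⟩ fun k => h2 (k ▸ rfl)
    have := h4.1
    exact h1.2 ⟨Ideal.comap_isPrime θ q', (hJ q').2 h4.2⟩ (Ideal.comap_mono h5)

theorem AFF.equiv (h : AFF R) (e : R ≃+* R') : AFF R' := by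
  intro Good hl h0 q hq
  have h1 := link_comap (θ := e.symm.toRingHom) (fun y => ⟨e y, 1, by simp, by simp⟩) (I := ⊥)
    (I' := ⊥) bot_le hl fun r hr _ ⟨c, hc, hu⟩ =>
      (hr.ne_top (Ideal.eq_top_of_isUnit_mem _ hc (by simpa using hu.map e))).elim
  have h2 := h _ h1 (by rwa [Ideal.comap_bot_of_injective e.symm.toRingHom e.symm.injective])
    (q.comap e.toRingHom) (Ideal.comap_isPrime _ q)
  rwa [Ideal.comap_comap, RingEquiv.toRingHom_comp_symm_toRingHom, Ideal.comap_id] at h2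

theorem AFF_pid [IsDomain R] [IsPrincipalIdealRing R] : AFF R := by
  intro Good hl h0 p hp
  obtain ⟨g, rfl⟩ : ∃ g, p = Ideal.span {g} := ⟨_, (Ideal.span_singleton_generator p).symm⟩
  by_cases hg : g = 0
  · rwa [hg, Ideal.span_singleton_zero]
  refine hl ⊥ g _ Ideal.isPrime_bot le_rfl hg ?_ fun r hr hne => (hne ?_).elim
  · rw [bot_sup_eq, Ideal.minimalPrimes_eq_subsingleton_self]
    rfl
  · rwa [bot_sup_eq, Ideal.minimalPrimes_eq_subsingleton_self] at hr

theorem A1_ext (h : AFF R) {Good : Ideal (Polynomial R) → Prop} (hl : LinkOn ⊥ Good)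
    (h0 : Good ⊥) (w : Ideal R) (hw : w.IsPrime) : Good (w.map Polynomial.C) := by
  have hc : ∀ p : Ideal R, (p.map (Polynomial.C : R →+* Polynomial R)).comap Polynomial.C = p :=
    fun p => le_antisymm (fun x hx => by simpa using Ideal.mem_map_C_iff.1 hx 0) Ideal.le_comap_map
  refine h (fun w => Good (w.map Polynomial.C)) (fun p' g p hp' _ hg hp hr => ?_)
    (by rwa [Ideal.map_bot]) w hw
  have hJ : ∀ n : Ideal (Polynomial R), p'.map Polynomial.C ⊔ Ideal.span {Polynomial.C g} ≤ n ↔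
      p' ⊔ Ideal.span {g} ≤ n.comap Polynomial.C := fun n => by
    rw [← Ideal.map_le_iff_le_comap, Ideal.map_sup, Ideal.map_span, Set.image_singleton]
  have := hp.1.1
  refine hl (p'.map Polynomial.C) (Polynomial.C g) _ Ideal.isPrime_map_C_of_isPrime bot_le
    (fun k => hg (hc p' ▸ k)) ⟨⟨Ideal.isPrime_map_C_of_isPrime, (hJ _).2 (by rw [hc]; exact hp.1.2)⟩,
      fun n h1 h2 => ?_⟩ fun n h1 h2 => ?_
  · have := h1.1
    exact Ideal.map_le_iff_le_comap.2 (hp.2 ⟨Ideal.comap_isPrime _ n, (hJ n).1 h1.2⟩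
      ((Ideal.comap_mono h2).trans (hc p).le))
  · have := h1.1.1
    have key : ∀ r : Ideal R, r.IsPrime → p' ⊔ Ideal.span {g} ≤ r → r ≤ n.comap Polynomial.C →
        n ≤ r.map Polynomial.C := fun r h3 h4 h5 =>
      h1.2 ⟨Ideal.isPrime_map_C_of_isPrime, (hJ _).2 (by rw [hc]; exact h4)⟩
        (Ideal.map_le_iff_le_comap.2 h5)
    have h3 := Ideal.comap_isPrime (Polynomial.C : R →+* Polynomial R) n
    have h4 : (n.comap Polynomial.C).map Polynomial.C = n :=
      le_antisymm Ideal.map_comap_le (key _ h3 ((hJ n).1 h1.1.2) le_rfl)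
    rw [← h4]
    exact hr _ ⟨⟨h3, (hJ n).1 h1.1.2⟩, fun r h5 h6 =>
      (Ideal.comap_mono (key r h5.1 h5.2 h6)).trans (hc r).le⟩ fun k => h2 (by rw [← h4, k])

theorem A1_LQ (w : Ideal R) [w.IsPrime] :
    LQ (Polynomial.mapRingHom (algebraMap R w.ResidueField)) := by
  intro y
  induction y using Polynomial.induction_on' with
  | add y z hy hz =>
    obtain ⟨g, c, h1, h2⟩ := hy
    obtain ⟨g', c', h1', h2'⟩ := hz
    refine ⟨g * c' + g' * c, c * c', by rw [map_mul]; exact h1.mul h1', ?_⟩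
    rw [map_add, map_mul, map_mul, map_mul, ← h2, ← h2']
    ring
  | monomial n z =>
    obtain ⟨⟨a, b, hb⟩, hz⟩ := IsLocalization.surj (nonZeroDivisors (R ⧸ w)) z
    obtain ⟨a, rfl⟩ := Ideal.Quotient.mk_surjective a
    obtain ⟨b, rfl⟩ := Ideal.Quotient.mk_surjective b
    have h1 : algebraMap R w.ResidueField b ≠ 0 := fun k => nonZeroDivisors.ne_zero hb
      (Ideal.Quotient.eq_zero_iff_mem.2 (Ideal.algebraMap_residueField_eq_zero.1 k))
    have h2 : z * algebraMap R w.ResidueField b = algebraMap R w.ResidueField a := hz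
    refine ⟨Polynomial.monomial n a, Polynomial.C b, ?_, ?_⟩
    · simpa using h1
    · simp [Polynomial.monomial_mul_C, h2]

theorem AFF.polynomial [IsNoetherianRing R] (h : AFF R) : AFF (Polynomial R) := by
  intro Good hl h0 p hp
  induction hw : p.comap (Polynomial.C : R →+* Polynomial R) using WellFoundedGT.induction
    generalizing p with
  | ind w ih =>
    have hw' : w.IsPrime := hw ▸ Ideal.comap_isPrime _ p
    let θ := Polynomial.mapRingHom (algebraMap R w.ResidueField)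
    have hk : RingHom.ker θ = w.map Polynomial.C := by
      rw [Polynomial.ker_mapRingHom, Ideal.ker_algebraMap_residueField]
    have hθ : LQ θ := A1_LQ w
    have hb : ∀ r : Ideal (Polynomial R), r.IsPrime → RingHom.ker θ ≤ r →
        (∃ c ∈ r, IsUnit (θ c)) → Good r := by
      rintro r hr h1 ⟨c, hc, hu⟩
      obtain ⟨v, h2, h3⟩ := Polynomial.isUnit_iff.1 hu
      have h4 : algebraMap R w.ResidueField (c.coeff 0) = v := by
        simpa [θ] using (congrArg (fun f => Polynomial.coeff f 0) h3).symm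
      have h5 : c - Polynomial.C (c.coeff 0) ∈ r := h1 (by
        rw [RingHom.mem_ker, map_sub, ← h3, ← h4]
        simp [θ])
      refine ih _ (lt_of_le_of_ne (Ideal.map_le_iff_le_comap.1 (hk ▸ h1)) fun k => ?_) r hr rfl
      have h6 : c.coeff 0 ∈ w := by
        rw [k, Ideal.mem_comap, ← sub_sub_cancel c (Polynomial.C _)]
        exact r.sub_mem hc h5
      exact h2.ne_zero (h4 ▸ Ideal.algebraMap_residueField_eq_zero.2 h6)
    have h1 : RingHom.ker θ ≤ p := hk ▸ Ideal.map_le_iff_le_comap.2 hw.ge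
    by_cases hbad : ∃ c ∈ p, IsUnit (θ c)
    · exact hb p hp h1 hbad
    obtain ⟨q, h2, rfl⟩ := A1_lift hθ hp h1 fun c hc hu => hbad ⟨c, hc, hu⟩
    exact AFF_pid _ (link_comap hθ (I' := ⊥) bot_le hl hb)
      (show Good (RingHom.ker θ) from hk ▸ A1_ext h hl h0 w hw') q h2

theorem AFF_mv (F : Type u) [Field F] (τ : Type) [Finite τ] : AFF (MvPolynomial τ F) := by
  refine Finite.induction_empty_option (P := fun τ => Finite τ → AFF (MvPolynomial τ F))
    (fun e h _ => ?_) (fun _ => ?_) (fun h _ => ?_) τ inferInstance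
  · exact (h (Finite.of_equiv _ e.symm)).equiv (MvPolynomial.renameEquiv F e).toRingEquiv
  · exact AFF_pid.equiv (MvPolynomial.isEmptyRingEquiv F PEmpty).symm
  · exact (h inferInstance).polynomial.equiv (MvPolynomial.optionEquivLeft F _).toRingEquiv.symm

end Pool.Agent.Work.MP_10f4af_ag
end

-- merged part: Pool.Agent.Work.MP_10f4af_ag.VG.C1
section
/-!
# Conjugate primes of a polynomial ring over an algebraically closed field

`B` is a domain contained in the field `k`, and `k` is algebraic over `B`.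

Plan.  `conj_prime`: let `D = MvPolynomial τ B ⧸ q`, `q` the common contraction, and let `Ω i` be
an algebraic closure of the residue field of `p i`, made a `D`-algebra through
`Ideal.quotientMap`/`Ideal.Quotient.lift` (injective).  `Ω i` is algebraic over `D`: the residue
field is generated by the images of the variables, which come from `D`, and of the elements of `k`,
which are algebraic over `B`.  So both are algebraic closures of `D` (`IsAlgClosure D (Ω i)`), and
`IsAlgClosure.equiv` gives `ψ : Ω 1 ≃ₐ[D] Ω 2`.  The image of `ι i : k →+* Ω i` is the set of the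
elements which are algebraic over `B` (a polynomial over `B` splits in `k`), so `ψ` maps the image
of `ι 1` onto the image of `ι 2`, and `ψ ∘ ι 1 = ι 2 ∘ σ` defines `σ`.  Then
`f ∈ p 1 ↔ map σ f ∈ p 2`, and `Ideal.map` along a surjection finishes.
(`C1_emb` isolates the construction of `σ`.)
`going_down`: `B → k` is flat (`B → FractionRing B` is a localisation, `FractionRing B → k` is a
map of fields), so `map` is flat (base change, `MvPolynomial.algebraTensorAlgEquiv` or
`RingHom.Flat` of `mapRingHom`, or: the monomials form a basis and a torsion-free argument is not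
enough, use base change); `Algebra.HasGoingDown.of_flat`,
`Ideal.exists_ideal_le_liesOver_of_le`.
`orbit_ideal`: every `c : k` has finitely many conjugates (roots of a non-zero polynomial over `B`
mapped to `k`), so every polynomial has finitely many conjugates (finite support), and the ideal is
spanned by a finite set (`Ideal.map_span`).
`exists_base`: extend `Set.range a` to a transcendence basis `s` of `k` over `F`
(`exists_isTranscendenceBasis_superset`), and take for `k₀` the subfield generated by `F` and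
`s \ Set.range a` (`IntermediateField.adjoin`, `AlgebraicIndependent.sumElim_iff` and its variants,
`IntermediateField.algebraicIndependent_adjoin_iff`, or
`AlgebraicIndependent.adjoin_of_disjoint`); the matroid `AlgebraicIndependent.matroid` may help.
-/

open MvPolynomial

namespace Pool.Agent.Work.MP_10f4af_ag

universe u

variable {B k : Type u} [CommRing B] [IsDomain B] [Field k] [Algebra B k] [FaithfulSMul B k]
  [Algebra.IsAlgebraic B k] {τ : Type}

theorem C1_emb [IsAlgClosed k] {Ω : Type u} [Field Ω] (ι ι' : k →+* Ω)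
    (h : ∀ b, ι (algebraMap B k b) = ι' (algebraMap B k b)) :
    ∃ σ : k ≃ₐ[B] k, ∀ c, ι c = ι' (σ c) := by
  have key : ∀ ι ι' : k →+* Ω, (∀ b, ι (algebraMap B k b) = ι' (algebraMap B k b)) →
      ∀ c, ∃ d, ι' d = ι c := fun ι ι' h c => by
    obtain ⟨P, h0, h1⟩ := Algebra.IsAlgebraic.isAlgebraic (R := B) c
    refine (IsAlgClosed.splits (P.map (algebraMap B k))).mem_range_of_isRoot
      ((Polynomial.map_ne_zero_iff (FaithfulSMul.algebraMap_injective B k)).2 h0) ?_
    rw [Polynomial.map_map,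
      ← show ι.comp (algebraMap B k) = ι'.comp (algebraMap B k) from RingHom.ext h,
      ← Polynomial.map_map, Polynomial.IsRoot, Polynomial.eval_map, Polynomial.eval₂_at_apply,
      Polynomial.eval_map_algebraMap, h1, map_zero]
  choose s hs using key ι ι' h
  let σ : k →ₐ[B] k :=
    { toFun := s
      map_one' := ι'.injective (by simp only [hs, map_one])
      map_mul' := fun x y => ι'.injective (by simp only [hs, map_mul])
      map_zero' := ι'.injective (by simp only [hs, map_zero])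
      map_add' := fun x y => ι'.injective (by simp only [hs, map_add])
      commutes' := fun b => ι'.injective (by rw [hs, h]) }
  refine ⟨AlgEquiv.ofBijective σ ⟨σ.toRingHom.injective, fun d => ?_⟩, fun c => (hs c).symm⟩
  obtain ⟨c, hc⟩ := key ι' ι (fun b => (h b).symm) d
  exact ⟨c, ι'.injective ((hs c).trans hc)⟩

theorem conj_prime [IsAlgClosed k] (p p' : Ideal (MvPolynomial τ k)) [p.IsPrime] [p'.IsPrime]
    (h : p.comap (map (algebraMap B k)) = p'.comap (map (algebraMap B k))) :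
    ∃ σ : k ≃ₐ[B] k, p.map (map (σ : k →+* k)) = p' := by
  let : Algebra (MvPolynomial τ B) (MvPolynomial τ k) := algebraMvPolynomial
  let D := MvPolynomial τ B ⧸ p.comap (algebraMap (MvPolynomial τ B) (MvPolynomial τ k))
  let Ω := AlgebraicClosure (FractionRing (MvPolynomial τ k ⧸ p'))
  let φ' : MvPolynomial τ k →+* Ω :=
    ((algebraMap (FractionRing (MvPolynomial τ k ⧸ p')) Ω).comp
      (algebraMap (MvPolynomial τ k ⧸ p') _)).comp (Ideal.Quotient.mk p')
  have k' : ∀ f, φ' f = 0 ↔ f ∈ p' := fun f => by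
    rw [← Ideal.Quotient.eq_zero_iff_mem]
    simp only [φ', RingHom.comp_apply, map_eq_zero_iff _ (RingHom.injective
      (algebraMap (FractionRing (MvPolynomial τ k ⧸ p')) Ω)), map_eq_zero_iff _
      (IsFractionRing.injective (MvPolynomial τ k ⧸ p') (FractionRing (MvPolynomial τ k ⧸ p')))]
  have hq : ∀ g : MvPolynomial τ B, g ∈ p.comap (algebraMap (MvPolynomial τ B) (MvPolynomial τ k))
      ↔ φ'.comp (map (algebraMap B k)) g = 0 := fun g => by
    rw [RingHom.comp_apply, k', ← Ideal.mem_comap, ← h]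
    rfl
  let : Algebra D Ω := (Ideal.Quotient.lift _ (φ'.comp (map (algebraMap B k)))
    fun g => (hq g).1).toAlgebra
  have : FaithfulSMul D Ω := (faithfulSMul_iff_algebraMap_injective _ _).2
    (RingHom.lift_injective_of_ker_le_ideal _ _ fun g => (hq g).2)
  have : FaithfulSMul D (MvPolynomial τ k ⧸ p) :=
    (faithfulSMul_iff_algebraMap_injective _ _).2 Ideal.algebraMap_quotient_injective
  have : Algebra.IsAlgebraic D (MvPolynomial τ k ⧸ p) := ⟨fun x => by
    obtain ⟨f, rfl⟩ := Ideal.Quotient.mk_surjective x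
    induction f using MvPolynomial.induction_on with
    | C c =>
      let j : B →+* D := (Ideal.Quotient.mk _).comp C
      let j' : k →+* MvPolynomial τ k ⧸ p := (Ideal.Quotient.mk p).comp C
      have e : (algebraMap D (MvPolynomial τ k ⧸ p)).comp j = j'.comp (algebraMap B k) :=
        RingHom.ext fun b => congrArg (Ideal.Quotient.mk p) (map_C (algebraMap B k) b)
      have hj : Function.Injective j := by
        refine Function.Injective.of_comp (f := algebraMap D (MvPolynomial τ k ⧸ p)) ?_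
        rw [← RingHom.coe_comp, e]
        exact j'.injective.comp (FaithfulSMul.algebraMap_injective B k)
      obtain ⟨P, h0, h1⟩ := Algebra.IsAlgebraic.isAlgebraic (R := B) c
      refine ⟨P.map j, (Polynomial.map_ne_zero_iff hj).2 h0, ?_⟩
      rw [Polynomial.aeval_def, Polynomial.eval₂_map, e]
      exact (Polynomial.hom_eval₂ P (algebraMap B k) j' c).symm.trans
        ((congrArg j' h1).trans (map_zero j'))
    | add f g hf hg => exact map_add (Ideal.Quotient.mk p) f g ▸ hf.add hg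
    | mul_X f i hf =>
      rw [map_mul, ← map_X (algebraMap B k) i]
      exact hf.mul (isAlgebraic_algebraMap (R := D) (Ideal.Quotient.mk _ (X i)))⟩
  let ψ : (MvPolynomial τ k ⧸ p) →ₐ[D] Ω := IsAlgClosed.lift
  have hψ : Function.Injective ψ := by
    rw [injective_iff_map_eq_zero]
    intro x hx
    by_contra x0
    refine Ideal.comap_ne_bot_of_algebraic_mem (R := D) (I := RingHom.ker ψ) x0 hx
      (Algebra.IsAlgebraic.isAlgebraic x) (eq_bot_iff.2 fun d hd => ?_)
    exact (FaithfulSMul.algebraMap_eq_zero_iff D Ω).1 ((ψ.commutes d).symm.trans hd)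
  have hm : ∀ g : MvPolynomial τ B, ψ (Ideal.Quotient.mk p (map (algebraMap B k) g))
      = φ' (map (algebraMap B k) g) := fun g => ψ.commutes (Ideal.Quotient.mk _ g)
  obtain ⟨σ, hσ⟩ := C1_emb (B := B) (((ψ : _ →+* Ω).comp (Ideal.Quotient.mk p)).comp C)
    (φ'.comp C) fun b => by
      simpa only [map_C, RingHom.comp_apply, RingHom.coe_coe] using hm (C b)
  have e : (ψ : _ →+* Ω).comp (Ideal.Quotient.mk p) = φ'.comp (map (σ : k →+* k)) :=
    ringHom_ext (fun c => by simpa only [RingHom.comp_apply, map_C, RingHom.coe_coe] using hσ c)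
      fun i => by simpa only [RingHom.comp_apply, map_X, RingHom.coe_coe] using hm (X i)
  refine ⟨σ, ?_⟩
  rw [← Ideal.map_comap_of_surjective (map (σ : k →+* k)) (map_surjective _ σ.surjective) p']
  congr 1
  ext f
  rw [Ideal.mem_comap, ← k', ← RingHom.comp_apply, ← e, ← Ideal.Quotient.eq_zero_iff_mem]
  exact (map_eq_zero_iff _ hψ).symm

omit [Algebra.IsAlgebraic B k] in
theorem going_down (p : Ideal (MvPolynomial τ k)) [p.IsPrime] (q : Ideal (MvPolynomial τ B))
    [q.IsPrime] (h : q ≤ p.comap (map (algebraMap B k))) :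
    ∃ p' : Ideal (MvPolynomial τ k), p'.IsPrime ∧ p' ≤ p ∧
      p'.comap (map (algebraMap B k)) = q := by
  let : Algebra (MvPolynomial τ B) (MvPolynomial τ k) := algebraMvPolynomial
  let := FractionRing.liftAlgebra B k
  have := FractionRing.isScalarTower_liftAlgebra B k
  have : Module.Flat B k := Module.Flat.trans B (FractionRing B) k
  have : Module.Flat (MvPolynomial τ B) (MvPolynomial τ k) :=
    Module.Flat.isBaseChange B _ k _ (Algebra.IsPushout.out (R := B) (S := MvPolynomial τ B)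
      (R' := k) (S' := MvPolynomial τ k))
  obtain ⟨p', h1, h2, h3⟩ := Ideal.exists_ideal_le_liesOver_of_le
    (q := p.under (MvPolynomial τ B)) p h
  exact ⟨p', h2, h1, h3.over.symm⟩

theorem orbit_ideal [Finite τ] (I : Ideal (MvPolynomial τ k)) :
    (Set.range fun σ : k ≃ₐ[B] k => I.map (map (σ : k →+* k))).Finite := by
  have key : ∀ f : MvPolynomial τ k,
      (Set.range fun σ : k ≃ₐ[B] k => map (σ : k →+* k) f).Finite := fun f => by
    induction f using MvPolynomial.induction_on' with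
    | monomial s c =>
      obtain ⟨P, h0, h1⟩ := Algebra.IsAlgebraic.isAlgebraic (R := B) c
      refine ((P.rootSet_finite k).image (monomial s)).subset ?_
      rintro _ ⟨σ, rfl⟩
      exact ⟨σ c, Polynomial.mem_rootSet.2 ⟨h0, by
        rw [Polynomial.aeval_algHom_apply, h1, map_zero]⟩, (map_monomial (σ : k →+* k) s c).symm⟩
    | add f g hf hg =>
      refine (hf.image2 (· + ·) hg).subset ?_
      rintro _ ⟨σ, rfl⟩
      exact ⟨_, ⟨σ, rfl⟩, _, ⟨σ, rfl⟩, (map_add _ f g).symm⟩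
  obtain ⟨S, rfl⟩ := IsNoetherian.noetherian I
  refine ((S.finite_toSet.biUnion fun f _ => key f).finite_subsets.image Ideal.span).subset ?_
  rintro _ ⟨σ, rfl⟩
  refine ⟨_, ?_, (Ideal.map_span _ _).symm⟩
  rintro _ ⟨f, hf, rfl⟩
  exact Set.mem_biUnion hf ⟨σ, rfl⟩

theorem exists_base {k : Type u} [Field k] (F : Subfield k) {α : Type} {a : α → k}
    (ha : AlgebraicIndependent F a) : ∃ k₀ : Subfield k, AlgebraicIndependent k₀ a ∧
      ∀ c : k, ∃ Q : Polynomial (MvPolynomial α k₀), Q ≠ 0 ∧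
        Polynomial.eval₂ (aeval a : MvPolynomial α k₀ →ₐ[k₀] k).toRingHom c Q = 0 := by
  obtain ⟨t, ht, hb⟩ := exists_isTranscendenceBasis_superset (R := F) ha.to_subtype_range
  let K := IntermediateField.adjoin F (t \ Set.range a)
  have h1 : AlgebraicIndependent K a := by
    rw [IntermediateField.algebraicIndependent_adjoin_iff]
    have := (hb.1.adjoin_of_disjoint (s := {x | x.1 ∉ Set.range a}) (t := {x | x.1 ∈ Set.range a})
      disjoint_compl_left).comp (fun i => ⟨⟨a i, ht ⟨i, rfl⟩⟩, i, rfl⟩)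
      fun i j e => ha.injective (congrArg (·.1.1) e)
    rwa [show Subtype.val '' {x : t | x.1 ∉ Set.range a} = t \ Set.range a by
      ext; simp [and_comm]] at this
  have h2 : Algebra.adjoin F (Set.range ((↑) : t → k)) ≤
      (aeval a : MvPolynomial α K →ₐ[K] k).range.restrictScalars F := by
    refine Algebra.adjoin_le ?_
    rintro _ ⟨x, rfl⟩
    by_cases hx : x.1 ∈ Set.range a
    · obtain ⟨i, hi⟩ := hx
      exact ⟨X i, (aeval_X a i).trans hi⟩
    · exact ⟨C ⟨x.1, IntermediateField.subset_adjoin _ _ ⟨x.2, hx⟩⟩, aeval_C a _⟩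
  have h3 : ∀ c : k, ∃ Q : Polynomial (MvPolynomial α K), Q ≠ 0 ∧
      Polynomial.eval₂ (aeval a : MvPolynomial α K →ₐ[K] k).toRingHom c Q = 0 := fun c => by
    obtain ⟨P, h0, hP⟩ := hb.isAlgebraic.isAlgebraic c
    obtain ⟨Q, hQ⟩ := (Polynomial.mem_lifts (f := (aeval a : MvPolynomial α K →ₐ[K] k).toRingHom)
      (P.map (algebraMap _ k))).1 ((Polynomial.lifts_iff_coeff_lifts _).2 fun n => by
        rw [Polynomial.coeff_map]
        exact h2 (P.coeff n).2)
    refine ⟨Q, fun e => h0 ?_, by rw [← Polynomial.eval_map, hQ, Polynomial.eval_map_algebraMap, hP]⟩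
    rw [e, Polynomial.map_zero] at hQ
    exact (Polynomial.map_eq_zero_iff Subtype.val_injective).1 hQ.symm
  exact ⟨K.toSubfield, h1, h3⟩

end Pool.Agent.Work.MP_10f4af_ag
end

-- merged part: Pool.Agent.Work.MP_10f4af_ag.VG.E1
section
/-!
# Linkage of subvarieties through pencils

Plan.  `ctr_conj`: `chI_prime`, `conj_prime`, `chI_sg`, `inCh_pt`, `le_of_chI_le` twice
(`mp σ.toRingEquiv S` is `map (σ : k →+* k)` by `rfl`).  `ctr_eq`: `sdim_sg`, `eq_of_sdim_le`.
`ctr_down`: `going_down`, `exists_chI_eq`, `le_of_chI_le`.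
`pos_mem`: write `c = ∑ p ∈ c.support, single p (c p)`; every `p` is `idl T`; modulo `N` the
term is `0` or `c p • cS Z`; the sum of the `c p` of the second kind (decide by
`single p 1 - cS Z ∈ N`) is positive because it contains `c (idl Z)`.
`geo_min`: take `r₀ ≤ ctr B T ς` minimal over `ctr B Z ς ⊔ span {g}`
(`Ideal.exists_minimalPrimes_le`), `T ≤ T₀` over `r₀` and `T₀ ≤ Z₀` over `ctr B Z ς` (`ctr_down`
twice); `T₀ ≠ Z₀` because of `g`, `sdim Z₀ = sdim Z` (`ctr_conj`, `sdim_sg`), so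
`sdim T₀ ≤ sdim T` (`sdim_lt`) and `T = T₀`.
`geo_link`: given `p' g p` and `Z` over `p`, take `Z ≤ Z'` over `p'` (`ctr_down`), and `G` from
`homog ς (map (algebraMap B k) g)`; for `T` which meets the chart,
`Van T G ↔ g ∈ ctr B T ς` (`mem_chI_form`, `mem_chI_congr`).  `krg` gives `Z ≤ T ≤ Z'` with
`sdim T + 1 = sdim Z'`; `ctr B T ς` is a prime between `p' ⊔ span {g}` and `p`, so `T = Z`
(`ctr_eq`).  `pencil` with `mono ς a` (`mono_form`, `ev_mono_ne`); the components of
`cut [mono ς a] (cS Z')` (`cut_mem`) do not meet the chart, so this cycle lies in `N` (`Sp_map`,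
`hb`), hence `cut [G] (cS Z') ∈ N`.  Finish with `pos_mem` (`cut_mem`, `G3_cut`; non-negativity
from `cut_rel`, `cut_not_rel`, `mult_eq`, `mult_nonneg`): a component `T` either misses the chart
(`hb`), or `r = ctr B T ς` is minimal (`geo_min`) and then `r ≠ p` (hypothesis of the link) or
`T = sg σ Z` (`ctr_conj`, `hG`).
-/

open MvPolynomial Topology TopologicalSpace Finsupp

namespace Pool.Agent.Work.MP_10f4af_ag

open MP_ffcd14_ag hiding len vl cyc pl Weil idl_hmg mem_idl idl_prime idl_le_iff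

universe u

variable {k : Type u} [Field k] {S : Amb}

/-- The ideal of `Z` in the chart `ς`, contracted to the polynomials with coefficients in `B`. -/
noncomputable def ctr (B : Type u) [CommRing B] [Algebra B k] (Z : Sub k S) (ς : ∀ i, S.σ i) :
    Ideal (MvPolynomial S.V B) :=
  (chI (Z : Set (S.Pt k)) ς).comap (MvPolynomial.map (algebraMap B k))

theorem pos_mem (N : Submodule ℚ (Cyc k S)) {c : Cyc k S} {Z : Sub k S} {s : Sub k S → Prop}
    (hc : c ∈ Sp s) (h0 : ∀ p, 0 ≤ c p) (hZ : c (idl (Z : Set (S.Pt k))) ≠ 0) (hN : c ∈ N)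
    (h : ∀ T, s T → cS T ∈ N ∨ cS T - cS Z ∈ N) : cS Z ∈ N := by
  classical
  have h1 : ∀ p ∈ c.support, N.mkQ (single p (c p)) =
      (if N.mkQ (single p 1) = N.mkQ (cS Z) then c p else 0) • N.mkQ (cS Z) := by
    intro p hp
    rw [← Finsupp.smul_single_one, map_smul]
    split_ifs with e
    · rw [e]
    · obtain ⟨T, hT, rfl⟩ := mem_Sp.1 hc p (mem_support_iff.1 hp)
      rcases h T hT with k1 | k1
      · have k2 : N.mkQ (single (idl (T : Set (S.Pt k))) 1) = 0 :=
          (Submodule.Quotient.mk_eq_zero N).2 k1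
        rw [zero_smul, k2, smul_zero]
      · exact absurd ((Submodule.Quotient.eq N).2 k1) e
  have h2 : N.mkQ c = (∑ p ∈ c.support,
      if N.mkQ (single p 1) = N.mkQ (cS Z) then c p else 0) • N.mkQ (cS Z) := by
    rw [Finset.sum_smul, ← Finset.sum_congr rfl h1, ← map_sum]
    exact congrArg _ (Finsupp.sum_single c).symm
  have h3 : 0 < ∑ p ∈ c.support, if N.mkQ (single p 1) = N.mkQ (cS Z) then c p else 0 := by
    refine Finset.sum_pos' (fun p _ => ?_) ⟨_, mem_support_iff.2 hZ, ?_⟩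
    · split_ifs
      exacts [h0 p, le_rfl]
    · rw [cS, if_pos rfl]
      exact lt_of_le_of_ne (h0 _) hZ.symm
  have h4 : N.mkQ c = 0 := (Submodule.Quotient.mk_eq_zero N).2 hN
  rw [h4, eq_comm, smul_eq_zero] at h2
  exact (Submodule.Quotient.mk_eq_zero N).1 (h2.resolve_left h3.ne')

variable {B : Type u} [CommRing B] [Algebra B k] {Z T : Sub k S} {ς : ∀ i, S.σ i}

theorem ctr_prime (hZ : ∃ x ∈ Z, InCh ς x) : (ctr B Z ς).IsPrime := by
  have := chI_prime hZ
  exact Ideal.comap_isPrime _ _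

theorem ctr_anti (h : T ≤ Z) : ctr B Z ς ≤ ctr B T ς := by
  exact Ideal.comap_mono (chI_anti h ς)

theorem ctr_one (i : S.ι) : X ⟨i, ς i⟩ - 1 ∈ ctr B Z ς := by
  intro x _ hx
  rw [map_sub, map_X, map_one, map_sub, eval_X, map_one, hat, div_self (hx i), sub_self]

theorem ctr_form (hZ : ∃ x ∈ Z, InCh ς x) {g : MvPolynomial S.V B} {a : S.ι →₀ ℕ}
    (hg : IsForm (MvPolynomial.map (algebraMap B k) g) a) :
    g ∈ ctr B Z ς ↔ Van (Z : Set (S.Pt k)) (MvPolynomial.map (algebraMap B k) g) := by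
  exact mem_chI_form hZ hg

theorem E1_ch (hT : ∃ x ∈ T, InCh ς x) (h : T ≤ Z) : ∃ x ∈ Z, InCh ς x :=
  hT.imp fun _ hx => ⟨h hx.1, hx.2⟩

variable [IsAlgClosed k] [IsDomain B] [FaithfulSMul B k] [Algebra.IsAlgebraic B k]

theorem ctr_conj (hZ : ∃ x ∈ Z, InCh ς x) (hT : ∃ x ∈ T, InCh ς x) (e : ctr B Z ς = ctr B T ς) :
    ∃ σ : k ≃ₐ[B] k, T = sg σ.toRingEquiv Z := by
  have := chI_prime hZ
  have := chI_prime hT
  obtain ⟨σ, hσ⟩ := conj_prime (B := B) _ _ e
  have h1 : chI (sg σ.toRingEquiv Z : Set (S.Pt k)) ς = chI (T : Set (S.Pt k)) ς :=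
    (chI_sg _ Z ς).trans hσ
  obtain ⟨x, hx, hx'⟩ := hZ
  have h2 : ∃ y ∈ sg σ.toRingEquiv Z, InCh ς y :=
    ⟨pt σ.toRingEquiv x, (mem_sg _).2 hx, (inCh_pt _).2 hx'⟩
  exact ⟨σ, le_antisymm (le_of_chI_le h2 hT h1.le) (le_of_chI_le hT h2 h1.ge)⟩

theorem ctr_eq (hT : ∃ x ∈ T, InCh ς x) (h : T ≤ Z) (e : ctr B Z ς = ctr B T ς) : T = Z := by
  obtain ⟨σ, hσ⟩ := ctr_conj (E1_ch hT h) hT e
  refine eq_of_sdim_le h ?_
  rw [hσ, sdim_sg]

theorem ctr_down (hZ : ∃ x ∈ Z, InCh ς x) {q : Ideal (MvPolynomial S.V B)} (hq : q.IsPrime)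
    (h : q ≤ ctr B Z ς) (h1 : ∀ i, X ⟨i, ς i⟩ - 1 ∈ q) :
    ∃ Z' : Sub k S, Z ≤ Z' ∧ ctr B Z' ς = q := by
  have := chI_prime hZ
  obtain ⟨p', h2, h3, h4⟩ := going_down (B := B) (chI (Z : Set (S.Pt k)) ς) q h
  obtain ⟨Z', h5, h6⟩ := exists_chI_eq ς p' fun i => by
    have h7 := h1 i
    rw [← h4, Ideal.mem_comap, map_sub, map_X, map_one] at h7
    exact h7
  exact ⟨Z', le_of_chI_le h5 hZ (h6 ▸ h3), by rw [ctr, h6, h4]⟩

theorem geo_min (hT : ∃ x ∈ T, InCh ς x) (h : T ≤ Z) (hd : sdim T + 1 = sdim Z)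
    {g : MvPolynomial S.V B} (hg : g ∉ ctr B Z ς) (hg' : g ∈ ctr B T ς) :
    ctr B T ς ∈ (ctr B Z ς ⊔ Ideal.span {g}).minimalPrimes := by
  have := ctr_prime (B := B) hT
  have hZ := E1_ch hT h
  obtain ⟨r, h1, h2⟩ := Ideal.exists_minimalPrimes_le (I := ctr B Z ς ⊔ Ideal.span {g})
    (J := ctr B T ς) (sup_le (ctr_anti h) ((Ideal.span_singleton_le_iff_mem _).2 hg'))
  have h3 : ctr B Z ς ≤ r := le_sup_left.trans h1.1.2
  have h4 : g ∈ r := h1.1.2 (Ideal.mem_sup_right (Ideal.mem_span_singleton_self g))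
  obtain ⟨T₀, a1, a2⟩ := ctr_down hT h1.1.1 h2 fun i => h3 (ctr_one i)
  have hT₀ := E1_ch hT a1
  obtain ⟨Z₀, b1, b2⟩ := ctr_down hT₀ (ctr_prime hZ) (a2 ▸ h3) ctr_one
  have b3 : T₀ ≠ Z₀ := fun e => hg (by rw [← b2, ← e, a2]; exact h4)
  obtain ⟨σ, hσ⟩ := ctr_conj hZ (E1_ch hT₀ b1) b2.symm
  have b4 := sdim_lt (lt_of_le_of_ne b1 b3)
  rw [hσ, sdim_sg] at b4
  rw [eq_of_sdim_le a1 (by omega), a2]
  exact h1

theorem geo_link (L : Set (S.Pt k)) (N : Submodule ℚ (Cyc k S)) (d : ℕ) (ς : ∀ i, S.σ i)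
    (I : Ideal (MvPolynomial S.V B)) (h1 : ∀ i, X ⟨i, ς i⟩ - 1 ∈ I)
    (hI : ∀ Z : Sub k S, (∃ x ∈ Z, InCh ς x) → I ≤ ctr B Z ς → (Z : Set (S.Pt k)) ⊆ L)
    (hR : Rt L ≤ N)
    (hG : ∀ (σ : k ≃ₐ[B] k) (Z : Sub k S), (Z : Set (S.Pt k)) ⊆ L → sdim Z = d →
      cS (sg σ.toRingEquiv Z) - cS Z ∈ N)
    (hb : ∀ Z : Sub k S, (Z : Set (S.Pt k)) ⊆ L → sdim Z = d → (¬ ∃ x ∈ Z, InCh ς x) →
      cS Z ∈ N) :
    LinkOn I fun p => ∀ Z : Sub k S, (∃ x ∈ Z, InCh ς x) → ctr B Z ς = p → sdim Z = d →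
      cS Z ∈ N := by
  rintro p' g p hp' hI' hg hp hr Z hZ rfl hd
  obtain ⟨Z', a1, rfl⟩ := ctr_down hZ hp' (le_sup_left.trans hp.1.2) fun i => hI' (h1 i)
  have hZ' := E1_ch hZ a1
  have hL := hI Z' hZ' hI'
  obtain ⟨G, a, hF, hh⟩ := homog ς (MvPolynomial.map (algebraMap B k) g)
  have key : ∀ T : Sub k S, (∃ x ∈ T, InCh ς x) →
      (Van (T : Set (S.Pt k)) G ↔ g ∈ ctr B T ς) := fun T hT =>
    (mem_chI_form hT hF).symm.trans (mem_chI_congr hh)
  have b1 : ¬ Van (Z' : Set (S.Pt k)) G := mt (key Z' hZ').1 hg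
  have b2 : Van (Z : Set (S.Pt k)) G :=
    (key Z hZ).2 (hp.1.2 (Ideal.mem_sup_right (Ideal.mem_span_singleton_self g)))
  have b3 : sdim Z + 1 = sdim Z' := by
    obtain ⟨T, c1, c2, c3, c4⟩ := krg a1 hF b1 b2
    have hT := E1_ch hZ c1
    have c5 := hp.2 ⟨ctr_prime hT, sup_le (ctr_anti c2)
      ((Ideal.span_singleton_le_iff_mem _).2 ((key T hT).1 c3))⟩ (ctr_anti c1)
    rw [ctr_eq hZ c1 (le_antisymm (ctr_anti c1) c5)]
    exact c4
  have hm : ∀ T : Sub k S, Van (T : Set (S.Pt k)) (mono ς a) → ¬ ∃ x ∈ T, InCh ς x :=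
    fun T hT ⟨x, hx, hx'⟩ => Noeth.ev_mono_ne hx' a (hT x hx)
  have hfm : ∀ {f : MvPolynomial S.V k}, IsForm f a → Fm [f] := fun hf f' h' =>
    ⟨a, List.mem_singleton.1 h' ▸ hf⟩
  have b4 : cut [mono ς a] (cS Z') ∈ N :=
    Sp_map LinearMap.id N (fun T hT => hb T (fun x hx => hL (hT.1 hx))
      (by have := hT.2.1; rw [List.length_singleton] at this; omega)
      (hm T (hT.2.2 _ (List.mem_singleton_self _)))) (cut_mem (hfm (mono_form ς a)) Z')
  have b5 : cut [G] (cS Z') ∈ N := by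
    have := N.add_mem (hR (pencil hL hF (mono_form ς a) b1 fun h => hm Z' h hZ')) b4
    rwa [sub_add_cancel] at this
  refine pos_mem N (cut_mem (hfm hF) Z') (fun q => ?_) (G3_cut hF b1 a1 b2 b3).2 b5 fun T hT => ?_
  · by_cases hq : Rel q
    · rw [cut_rel _ _ hq, cS, ← mult_eq]
      exact mult_nonneg _ _ _
    · rw [cut_not_rel _ _ hq]
  · obtain ⟨c1, c2, c3⟩ := hT
    rw [List.length_singleton] at c2
    have c4 : sdim T = d := by omega
    by_cases hT : ∃ x ∈ T, InCh ς x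
    swap
    · exact Or.inl (hb T (fun x hx => hL (c1 hx)) c4 hT)
    by_cases e : ctr B T ς = ctr B Z ς
    · obtain ⟨σ, rfl⟩ := ctr_conj hZ hT e.symm
      exact Or.inr (hG σ Z (fun x hx => hL (a1 hx)) hd)
    · exact Or.inl (hr _ (geo_min hT c1 c2 hg
        ((key T hT).1 (c3 _ (List.mem_singleton_self _)))) e T hT rfl c4)

end Pool.Agent.Work.MP_10f4af_ag
end

-- merged part: Pool.Agent.Work.MP_10f4af_ag.VG.A2
section
/-!
# Linkage for equations which are linear in the parameters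

Pure commutative algebra.  `C` is a ring, `Λ` a matrix over `C`, and `lin Λ` is the ideal of
`C[A]` generated by the linear forms `∑ a, Λ j a * A a`.

Plan.  `exists_full`: `q` is the kernel of `ψ : C[A] → (C ⧸ w)[T]`,
`A a ↦ δ T a - ∑ a', (B * Λ) a a' T a'` (`eval₂Hom`).  It contains `lin Λ` because
`Λ * (δ - B * Λ) = 0`.  For a prime `p` as in the statement, the map `(C ⧸ w)[T] → κ(p)`,
`T a ↦ A a / δ`, composed with `ψ` is the canonical map to `p.ResidueField`.
`exists_fact`: take a basis of the range of the idempotent `toLin' N`.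
`RF_fibre`: `F = w.ResidueField`, `N = 1 - δ⁻¹ • (B * Λ)` over `F` is idempotent with `Λ * N = 0`,
`N = κ * s`, `s * κ = 1`; `θ : C[A] → F[T]`, `A a ↦ ∑ t, κ a t * T t`.  `LQ θ`: the elements of the
form `θ g / θ (C c)`, `c ∉ w`, form a subring which contains the constants and
`T t = ∑ a, s t a * θ (A a)`.  For a prime `r ⊇ lin Λ` with contraction `w`, `θ` followed by
`T t ↦ ∑ a, s t a * A a` (and `F → κ(r)`, `Ideal.ResidueField.map`) is the canonical map to `κ(r)`.
`RF_step`: `link_comap` for this `θ` with `I' = ⊥`, `AFF_mv`, `A1_lift`.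
`RF_full`: apply `hC` to `fun w => ∀ q, Full Λ q → q.comap C = w → Nice Λ q → Good q`.  For `w = ⊥`
a full prime is minimal over `lin Λ`.  Link: `q' ≤ q` full over `w'` by `exists_full`; `q` is
minimal over `q' ⊔ span {C g}`; another minimal prime `r` is either not nice (`bad`), or, with
`u ≤ r.comap C` minimal over `w' ⊔ span {g}` (`Ideal.exists_minimalPrimes_le`) and `exists_full`
for the data of `r`, equal to the full prime over `u` (which contains `q'` by the last clause of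
`exists_full` for the data of `r` over `w'`, and uniqueness of full primes), and `u ≠ w`.
`RF`: Noetherian induction on the contraction, larger first.
-/

open MvPolynomial

namespace Pool.Agent.Work.MP_10f4af_ag

universe u

variable {R : Type u} [CommRing R] {α J : Type} [Fintype α] [Fintype J] [DecidableEq J]

/-- The ideal of the linear equations. -/
noncomputable def lin (Λ : Matrix J α R) : Ideal (MvPolynomial α R) :=
  Ideal.span (Set.range fun j => ∑ a, C (Λ j a) * X a)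

/-- The matrix is onto at the prime `p`. -/
def Nice (Λ : Matrix J α R) (p : Ideal (MvPolynomial α R)) : Prop :=
  ∃ (B : Matrix α J R) (δ : R), C δ ∉ p ∧ Λ * B = δ • (1 : Matrix J J R)

/-- `q` is the least prime which contains the equations and has the same contraction. -/
def Full (Λ : Matrix J α R) (q : Ideal (MvPolynomial α R)) : Prop :=
  q.IsPrime ∧ lin Λ ≤ q ∧ ∀ r : Ideal (MvPolynomial α R), r.IsPrime → lin Λ ≤ r →
    r.comap C = q.comap C → q ≤ r

omit [Fintype J] [DecidableEq J] in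
theorem A2_lin {Λ : Matrix J α R} {p : Ideal (MvPolynomial α R)} [p.IsPrime] (hl : lin Λ ≤ p)
    (j : J) : ∑ a, algebraMap (MvPolynomial α R) p.ResidueField (C (Λ j a)) *
      algebraMap (MvPolynomial α R) p.ResidueField (X a) = 0 := by
  have : ∑ a, C (Λ j a) * X a ∈ p := hl (Ideal.subset_span ⟨j, rfl⟩)
  have h2 := Ideal.algebraMap_residueField_eq_zero.mpr this
  simpa only [map_sum, map_mul] using h2

omit [DecidableEq J] in
theorem A2_BL {Λ : Matrix J α R} {B : Matrix α J R} {p : Ideal (MvPolynomial α R)} [p.IsPrime]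
    (hl : lin Λ ≤ p) (a : α) :
    ∑ a', algebraMap (MvPolynomial α R) p.ResidueField (C ((B * Λ) a a')) *
      algebraMap (MvPolynomial α R) p.ResidueField (X a') = 0 := by
  simp only [Matrix.mul_apply, map_sum, map_mul, Finset.sum_mul]
  rw [Finset.sum_comm]
  refine Finset.sum_eq_zero fun j _ => ?_
  simp only [mul_assoc, ← Finset.mul_sum, A2_lin hl j, mul_zero]

theorem exists_full {Λ : Matrix J α R} {B : Matrix α J R} {δ : R}
    (h : Λ * B = δ • (1 : Matrix J J R)) (w : Ideal R) [w.IsPrime] :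
    ∃ q : Ideal (MvPolynomial α R), q.IsPrime ∧ lin Λ ≤ q ∧ q.comap C = w ∧
      ∀ p : Ideal (MvPolynomial α R), p.IsPrime → lin Λ ≤ p → w ≤ p.comap C → C δ ∉ p →
        q ≤ p := by
  classical
  let π := Ideal.Quotient.mk w
  let ψ : MvPolynomial α R →+* MvPolynomial α (R ⧸ w) :=
    eval₂Hom (C.comp π) fun a => C (π δ) * X a - ∑ a', C (π ((B * Λ) a a')) * X a'
  have hC : ∀ c, ψ (C c) = C (π c) := fun c => by simp [ψ]
  have hX : ∀ a, ψ (X a) = C (π δ) * X a - ∑ a', C (π ((B * Λ) a a')) * X a' :=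
    fun a => by simp only [ψ, eval₂Hom_X']
  refine ⟨RingHom.ker ψ, RingHom.ker_isPrime ψ, ?_, ?_, ?_⟩
  · rw [lin, Ideal.span_le]
    rintro _ ⟨j, rfl⟩
    have e : ∀ a', ∑ a, Λ j a * (B * Λ) a a' = δ * Λ j a' := fun a' => by
      have : (Λ * (B * Λ)) j a' = δ * Λ j a' := by
        rw [← Matrix.mul_assoc, h]
        simp
      rw [← this, Matrix.mul_apply]
    simp only [SetLike.mem_coe, RingHom.mem_ker, map_sum, map_mul, hC, hX, mul_sub,
      Finset.sum_sub_distrib, Finset.mul_sum]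
    rw [Finset.sum_comm, sub_eq_zero]
    refine Finset.sum_congr rfl fun a' _ => ?_
    have e' := congrArg (fun c => (C (π c) : MvPolynomial α (R ⧸ w)) * X a') (e a')
    simp only [map_sum, map_mul, Finset.sum_mul] at e'
    simp only [← mul_assoc]
    rw [e']
    ring
  · ext c
    simp only [Ideal.mem_comap, RingHom.mem_ker, hC, C_eq_zero, π, Ideal.Quotient.eq_zero_iff_mem]
  · intro p hp hl hw hδ
    let ι := algebraMap (MvPolynomial α R) p.ResidueField
    have hd : ι (C δ) ≠ 0 := fun e => hδ (Ideal.algebraMap_residueField_eq_zero.mp e)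
    let φ0 : R ⧸ w →+* p.ResidueField := Ideal.Quotient.lift w (ι.comp C)
      fun c hc => Ideal.algebraMap_residueField_eq_zero.mpr (hw hc)
    have h0 : ∀ c, φ0 (π c) = ι (C c) := fun c => rfl
    let φ : MvPolynomial α (R ⧸ w) →+* p.ResidueField :=
      eval₂Hom φ0 fun a => ι (X a) * (ι (C δ))⁻¹
    have hφ : φ.comp ψ = ι := by
      refine MvPolynomial.ringHom_ext (fun c => ?_) fun a => ?_
      · simp only [RingHom.comp_apply, hC, φ, eval₂Hom_C, h0]
      · have e := A2_BL (B := B) hl a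
        simp only [RingHom.comp_apply, hX, φ, map_sub, map_mul, map_sum, eval₂Hom_C, eval₂Hom_X',
          h0, ← mul_assoc, ← Finset.sum_mul]
        rw [e, zero_mul, sub_zero, mul_right_comm, mul_inv_cancel₀ hd, one_mul]
    intro x hx
    have : ι x = 0 := by rw [← hφ, RingHom.comp_apply, RingHom.mem_ker.mp hx, map_zero]
    exact Ideal.algebraMap_residueField_eq_zero.mp this

theorem exists_fact {F : Type u} [Field F] [DecidableEq α] {N : Matrix α α F} (h : N * N = N) :
    ∃ (n : ℕ) (κ : Matrix α (Fin n) F) (s : Matrix (Fin n) α F), κ * s = N ∧ s * κ = 1 := by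
  let f : (α → F) →ₗ[F] (α → F) := Matrix.toLin' N
  have hf : f ∘ₗ f = f := by simp only [f, ← Matrix.toLin'_mul, h]
  let b := Module.finBasis F (LinearMap.range f)
  refine ⟨_, LinearMap.toMatrix b (Pi.basisFun F α) (LinearMap.range f).subtype,
    LinearMap.toMatrix (Pi.basisFun F α) b f.rangeRestrict, ?_, ?_⟩
  · rw [← LinearMap.toMatrix_comp]
    have : (LinearMap.range f).subtype ∘ₗ f.rangeRestrict = f := rfl
    rw [this, LinearMap.toMatrix_eq_toMatrix']
    exact LinearMap.toMatrix'_toLin' N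
  · rw [← LinearMap.toMatrix_comp]
    have : f.rangeRestrict ∘ₗ (LinearMap.range f).subtype = LinearMap.id := by
      refine LinearMap.ext fun x => Subtype.ext ?_
      obtain ⟨_, y, rfl⟩ := x
      exact LinearMap.congr_fun hf y
    rw [this, LinearMap.toMatrix_id]

theorem A2_sub {R' : Type u} [CommRing R'] (θ : R →+* R') :
    ∃ S : Subring R', ∀ y, y ∈ S ↔ ∃ g c, IsUnit (θ c) ∧ y * θ c = θ g := by
  refine ⟨{ carrier := {y | ∃ g c, IsUnit (θ c) ∧ y * θ c = θ g}
            mul_mem' := ?_, one_mem' := ⟨1, 1, by simp, by simp⟩, add_mem' := ?_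
            zero_mem' := ⟨0, 1, by simp, by simp⟩, neg_mem' := ?_ }, fun y => Iff.rfl⟩
  · rintro x y ⟨g, c, hc, e⟩ ⟨g', c', hc', e'⟩
    refine ⟨g * g', c * c', by rw [map_mul]; exact hc.mul hc', ?_⟩
    rw [map_mul, map_mul, ← e, ← e']
    ring
  · rintro x y ⟨g, c, hc, e⟩ ⟨g', c', hc', e'⟩
    refine ⟨g * c' + g' * c, c * c', by rw [map_mul]; exact hc.mul hc', ?_⟩
    rw [map_add, map_mul, map_mul, map_mul, ← e, ← e']
    ring
  · rintro x ⟨g, c, hc, e⟩
    exact ⟨-g, c, hc, by rw [map_neg, ← e, neg_mul]⟩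

theorem RF_fibre {Λ : Matrix J α R} {B : Matrix α J R} {δ : R}
    (h : Λ * B = δ • (1 : Matrix J J R)) (w : Ideal R) [w.IsPrime] (hδ : δ ∉ w) :
    ∃ (n : ℕ) (θ : MvPolynomial α R →+* MvPolynomial (Fin n) w.ResidueField), LQ θ ∧
      lin Λ ≤ RingHom.ker θ ∧ (RingHom.ker θ).comap C = w ∧
      ∀ r : Ideal (MvPolynomial α R), r.IsPrime → lin Λ ≤ r → r.comap C = w →
        RingHom.ker θ ≤ r ∧ ∀ c ∈ r, ¬ IsUnit (θ c) := by
  classical
  let ι := algebraMap R w.ResidueField
  have hd : ι δ ≠ 0 := fun e => hδ (Ideal.algebraMap_residueField_eq_zero.mp e)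
  have h' : Λ.map ι * B.map ι = ι δ • (1 : Matrix J J w.ResidueField) := by
    rw [← Matrix.map_mul, h]
    ext i j
    by_cases e : i = j <;> simp [e]
  obtain ⟨N, hN⟩ : ∃ N : Matrix α α w.ResidueField,
      N = 1 - (ι δ)⁻¹ • (B.map ι * Λ.map ι) := ⟨_, rfl⟩
  have hΛN : Λ.map ι * N = 0 := by
    rw [hN, Matrix.mul_sub, Matrix.mul_one, Matrix.mul_smul, ← Matrix.mul_assoc, h',
      Matrix.smul_mul, Matrix.one_mul, smul_smul, inv_mul_cancel₀ hd, one_smul, sub_self]
  have hNN : N * N = N := by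
    nth_rewrite 1 [hN]
    rw [Matrix.sub_mul, Matrix.one_mul, Matrix.smul_mul, Matrix.mul_assoc, hΛN, Matrix.mul_zero,
      smul_zero, sub_zero]
  obtain ⟨n, κ, s, hκs, hsκ⟩ := exists_fact hNN
  have hΛκ : Λ.map ι * κ = 0 := by
    rw [← Matrix.mul_one κ, ← hsκ, ← Matrix.mul_assoc κ, hκs, ← Matrix.mul_assoc, hΛN,
      Matrix.zero_mul]
  let θ : MvPolynomial α R →+* MvPolynomial (Fin n) w.ResidueField :=
    eval₂Hom (C.comp ι) fun a => ∑ t, C (κ a t) * X t
  have hC : ∀ c, θ (C c) = C (ι c) := fun c => by simp [θ]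
  have hX : ∀ a, θ (X a) = ∑ t, C (κ a t) * X t := fun a => by simp only [θ, eval₂Hom_X']
  have hmul : ∀ {T : Type} (M : Matrix T α w.ResidueField) (i : T),
      ∑ a, C (M i a) * θ (X a) = ∑ t, C ((M * κ) i t) * X t := fun M i => by
    simp only [hX, Finset.mul_sum, Matrix.mul_apply, map_sum, map_mul, Finset.sum_mul, mul_assoc]
    exact Finset.sum_comm
  refine ⟨n, θ, ?_, ?_, ?_, ?_⟩
  · obtain ⟨S, hS⟩ := A2_sub θ
    have hc : ∀ x : w.ResidueField, C x ∈ S := fun x => by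
      obtain ⟨a, b, hb, rfl⟩ := IsFractionRing.div_surjective (A := R ⧸ w) x
      obtain ⟨a, rfl⟩ := Ideal.Quotient.mk_surjective a
      obtain ⟨b, rfl⟩ := Ideal.Quotient.mk_surjective b
      have hb' : ι b ≠ 0 := fun e => nonZeroDivisors.ne_zero hb
        (Ideal.Quotient.eq_zero_iff_mem.mpr (Ideal.algebraMap_residueField_eq_zero.mp e))
      refine (hS _).mpr ⟨C a, C b, ?_, ?_⟩
      · rw [hC]
        exact (IsUnit.mk0 _ hb').map C
      · rw [hC, hC, ← map_mul]
        exact congrArg C (div_mul_cancel₀ (ι a) hb')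
    have hθ : ∀ g, θ g ∈ S := fun g => (hS _).mpr ⟨g, 1, by simp, by simp⟩
    have hx : ∀ t, X t ∈ S := fun t => by
      have : (X t : MvPolynomial (Fin n) w.ResidueField) = ∑ a, C (s t a) * θ (X a) := by
        rw [hmul, hsκ, Finset.sum_eq_single t]
        · simp
        · intro t' _ ht
          simp [Matrix.one_apply_ne ht.symm]
        · simp
      rw [this]
      exact S.sum_mem fun a _ => S.mul_mem (hc _) (hθ _)
    intro y
    refine (hS y).mp ?_
    induction y using MvPolynomial.induction_on with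
    | C a => exact hc a
    | add p q hp hq => exact S.add_mem hp hq
    | mul_X p t hp => exact S.mul_mem hp (hx t)
  · rw [lin, Ideal.span_le]
    rintro _ ⟨j, rfl⟩
    have e := hmul (Λ.map ι) j
    rw [hΛκ] at e
    simp only [SetLike.mem_coe, RingHom.mem_ker, map_sum, map_mul, hC]
    simpa using e
  · ext c
    simp only [Ideal.mem_comap, RingHom.mem_ker, hC, C_eq_zero, ι,
      Ideal.algebraMap_residueField_eq_zero]
  · intro r hr hl hw
    let ρ := algebraMap (MvPolynomial α R) r.ResidueField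
    let φ0 : w.ResidueField →+* r.ResidueField := Ideal.ResidueField.map w r C hw.symm
    have h0 : ∀ c, φ0 (ι c) = ρ (C c) := fun c =>
      Ideal.ResidueField.map_algebraMap w r C hw.symm c
    let φ : MvPolynomial (Fin n) w.ResidueField →+* r.ResidueField :=
      eval₂Hom φ0 fun t => ∑ a, φ0 (s t a) * ρ (X a)
    have hφ : φ.comp θ = ρ := by
      refine MvPolynomial.ringHom_ext (fun c => ?_) fun a => ?_
      · simp only [RingHom.comp_apply, hC, φ, eval₂Hom_C, h0]
      · have e := A2_BL (B := B) hl a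
        have e1 : φ (θ (X a)) = ∑ a', φ0 (N a a') * ρ (X a') := by
          simp only [hX, φ, map_mul, map_sum, eval₂Hom_C, eval₂Hom_X', Finset.mul_sum, ← hκs,
            Matrix.mul_apply, Finset.sum_mul, mul_assoc]
          exact Finset.sum_comm
        have e2 : ∀ a', φ0 (N a a') = (if a = a' then 1 else 0) -
            φ0 (ι δ)⁻¹ * ρ (C ((B * Λ) a a')) := fun a' => by
          rw [hN, ← Matrix.map_mul, Matrix.sub_apply, Matrix.smul_apply, Matrix.map_apply,
            smul_eq_mul, map_sub, map_mul, h0, Matrix.one_apply]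
          split_ifs <;> simp
        rw [RingHom.comp_apply, e1]
        simp only [e2, sub_mul, Finset.sum_sub_distrib, mul_assoc, ← Finset.mul_sum]
        rw [e, mul_zero, sub_zero]
        simp
    have hk : ∀ c, φ (θ c) = 0 ↔ c ∈ r := fun c => by
      rw [← RingHom.comp_apply, hφ]
      exact Ideal.algebraMap_residueField_eq_zero
    refine ⟨fun x hx => (hk x).mp (by rw [RingHom.mem_ker.mp hx, map_zero]), fun c hc hu => ?_⟩
    exact (hu.map φ).ne_zero ((hk c).mpr hc)

variable {Λ : Matrix J α R} {Good : Ideal (MvPolynomial α R) → Prop}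

theorem RF_step (hl : LinkOn (lin Λ) Good) {p : Ideal (MvPolynomial α R)} (hp : p.IsPrime)
    (hp' : lin Λ ≤ p) (hn : Nice Λ p)
    (h1 : ∀ q, Full Λ q → q.comap C = p.comap C → Good q)
    (h2 : ∀ r : Ideal (MvPolynomial α R), r.IsPrime → lin Λ ≤ r → p.comap C < r.comap C →
      Good r) : Good p := by
  obtain ⟨B, δ, hδ, h⟩ := hn
  have : (p.comap (C : R →+* MvPolynomial α R)).IsPrime := Ideal.comap_isPrime _ _
  obtain ⟨n, θ, hθ, hk, hw, hr⟩ := RF_fibre h (p.comap C) hδ
  have hb : (⊥ : Ideal _).comap θ = RingHom.ker θ := (RingHom.ker_eq_comap_bot θ).symm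
  have hl' : LinkOn ⊥ fun P => Good (P.comap θ) := by
    refine link_comap hθ (hb ▸ hk) hl fun r hr' hkr ⟨c, hc, hu⟩ => ?_
    rw [hb] at hkr
    refine h2 r hr' (hk.trans hkr) (lt_of_le_of_ne ?_ fun e => ?_)
    · rw [← hw]
      exact Ideal.comap_mono hkr
    · exact (hr r hr' (hk.trans hkr) e.symm).2 c hc hu
  have h0 : Good ((⊥ : Ideal _).comap θ) := by
    rw [hb]
    exact h1 _ ⟨RingHom.ker_isPrime θ, hk, fun r hr' hlr e => (hr r hr' hlr (e.trans hw)).1⟩ hw
  obtain ⟨P, hP, e⟩ := A1_lift hθ hp (hr p hp hp' rfl).1 (hr p hp hp' rfl).2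
  have := AFF_mv _ (Fin n) _ hl' h0 P hP
  rwa [e] at this

theorem RF_full [IsNoetherianRing R] [IsDomain R] (hC : AFF R) (hl : LinkOn (lin Λ) Good)
    (bad : ∀ p : Ideal (MvPolynomial α R), p.IsPrime → lin Λ ≤ p → ¬ Nice Λ p → Good p)
    (top : ∀ p ∈ (lin Λ).minimalPrimes, Good p) {q : Ideal (MvPolynomial α R)} (hq : Full Λ q) :
    Good q := by
  by_cases hn : Nice Λ q
  swap
  · exact bad q hq.1 hq.2.1 hn
  have hq1 := hq.1
  refine hC (fun w => ∀ q, Full Λ q → q.comap C = w → Nice Λ q → Good q) ?_ ?_ (q.comap C)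
    (Ideal.comap_isPrime _ _) q hq rfl hn
  · rintro w' g w hw' - hg hw hu q hq rfl ⟨B, δ, hδ, h⟩
    have hq1 := hq.1
    have hle : w' ≤ q.comap C := le_sup_left.trans hw.1.2
    have hgq : C g ∈ q := hw.1.2 (Ideal.mem_sup_right (Ideal.mem_span_singleton_self g))
    obtain ⟨q', hq', hl', hc', hm'⟩ := exists_full h w'
    have hsup : ∀ r : Ideal (MvPolynomial α R), q' ⊔ Ideal.span {C g} ≤ r →
        w' ⊔ Ideal.span {g} ≤ r.comap C := fun r hr => by
      refine sup_le ?_ ?_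
      · rw [← hc']
        exact Ideal.comap_mono (le_sup_left.trans hr)
      · rw [Ideal.span_singleton_le_iff_mem]
        exact hr (Ideal.mem_sup_right (Ideal.mem_span_singleton_self _))
    refine hl q' (C g) q hq' hl' (fun e => hg (hc' ▸ e)) ⟨⟨hq.1, sup_le (hm' q hq.1 hq.2.1 hle hδ)
      ((Ideal.span_singleton_le_iff_mem _).mpr hgq)⟩, fun r hr hrq => ?_⟩ fun r hr hne => ?_
    · have hr1 := hr.1
      refine hq.2.2 r hr.1 (hl'.trans (le_sup_left.trans hr.2))
        (le_antisymm (Ideal.comap_mono hrq) ?_)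
      exact hw.2 ⟨Ideal.comap_isPrime _ _, hsup r hr.2⟩ (Ideal.comap_mono hrq)
    · have hr1 : r.IsPrime := hr.1.1
      have hlr : lin Λ ≤ r := hl'.trans (le_sup_left.trans hr.1.2)
      by_cases hn : Nice Λ r
      swap
      · exact bad r hr1 hlr hn
      obtain ⟨B₂, δ₂, hδ₂, h₂⟩ := id hn
      have : (r.comap (C : R →+* MvPolynomial α R)).IsPrime := Ideal.comap_isPrime _ _
      obtain ⟨v, hv, hvr⟩ := Ideal.exists_minimalPrimes_le (hsup r hr.1.2)
      have hv1 : v.IsPrime := hv.1.1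
      obtain ⟨q₂, hq₂, hl₂, hc₂, hm₂⟩ := exists_full h₂ v
      obtain ⟨q₃, hq₃, hl₃, hc₃, hm₃⟩ := exists_full h₂ w'
      have h2r : q₂ ≤ r := hm₂ r hr1 hlr hvr hδ₂
      have h32 : q₃ ≤ q₂ :=
        hm₃ q₂ hq₂ hl₂ (hc₂ ▸ le_sup_left.trans hv.1.2) fun e => hδ₂ (h2r e)
      have h3 : q' ≤ q₃ := hm' q₃ hq₃ hl₃ hc₃.ge fun e => hδ (hle (hc₃ ▸ e))
      have hg2 : C g ∈ q₂ := by
        have : g ∈ q₂.comap C :=
          hc₂ ▸ hv.1.2 (Ideal.mem_sup_right (Ideal.mem_span_singleton_self g))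
        exact this
      have e : r = q₂ := le_antisymm (hr.2 ⟨hq₂, sup_le (h3.trans h32)
        ((Ideal.span_singleton_le_iff_mem _).mpr hg2)⟩ h2r) h2r
      subst e
      have hf : Full Λ r := ⟨hr1, hlr, fun r' hr' hlr' e' => hm₂ r' hr' hlr' (e'.trans hc₂).ge
        fun e'' => hδ₂ (show δ₂ ∈ r.comap C from e' ▸ e'')⟩
      refine hu v hv (fun e' => hne ?_) r hf hc₂ hn
      exact le_antisymm (hf.2.2 q hq.1 hq.2.1 (e'.symm.trans hc₂.symm))
        (hq.2.2 r hr1 hlr (hc₂.trans e'))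
  · intro q hq hw _
    refine top q ⟨⟨hq.1, hq.2.1⟩, fun r hr hrq => hq.2.2 r hr.1 hr.2 (le_antisymm
      (Ideal.comap_mono hrq) ?_)⟩
    rw [hw]
    exact bot_le

theorem RF [IsNoetherianRing R] [IsDomain R] (hC : AFF R) (hl : LinkOn (lin Λ) Good)
    (bad : ∀ p : Ideal (MvPolynomial α R), p.IsPrime → lin Λ ≤ p → ¬ Nice Λ p → Good p)
    (top : ∀ p ∈ (lin Λ).minimalPrimes, Good p) (p : Ideal (MvPolynomial α R)) (hp : p.IsPrime)
    (hp' : lin Λ ≤ p) : Good p := by
  have key : ∀ w : Ideal R, ∀ p : Ideal (MvPolynomial α R), p.IsPrime → lin Λ ≤ p →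
      p.comap C = w → Good p := by
    intro w
    induction w using IsNoetherian.induction with
    | hgt w ih =>
      rintro p hp hp' rfl
      by_cases hn : Nice Λ p
      · exact RF_step hl hp hp' hn (fun q hq _ => RF_full hC hl bad top hq)
          fun r hr hr' hlt => ih _ hlt r hr hr' rfl
      · exact bad p hp hp' hn
  exact key _ p hp hp' rfl

end Pool.Agent.Work.MP_10f4af_ag
end

-- merged part: Pool.Agent.Work.MP_10f4af_ag.VG.E2
section
/-!
# Cycles on a variety with generic equations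

The equations are `∑ a, A a * Λ j a`, where the parameters `A a` are the images of the variables of
`B = MvPolynomial α k₀` in `k`.

Plan.  `exists_cell`: `τ = {s // s ∉ U ∧ s ≠ ⟨s.1, ς s.1⟩}`; `π` sends `X s` to `X ⟨s, _⟩`, `0` (for
`s ∈ U`) or `1`; `θ = eval₂Hom (map C : MvPolynomial α k₀ →+* _) (fun s => C (π (X s)))`.  With the
obvious map `j` in the other direction, `θ ∘ j = id` and `h - j (θ h) ∈ q` for all `h` (compare two
ring maps to the quotient by `q`, `MvPolynomial.ringHom_ext`).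
`det_form`: `Matrix.det_apply`, products and sums of forms of the same degree
(`IsWeightedHomogeneous.sum`, `.prod`).
`nice_of`: `exists_col`, `det_form`; `B = sel * adjugate` with `sel a j = if col j = a then 1 else 0`,
`Λ * sel = Λ.submatrix id col`, `Matrix.mul_adjugate`; `RingHom.map_det`, `ev_eq`.
`LK_cell`: let `I` be spanned by the `eqB Λ j`, the `X ⟨i, ς i⟩ - 1` and the `X s`, `s ∈ U`, and
`L = {z ∈ Y | ∀ s ∈ U, ev z (X s) = 0}`.  `geo_link` (`Rt_mono`, `ctr_form`), then `link_comap` for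
`θ` (`LQ` with `c = 1`; a prime which contains `ker θ` has no `c` with `θ c` a unit) and
`I' = lin (Λ.map π)`, then `RF` with `AFF_mv`.  Case `bad`: `nice_of` mapped by `π`.  Case `top`:
for `Z ≤ T` lift `ctr _ T ς` by `A1_lift`, compare by `A1_le`, `ctr_anti`, and use `ctr_eq`.
`LK`: prove the statement for all `Z` with `∀ s ∈ U, Van Z (X s)` by well-founded induction on
`U : Set S.V`, larger first (`Finite.to_wellFoundedGT`); if `U` is exactly the set of the
coordinates which vanish on `Z`, take a chart from `mono_not_van` and use `exists_inCh_iff`,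
`LK_cell`, and the induction hypothesis for `insert ⟨i, ς i⟩ U`.
-/

open MvPolynomial Topology TopologicalSpace Finsupp

namespace Pool.Agent.Work.MP_10f4af_ag

open MP_ffcd14_ag hiding len vl cyc pl Weil idl_hmg mem_idl idl_prime idl_le_iff lin

universe u

variable {k : Type u} [Field k] {S : Amb} {k₀ : Type u} [Field k₀] {α J : Type}

theorem exists_cell (k₀ : Type u) [Field k₀] (α : Type) (U : Set S.V) (ς : ∀ i, S.σ i)
    (h : ∀ i, (⟨i, ς i⟩ : S.V) ∉ U) :
    ∃ (τ : Type) (_ : Finite τ) (π : MvPolynomial S.V k₀ →+* MvPolynomial τ k₀)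
      (θ : MvPolynomial S.V (MvPolynomial α k₀) →+* MvPolynomial α (MvPolynomial τ k₀)),
      Function.Surjective θ ∧ (∀ f, θ (MvPolynomial.map C f) = C (π f)) ∧
      (∀ a, θ (C (X a)) = X a) ∧ (∀ i, θ (X ⟨i, ς i⟩ - 1) = 0) ∧ (∀ s ∈ U, θ (X s) = 0) ∧
      ∀ q : Ideal (MvPolynomial S.V (MvPolynomial α k₀)), (∀ i, X ⟨i, ς i⟩ - 1 ∈ q) →
        (∀ s ∈ U, X s ∈ q) → RingHom.ker θ ≤ q := by
  classical
  obtain ⟨v, hv⟩ : ∃ v : S.V → MvPolynomial {s : S.V // s ∉ U ∧ s ≠ ⟨s.1, ς s.1⟩} k₀,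
      ∀ s, v s = if h : s ∉ U ∧ s ≠ ⟨s.1, ς s.1⟩ then X ⟨s, h⟩ else if s ∈ U then 0 else 1 :=
    ⟨_, fun _ => rfl⟩
  have v0 : ∀ s ∈ U, v s = 0 := fun s hs => by rw [hv, dif_neg fun e => e.1 hs, if_pos hs]
  have v1 : ∀ i, v ⟨i, ς i⟩ = 1 := fun i => by rw [hv, dif_neg fun e => e.2 rfl, if_neg (h i)]
  have v2 : ∀ t : {s : S.V // s ∉ U ∧ s ≠ ⟨s.1, ς s.1⟩}, v t.1 = X t := fun t => by
    rw [hv, dif_pos t.2]
  let θ : MvPolynomial S.V (MvPolynomial α k₀) →+* MvPolynomial α (MvPolynomial _ k₀) :=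
    eval₂Hom (MvPolynomial.map C) fun s => C (v s)
  let j : MvPolynomial α (MvPolynomial {s : S.V // s ∉ U ∧ s ≠ ⟨s.1, ς s.1⟩} k₀) →+*
      MvPolynomial S.V (MvPolynomial α k₀) :=
    eval₂Hom (eval₂Hom (C.comp C) fun t => X t.1) fun a => C (X a)
  have e1 : θ.comp j = RingHom.id _ :=
    MvPolynomial.ringHom_ext' (MvPolynomial.ringHom_ext (fun c => by simp [θ, j])
      fun t => by simp [θ, j, v2]) fun a => by simp [θ, j]
  have e2 : θ.comp (MvPolynomial.map C) = C.comp (eval₂Hom C v) :=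
    MvPolynomial.ringHom_ext (fun c => by simp [θ]) fun s => by simp [θ]
  refine ⟨_, inferInstance, eval₂Hom C v, θ, fun y => ⟨j y, RingHom.congr_fun e1 y⟩,
    RingHom.congr_fun e2, fun a => by simp [θ], fun i => by simp [θ, v1],
    fun s hs => by simp [θ, v0 s hs], fun q q1 q0 x hx => ?_⟩
  have e3 : (Ideal.Quotient.mk q).comp (j.comp θ) = Ideal.Quotient.mk q := by
    refine MvPolynomial.ringHom_ext' (MvPolynomial.ringHom_ext (fun c => by simp [θ, j])
      fun a => by simp [θ, j]) fun s => ?_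
    have : j (θ (X s)) = eval₂Hom (C.comp C) (fun t => X t.1) (v s) := by simp [θ, j]
    rw [RingHom.comp_apply, RingHom.comp_apply, this, eq_comm, Ideal.Quotient.eq]
    by_cases hs : s ∈ U
    · rw [v0 s hs, map_zero, sub_zero]
      exact q0 s hs
    by_cases hs' : s = ⟨s.1, ς s.1⟩
    · rw [hs', v1, map_one]
      exact q1 _
    · rw [v2 ⟨s, hs, hs'⟩, eval₂Hom_X', sub_self]
      exact q.zero_mem
  rw [← Ideal.Quotient.eq_zero_iff_mem, ← e3, RingHom.comp_apply, RingHom.comp_apply,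
    RingHom.mem_ker.1 hx, map_zero, map_zero]

variable [Fintype α] [Fintype J] [DecidableEq J]

theorem det_form {A : Matrix J J (MvPolynomial S.V k)} {e : J → S.ι →₀ ℕ}
    (h : ∀ j j', IsForm (A j j') (e j)) : IsForm A.det (∑ j, e j) := by
  rw [Matrix.det_apply]
  refine IsWeightedHomogeneous.sum _ _ _ fun σ _ => ?_
  have h1 : IsForm (∏ j, A (σ j) j) (∑ j, e j) := by
    rw [← Equiv.sum_comp σ e]
    exact IsWeightedHomogeneous.prod _ _ _ fun j _ => h _ _
  rcases Int.units_eq_one_or (Equiv.Perm.sign σ) with h2 | h2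
  · rwa [h2, one_smul]
  · rw [h2, Units.neg_smul, one_smul]
    exact IsWeightedHomogeneous.neg h1

theorem nice_of (κ : k₀ →+* k) (Λ : Matrix J α (MvPolynomial S.V k₀)) {e : J → S.ι →₀ ℕ}
    (hΛ : ∀ j a, IsForm (MvPolynomial.map κ (Λ j a)) (e j)) {z : S.Pt k}
    (h : LinearIndependent k fun j a => ev z (MvPolynomial.map κ (Λ j a))) :
    ∃ (B : Matrix α J (MvPolynomial S.V k₀)) (δ : MvPolynomial S.V k₀) (b : S.ι →₀ ℕ),
      Λ * B = δ • (1 : Matrix J J (MvPolynomial S.V k₀)) ∧ IsForm (MvPolynomial.map κ δ) b ∧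
        ev z (MvPolynomial.map κ δ) ≠ 0 := by
  classical
  obtain ⟨col, -, -, hd⟩ := exists_col (fun j a => ev z (MvPolynomial.map κ (Λ j a)))
    (fun _ => True) fun l hl => funext (Fintype.linearIndependent_iff.1 h l (funext fun a => by
      simpa using hl a trivial))
  have e1 : Λ * (Matrix.of fun a j => if col j = a then (1 : MvPolynomial S.V k₀) else 0) =
      Λ.submatrix id col := by
    ext1 j j'
    simp [Matrix.mul_apply]
  refine ⟨(Matrix.of fun a j => if col j = a then (1 : MvPolynomial S.V k₀) else 0) *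
    (Λ.submatrix id col).adjugate, (Λ.submatrix id col).det, ∑ j, e j, ?_, ?_, ?_⟩
  · rw [← Matrix.mul_assoc, e1, Matrix.mul_adjugate]
  · rw [RingHom.map_det]
    exact det_form fun j j' => hΛ j (col j')
  · rw [RingHom.map_det, ev_eq, RingHom.map_det]
    exact hd

/-- The universal equations. -/
noncomputable def eqB (Λ : Matrix J α (MvPolynomial S.V k₀)) (j : J) :
    MvPolynomial S.V (MvPolynomial α k₀) :=
  ∑ a, C (X a) * MvPolynomial.map C (Λ j a)

variable [Algebra (MvPolynomial α k₀) k]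

variable (k α) in
/-- The embedding of the field of constants. -/
noncomputable def bs (k₀ : Type u) [Field k₀] [Algebra (MvPolynomial α k₀) k] : k₀ →+* k :=
  (algebraMap (MvPolynomial α k₀) k).comp C

variable (k) in
/-- The equations. -/
noncomputable def eqn (Λ : Matrix J α (MvPolynomial S.V k₀)) (j : J) : MvPolynomial S.V k :=
  ∑ a, C (algebraMap (MvPolynomial α k₀) k (X a)) * MvPolynomial.map (bs k α k₀) (Λ j a)

omit [Fintype J] [DecidableEq J] in
theorem map_eqB (Λ : Matrix J α (MvPolynomial S.V k₀)) (j : J) :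
    MvPolynomial.map (algebraMap (MvPolynomial α k₀) k) (eqB Λ j) = eqn k Λ j := by
  simp only [eqB, eqn, bs, map_sum, map_mul, map_C, map_map]

variable [IsAlgClosed k] [FaithfulSMul (MvPolynomial α k₀) k]
  [Algebra.IsAlgebraic (MvPolynomial α k₀) k] {Λ : Matrix J α (MvPolynomial S.V k₀)}
  {e : J → S.ι →₀ ℕ} (hΛ : ∀ j a, IsForm (MvPolynomial.map (bs k α k₀) (Λ j a)) (e j))
  {Y : Set (S.Pt k)} (hY : ∀ z, z ∈ Y ↔ ∀ j, ev z (eqn k Λ j) = 0)
  {N : Submodule ℚ (Cyc k S)} {d : ℕ} (hR : Rt Y ≤ N)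
  (hG : ∀ (σ : k ≃ₐ[MvPolynomial α k₀] k) (Z : Sub k S), (Z : Set (S.Pt k)) ⊆ Y → sdim Z = d →
    cS (sg σ.toRingEquiv Z) - cS Z ∈ N)
  (bad : ∀ Z : Sub k S, (Z : Set (S.Pt k)) ⊆ Y → sdim Z = d →
    (∀ z ∈ Z, ¬ LinearIndependent k fun j a => ev z (MvPolynomial.map (bs k α k₀) (Λ j a))) →
    cS Z ∈ N)
  (fin : ∀ (U : Set S.V) (Z : Sub k S), (Z : Set (S.Pt k)) ⊆ Y → sdim Z = d →
    (∀ s ∈ U, Van (Z : Set (S.Pt k)) (X s)) →
    (∀ T : Sub k S, Z ≤ T → (T : Set (S.Pt k)) ⊆ Y → (∀ s ∈ U, Van (T : Set (S.Pt k)) (X s)) →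
      T = Z) → cS Z ∈ N)
include hΛ hY hR hG bad fin

theorem LK_cell (U : Set S.V) (ς : ∀ i, S.σ i) (h : ∀ i, (⟨i, ς i⟩ : S.V) ∉ U)
    (hb : ∀ Z : Sub k S, (Z : Set (S.Pt k)) ⊆ Y → sdim Z = d →
      (∀ s ∈ U, Van (Z : Set (S.Pt k)) (X s)) → (¬ ∃ x ∈ Z, InCh ς x) → cS Z ∈ N)
    {Z : Sub k S} (hZ : (Z : Set (S.Pt k)) ⊆ Y) (hd : sdim Z = d)
    (hU : ∀ s ∈ U, Van (Z : Set (S.Pt k)) (X s)) (hς : ∃ x ∈ Z, InCh ς x) : cS Z ∈ N := by
  obtain ⟨τ, _, π, θ, hs, hπ, hX, h1, h0, hk⟩ := exists_cell k₀ α U ς h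
  have hθ : LQ θ := fun y => by
    obtain ⟨g, rfl⟩ := hs y
    exact ⟨g, 1, by simp, by simp⟩
  have hm : ∀ f : MvPolynomial S.V k₀, MvPolynomial.map (algebraMap (MvPolynomial α k₀) k)
      (MvPolynomial.map C f) = MvPolynomial.map (bs k α k₀) f := fun f => map_map _ _ f
  have he : ∀ j, θ (eqB Λ j) = ∑ a, C (Λ.map π j a) * X a := fun j => by
    simp only [eqB, map_sum, map_mul, hπ, hX, Matrix.map_apply, mul_comm]
  have hl : lin (Λ.map π) = (Ideal.span (Set.range (eqB Λ))).map θ := by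
    rw [Ideal.map_span, ← Set.range_comp, lin]
    exact congrArg (fun f => Ideal.span (Set.range f)) (funext fun j => (he j).symm)
  have c1 : ∀ T : Sub k S, (∃ x ∈ T, InCh ς x) → ∀ j, eqB Λ j ∈ ctr (MvPolynomial α k₀) T ς ↔
      Van (T : Set (S.Pt k)) (eqn k Λ j) := fun T hT j => by
    rw [← map_eqB]
    refine ctr_form hT (a := e j) ?_
    rw [map_eqB]
    exact IsWeightedHomogeneous.sum _ _ _ fun a _ => IsWeightedHomogeneous.C_mul (hΛ j a) _
  have c2 : ∀ T : Sub k S, (∃ x ∈ T, InCh ς x) → ∀ s, X s ∈ ctr (MvPolynomial α k₀) T ς ↔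
      Van (T : Set (S.Pt k)) (X s) := fun T hT s => by
    rw [ctr_form hT (a := Finsupp.single s.1 1) (by rw [map_X]; exact IsForm.X s), map_X]
  have key : ∀ T : Sub k S, (∃ x ∈ T, InCh ς x) →
      ((lin (Λ.map π)).comap θ ≤ ctr (MvPolynomial α k₀) T ς ↔
        (T : Set (S.Pt k)) ⊆ Y ∧ ∀ s ∈ U, Van (T : Set (S.Pt k)) (X s)) := fun T hT => by
    refine ⟨fun hI => ⟨fun z hz => (hY z).2 fun j => (c1 T hT j).1 (hI ?_) z hz,
      fun s hs => (c2 T hT s).1 (hI ?_)⟩, fun hT' => ?_⟩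
    · rw [hl]
      exact Ideal.mem_map_of_mem _ (Ideal.subset_span ⟨j, rfl⟩)
    · rw [Ideal.mem_comap, h0 s hs]
      exact Ideal.zero_mem _
    · rw [hl, Ideal.comap_map_of_surjective _ hs]
      refine sup_le (Ideal.span_le.2 ?_) (hk _ ctr_one fun s hs => (c2 T hT s).2 (hT'.2 s hs))
      rintro _ ⟨j, rfl⟩
      exact (c1 T hT j).2 fun z hz => (hY z).1 (hT'.1 hz) j
  have hu : ∀ r : Ideal (MvPolynomial S.V (MvPolynomial α k₀)), r.IsPrime →
      (lin (Λ.map π)).comap θ ≤ r → ∀ c ∈ r, ¬ IsUnit (θ c) := fun r hr hI c hc hu => by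
    obtain ⟨y, hy⟩ := hu.exists_right_inv
    obtain ⟨g, rfl⟩ := hs y
    have : c * g - 1 ∈ r := hI (by
      rw [Ideal.mem_comap, map_sub, map_mul, hy, map_one, sub_self]
      exact Ideal.zero_mem _)
    exact hr.ne_top ((Ideal.eq_top_iff_one r).2 (by
      simpa using r.sub_mem (r.mul_mem_right g hc) this))
  have lift : ∀ T : Sub k S, (∃ x ∈ T, InCh ς x) → (T : Set (S.Pt k)) ⊆ Y →
      (∀ s ∈ U, Van (T : Set (S.Pt k)) (X s)) → ∃ p : Ideal (MvPolynomial α (MvPolynomial τ k₀)),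
        p.IsPrime ∧ lin (Λ.map π) ≤ p ∧ p.comap θ = ctr (MvPolynomial α k₀) T ς :=
    fun T hT hT1 hT2 => by
      have hI := (key T hT).2 ⟨hT1, hT2⟩
      obtain ⟨p, hp, e⟩ := A1_lift hθ (ctr_prime hT) ((Ideal.comap_mono bot_le).trans hI)
        (hu _ (ctr_prime hT) hI)
      exact ⟨p, hp, A1_le hθ (e ▸ hI), e⟩
  have link := link_comap hθ le_rfl (geo_link {z | z ∈ Y ∧ ∀ s ∈ U, ev z (X s) = 0} N d ς
    ((lin (Λ.map π)).comap θ) (fun i => by rw [Ideal.mem_comap, h1]; exact Ideal.zero_mem _)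
    (fun T hT hI z hz => ⟨((key T hT).1 hI).1 hz, fun s hs => ((key T hT).1 hI).2 s hs z hz⟩)
    ((Rt_mono fun z hz => hz.1).trans hR) (fun σ T hT => hG σ T fun z hz => (hT hz).1)
    fun T hT hd => hb T (fun z hz => (hT hz).1) hd fun s hs z hz => (hT hz).2 s hs)
    fun r hr hI ⟨c, hc, hc'⟩ => (hu r hr hI c hc hc').elim
  obtain ⟨p, hp, hp', ep⟩ := lift Z hς hZ hU
  refine RF (AFF_mv k₀ τ) link (fun p _ hp' hn T hT eT hd => ?_) (fun p hp T hT eT hd => ?_) p hp
    hp' Z hς ep.symm hd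
  · refine bad T ((key T hT).1 (eT ▸ Ideal.comap_mono hp')).1 hd fun z hz hi => hn ?_
    obtain ⟨B, δ, b, e1, e2, e3⟩ := nice_of (bs k α k₀) Λ hΛ hi
    refine ⟨B.map π, π δ, fun hδ => e3 ?_, ?_⟩
    · rw [← hπ, ← Ideal.mem_comap, ← eT, ctr_form hT (a := b) (by rwa [hm]), hm] at hδ
      exact hδ z hz
    · rw [← Matrix.map_mul, e1]
      ext1 i j
      by_cases e : i = j <;> simp [e]
  · have hT' := (key T hT).1 (eT ▸ Ideal.comap_mono hp.1.2)
    refine fin U T hT'.1 hd hT'.2 fun T' h2 h3 h4 => ?_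
    obtain ⟨p', q1, q2, q3⟩ := lift T' (hT.imp fun x hx => ⟨h2 hx.1, hx.2⟩) h3 h4
    have q4 : p' ≤ p := A1_le hθ (by rw [q3, ← eT]; exact ctr_anti h2)
    refine (ctr_eq (B := MvPolynomial α k₀) hT h2 ?_).symm
    rw [← q3, eT, le_antisymm q4 (hp.2 ⟨q1, q2⟩ q4)]

theorem LK {Z : Sub k S} (hZ : (Z : Set (S.Pt k)) ⊆ Y) (hd : sdim Z = d) : cS Z ∈ N := by
  suffices H : ∀ (U : Set S.V) (Z : Sub k S), (Z : Set (S.Pt k)) ⊆ Y → sdim Z = d →
      (∀ s ∈ U, Van (Z : Set (S.Pt k)) (X s)) → cS Z ∈ N from H ∅ Z hZ hd fun _ h => h.elim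
  intro U
  induction U using WellFoundedGT.induction with
  | ind U ih =>
    intro Z hZ hd hU
    obtain ⟨ς, hς⟩ := Noeth.mono_not_van Z
    have h : ∀ i, (⟨i, ς i⟩ : S.V) ∉ U := fun i hi => exists_inCh_iff.1 hς i (hU _ hi)
    refine LK_cell hΛ hY hR hG bad fin U ς h (fun T hT hd' hU' hn => ?_) hZ hd hU hς
    obtain ⟨i, hi⟩ := not_forall.1 (mt exists_inCh_iff.2 hn)
    refine ih (insert ⟨i, ς i⟩ U) (Set.ssubset_insert (h i)) T hT hd' ?_
    rintro s (rfl | hs)
    · exact not_not.1 hi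
    · exact hU' s hs

end Pool.Agent.Work.MP_10f4af_ag
end

-- merged part: Pool.Agent.Work.MP_10f4af_ag.VG.F1
section
/-!
# Cycles on the square of a very general complete intersection

Plan.  `mon_finite`: for `m` in `Mon a`, evaluate the weight at `s.1` to get `m s ≤ a s.1`
(`Finsupp.weight_apply`), and inject into a finite product.
`form_eq`: compare coefficients (`IsWeightedHomogeneous`, `coeff_monomial`).
`sep_mon`: if `c * ev x m + c' * ev y m = 0` for all monomials `m` of degree `a`, then the same holds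
for all forms of degree `a` (`form_eq`); `exists_minor` times `mono ς (a - single i 1)`, for a chart
`ς` of the other point (`exists_inCh`, `ev_mono_ne`, `mono_form`), vanishes at one point only.
`exists_dat`: `exists_base` with `F = ⊥`, the algebra structure is
`(aeval _).toRingHom.toAlgebra`; `faithfulSMul_iff_algebraMap_injective`.
`Dat.stab`: `stab_zero`; a non-zero coefficient of `f j` is `algebraMap _ _ (X p)`, fixed by `σ`.
`Dat.fr`: apply `LK` with `J = Fin r × Bool`,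
`Λ (j, b) p = if p.1 = j then rename (if b then vl else vr) (monomial p.2.1 1) else 0`,
`e (j, b) = (a j).mapDomain (if b then Sum.inl else Sum.inr)` (`Crd.form`, `vl_eq`, `vr_eq`), so
that `eqn k Λ (j, b) = rename _ (f j)` (`form_eq`) and `Y = (X.prod X).pts` (`mem_prod`,
`Crd.ev_rename`).  Case `bad`: at a point `z` with `fst z ≠ snd z` the rows are independent
(`Fintype.linearIndependent_iff`, evaluate at `⟨j, m⟩`, `sep_mon`), and if `r = 0` they always are;
so `Z` lies in the diagonal `D` of `exists_dia`, and `eq_of_sdim_le` gives `Z = D`.  Case `fin`: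
`T = bij_sum.xp (inl.img Z) (inr.img Z)` (`Bij.le_xp`, `Bij.mem_xp`, `Crd.img_sub`, `Crd.van_img`,
every coordinate is `vl s` or `vr s`).
`exists_dia`: `D = ((Crd.refl k P).pair (Crd.refl k P)).img Z.tp`, `Crd.mem_img_iff` (compare
`Mod.img_eq` in T2), `sdim_img_of_inj`, `SV.sdim_tp`.
-/

open MvPolynomial Topology TopologicalSpace Finsupp

namespace Pool.Agent.Work.MP_10f4af_ag

open MP_ffcd14_ag hiding len vl cyc pl Weil idl_hmg mem_idl idl_prime idl_le_iff lin

universe u

variable {k : Type u} [Field k] {P : Amb}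

theorem F1_le {a : P.ι →₀ ℕ} (m : Mon a) (s : P.V) : m.1 s ≤ a s.1 := by
  classical
  obtain ⟨m, rfl⟩ := m
  change m s ≤ _
  rw [Finsupp.weight_apply, Finsupp.sum, Finsupp.finsetSum_apply]
  by_cases hs : s ∈ m.support
  · refine le_trans ?_ (Finset.single_le_sum
      (f := fun t : P.V => (m t • (single t.1 1 : P.ι →₀ ℕ)) s.1) (fun _ _ => Nat.zero_le _) hs)
    simp
  · simp [Finsupp.notMem_support_iff.1 hs]

instance mon_finite (a : P.ι →₀ ℕ) : Finite (Mon a) :=
  Finite.of_injective (fun (m : Mon a) (s : P.V) =>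
    (⟨m.1 s, Nat.lt_succ_of_le (F1_le m s)⟩ : Fin (a s.1 + 1))) fun _ _ h =>
      Subtype.ext (Finsupp.ext fun s => congrArg Fin.val (congrFun h s))

theorem form_eq {f : MvPolynomial P.V k} {a : P.ι →₀ ℕ} [Fintype (Mon a)] (hf : IsForm f a) :
    f = ∑ m : Mon a, C (coeff m.1 f) * monomial m.1 1 := by
  classical
  ext d
  simp only [coeff_sum, coeff_C_mul, coeff_monomial]
  by_cases hd : coeff d f = 0
  · rw [hd]
    refine (Finset.sum_eq_zero fun m _ => ?_).symm
    split_ifs with e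
    · rw [e, hd, zero_mul]
    · exact mul_zero _
  · refine Eq.trans ?_ (Finset.sum_eq_single (show Mon a from ⟨d, hf hd⟩) (fun m _ hm => ?_)
      fun e => absurd (Finset.mem_univ _) e).symm
    · exact ((congrArg _ (if_pos rfl)).trans (mul_one _)).symm
    · exact (congrArg _ (if_neg fun e => hm (Subtype.ext e))).trans (mul_zero _)

theorem mon_form {a : P.ι →₀ ℕ} (m : Mon a) :
    IsForm (monomial m.1 1 : MvPolynomial P.V k) a :=
  isWeightedHomogeneous_monomial _ _ _ m.2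

theorem F1_sep {a : P.ι →₀ ℕ} (ha : ∀ i, 0 < a i) {x y : P.Pt k} (h : x ≠ y) {c c' : k}
    (e : ∀ m : Mon a, c * ev x (monomial m.1 1) + c' * ev y (monomial m.1 1) = 0) : c = 0 := by
  let _ := Fintype.ofFinite (Mon a)
  have key : ∀ g : MvPolynomial P.V k, IsForm g a → c * ev x g + c' * ev y g = 0 := by
    intro g hg
    rw [form_eq hg]
    simp only [ev_eq, map_sum, map_mul, eval_C, Finset.mul_sum] at e ⊢
    rw [← Finset.sum_add_distrib]
    exact Finset.sum_eq_zero fun m _ => by linear_combination coeff m.1 g * e m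
  obtain ⟨i, g, hg, g1, g2⟩ := Noeth.exists_minor h
  obtain ⟨ς, hς⟩ := exists_inCh x
  have hle : (single i 1 : P.ι →₀ ℕ) ≤ a := Finsupp.single_le_iff.2 (ha i)
  have := key _ (add_tsub_cancel_of_le hle ▸ hg.mul (mono_form ς (a - single i 1)))
  rw [ev_mul, ev_mul, g1, zero_mul, mul_zero, add_zero] at this
  exact (mul_eq_zero.1 this).resolve_right (mul_ne_zero g2 (Noeth.ev_mono_ne hς _))

theorem sep_mon {a : P.ι →₀ ℕ} (ha : ∀ i, 0 < a i) {x y : P.Pt k} (h : x ≠ y) {c c' : k}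
    (e : ∀ m : Mon a, c * ev x (monomial m.1 1) + c' * ev y (monomial m.1 1) = 0) :
    c = 0 ∧ c' = 0 :=
  ⟨F1_sep ha h e, F1_sep ha h.symm fun m => (add_comm _ _).trans (e m)⟩

theorem chain_pts {r : ℕ} {Y : ℕ → SV k P} {f : ℕ → MvPolynomial P.V k} {a : ℕ → P.ι →₀ ℕ}
    (h0 : (Y 0).pts = Set.univ) (h : ∀ j < r, Sec (Y j) (Y (j + 1)) (f j) (a j)) (x : P.Pt k) :
    x ∈ (Y r).pts ↔ ∀ j : Fin r, ev x (f j) = 0 := by
  induction r with
  | zero => simp [h0]
  | succ n ih =>
    rw [(h n n.lt_succ_self).pts, Set.mem_sep_iff, ih fun j hj => h j (hj.trans n.lt_succ_self),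
      Fin.forall_fin_succ']
    rfl

theorem exists_dia [IsAlgClosed k] (Z : SV k P) : ∃ D : Sub k (P.sum P),
    (D : Set ((P.sum P).Pt k)) = {z | fst z ∈ Z.pts ∧ fst z = snd z} ∧ sdim D = Z.dim := by
  refine ⟨((Crd.refl k P).pair (Crd.refl k P)).img Z.tp, ?_, ?_⟩
  · ext z
    rw [SetLike.mem_coe, Crd.mem_img_iff]
    constructor
    · rintro ⟨y, hy, rfl⟩
      exact ⟨hy, rfl⟩
    · rintro ⟨h1, h2⟩
      exact ⟨fst z, h1, bij_sum.ext rfl h2⟩
  · exact (sdim_img_of_inj ((Crd.refl k P).pair (Crd.refl k P))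
      fun x _ y _ e => congrArg fst e).trans Z.sdim_tp

/-- The parameters. -/
abbrev Par {r : ℕ} (a : Fin r → P.ι →₀ ℕ) : Type := Σ j, Mon (a j)

/-- `Z` is given by the equations `f`, whose coefficients are the parameters. -/
structure Dat (Z : SV k P) (k₀ : Type u) [Field k₀] {r : ℕ} (f : Fin r → MvPolynomial P.V k)
    (a : Fin r → P.ι →₀ ℕ) [Algebra (MvPolynomial (Par a) k₀) k] : Prop where
  form : ∀ j, IsForm (f j) (a j)
  pos : ∀ j i, 0 < a j i
  pts : ∀ x, x ∈ Z.pts ↔ ∀ j, ev x (f j) = 0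
  co : ∀ p : Par a, algebraMap (MvPolynomial (Par a) k₀) k (X p) = coeff p.2.1 (f p.1)

variable {Z : SV k P} {r : ℕ} {f : Fin r → MvPolynomial P.V k} {a : Fin r → P.ι →₀ ℕ}

theorem exists_dat (h1 : ∀ j, IsForm (f j) (a j)) (h2 : ∀ j i, 0 < a j i)
    (h3 : ∀ x, x ∈ Z.pts ↔ ∀ j, ev x (f j) = 0)
    (h4 : AlgebraicIndependent (⊥ : Subfield k) fun p : Par a => coeff p.2.1 (f p.1)) :
    ∃ (k₀ : Subfield k) (_ : Algebra (MvPolynomial (Par a) k₀) k)
      (_ : FaithfulSMul (MvPolynomial (Par a) k₀) k)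
      (_ : Algebra.IsAlgebraic (MvPolynomial (Par a) k₀) k), Dat Z k₀ f a := by
  obtain ⟨k₀, e1, e2⟩ := exists_base ⊥ h4
  let A : Algebra (MvPolynomial (Par a) k₀) k :=
    (aeval (fun p : Par a => coeff p.2.1 (f p.1)) :
      MvPolynomial (Par a) k₀ →ₐ[k₀] k).toRingHom.toAlgebra
  refine ⟨k₀, A, (faithfulSMul_iff_algebraMap_injective _ _).2 e1, ⟨fun c => ?_⟩,
    h1, h2, h3, fun p => aeval_X _ p⟩
  obtain ⟨Q, q1, q2⟩ := e2 c
  exact ⟨Q, q1, q2⟩

variable {k₀ : Type u} [Field k₀] [Algebra (MvPolynomial (Par a) k₀) k]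

theorem Dat.stab (h : Dat Z k₀ f a) (σ : k ≃ₐ[MvPolynomial (Par a) k₀] k) :
    Stab σ.toRingEquiv Z.pts := by
  rw [show Z.pts = {x | ∀ j, ev x (f j) = 0} from Set.ext h.pts]
  refine stab_zero (fun j => ⟨_, h.form j⟩) fun j => ?_
  ext d
  rw [mp, coeff_map]
  by_cases hd : coeff d (f j) = 0
  · rw [hd, map_zero]
  · have := h.co ⟨j, d, h.form j hd⟩
    rw [← this]
    exact σ.commutes _

variable (k P) in
/-- The two projections. -/
def F1_pr : Bool → Crd k P (P.sum P)
  | true => Crd.inl k P P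
  | false => Crd.inr k P P

theorem Dat.fr [IsAlgClosed k] [FaithfulSMul (MvPolynomial (Par a) k₀) k]
    [Algebra.IsAlgebraic (MvPolynomial (Par a) k₀) k] (h : Dat Z k₀ f a)
    {N : Submodule ℚ (Cyc k (P.sum P))} (hR : Rt (Z.prod Z).pts ≤ N)
    (hG : ∀ (σ : k ≃ₐ[MvPolynomial (Par a) k₀] k) (T : Sub k (P.sum P)),
      (T : Set ((P.sum P).Pt k)) ⊆ (Z.prod Z).pts → cS (sg σ.toRingEquiv T) - cS T ∈ N)
    (hD : r ≠ 0 → single (idl {z : (P.sum P).Pt k | fst z ∈ Z.pts ∧ fst z = snd z}) 1 ∈ N)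
    (hP : ∀ V W : Sub k P, (V : Set (P.Pt k)) ⊆ Z.pts → (W : Set (P.Pt k)) ⊆ Z.pts →
      cS (bij_sum.xp V W) ∈ N)
    {T : Sub k (P.sum P)} (hT : (T : Set ((P.sum P).Pt k)) ⊆ (Z.prod Z).pts)
    (hd : sdim T = Z.dim) : cS T ∈ N := by
  let _ : ∀ j, Fintype (Mon (a j)) := fun j => Fintype.ofFinite _
  let Λ : Matrix (Fin r × Bool) (Par a) (MvPolynomial (P.sum P).V k₀) := fun j p =>
    if p.1 = j.1 then rename (F1_pr k P j.2).ε (monomial p.2.1 1) else 0
  have hm : ∀ j p, MvPolynomial.map (bs k (Par a) k₀) (Λ j p) =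
      if p.1 = j.1 then rename (F1_pr k P j.2).ε (monomial p.2.1 1) else 0 := by
    intro j p
    simp only [Λ]
    split_ifs
    · rw [map_rename, map_monomial, map_one]
    · exact map_zero _
  have he : ∀ j, eqn k Λ j = rename (F1_pr k P j.2).ε (f j.1) := by
    intro j
    simp only [eqn, hm, h.co]
    rw [Fintype.sum_sigma, Finset.sum_eq_single j.1]
    · refine Eq.trans ?_ (congrArg _ (form_eq (h.form j.1))).symm
      rw [map_sum]
      refine Finset.sum_congr rfl fun m _ => ?_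
      rw [if_pos rfl, map_mul, rename_C]
    · intro i _ hi
      exact Finset.sum_eq_zero fun m _ => by rw [if_neg hi, mul_zero]
    · exact fun e => absurd (Finset.mem_univ _) e
  refine LK (Λ := Λ) (e := fun j => (a j.1).mapDomain (F1_pr k P j.2).ψ) (fun j p => ?_)
    (fun z => ?_) hR (fun σ T hT _ => hG σ T hT) (fun T hT hd hb => ?_)
    (fun U T hT _ hU hmax => ?_) hT hd
  · rw [hm]
    split_ifs with e
    · rw [← e]
      exact (F1_pr k P j.2).form (mon_form p.2)
    · exact isWeightedHomogeneous_zero k _ _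
  · simp only [he, Crd.ev_rename, Prod.forall, Bool.forall_bool, forall_and]
    rw [mem_prod, h.pts, h.pts, and_comm]
    rfl
  · have hr : r ≠ 0 := by
      rintro rfl
      obtain ⟨z, hz⟩ := T.isIrreducible.nonempty
      exact hb z hz linearIndependent_empty_type
    obtain ⟨D, d1, d2⟩ := exists_dia Z
    have hle : T ≤ D := fun z hz => by
      rw [← SetLike.mem_coe, d1]
      refine ⟨(mem_prod.1 (hT hz)).1, ?_⟩
      by_contra hne
      refine hb z hz (Fintype.linearIndependent_iff.2 fun g hg j => ?_)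
      have key := sep_mon (h.pos j.1) hne (c := g (j.1, true)) (c' := g (j.1, false)) fun m => by
        have e := congrFun hg ⟨j.1, m⟩
        simp only [Finset.sum_apply, Pi.smul_apply, smul_eq_mul, hm, Pi.zero_apply] at e
        rw [Fintype.sum_prod_type, Finset.sum_eq_single j.1, Fintype.sum_bool, if_pos rfl,
          if_pos rfl, Crd.ev_rename, Crd.ev_rename] at e
        · exact e
        · intro i _ hi
          exact Finset.sum_eq_zero fun b _ => by
            rw [if_neg (Ne.symm hi), ev_eq, map_zero, mul_zero]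
        · exact fun e => absurd (Finset.mem_univ _) e
      obtain ⟨j, _ | _⟩ := j
      exacts [key.2, key.1]
    rw [eq_of_sdim_le hle (by rw [d2, hd]), cS, d1]
    exact hD hr
  · have h1 := ((Crd.inl k P P).img_sub (Z := T) Z.closed).2 fun z hz => (mem_prod.1 (hT hz)).1
    have h2 := ((Crd.inr k P P).img_sub (Z := T) Z.closed).2 fun z hz => (mem_prod.1 (hT hz)).2
    rw [← hmax (bij_sum.xp ((Crd.inl k P P).img T) ((Crd.inr k P P).img T))
      (bij_sum.le_xp.2 ⟨le_rfl, le_rfl⟩) (fun z hz => mem_prod.2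
        ⟨h1 (bij_sum.mem_xp.1 hz).1, h2 (bij_sum.mem_xp.1 hz).2⟩) ?_]
    · exact hP _ _ h1 h2
    · rintro ⟨i | i, t⟩ hs z hz
      · have e := (((Crd.inl k P P).van_img (Z := T) (IsForm.X ⟨i, t⟩)).2 (by
          rw [rename_X]
          exact hU _ hs)) _ (bij_sum.mem_xp.1 hz).1
        rwa [← Crd.ev_rename, rename_X] at e
      · have e := (((Crd.inr k P P).van_img (Z := T) (IsForm.X ⟨i, t⟩)).2 (by
          rw [rename_X]
          exact hU _ hs)) _ (bij_sum.mem_xp.1 hz).2
        rwa [← Crd.ev_rename, rename_X] at e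

end Pool.Agent.Work.MP_10f4af_ag
end

-- merged part: Pool.Agent.Work.MP_10f4af_ag.VG.D1
section
/-!
# Multiplicities and degrees are invariant under ring isomorphisms

Plan.  Use `RingEquiv.ofBijective φ hφ`; `Ideal.map φ` is an order isomorphism of the ideals
(`Ideal.comap_map_of_bijective`, `Ideal.map_comap_of_surjective`).
`len_map`: `lnM_flat` (`RingHom.Flat.of_bijective`), `len_def`.
`dv_map`: by linearity reduce to `single p 1`; `dv_of_mem`, `dv_of_notMem`, and compare the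
coefficients of `cyI` (`cyI_of_mem`, `cyI_of_notMem`, `Finsupp.mapDomain_apply`; every ideal of
`R'` is `q.map φ`).  `mult_map`: `mult_eq`.
`rdeg_map`: if `p` is not prime both sides are `0`.  Otherwise `φ` induces a bijective ring map
`e : p.ResidueField →+* (p.map φ).ResidueField` (`Ideal.ResidueField.map`), and
`(fld k (e ∘ v)).toSubfield = (fld k v).toSubfield.map e` (`IntermediateField.adjoin` is the
`Subfield.closure` of `range (algebraMap) ∪ S`, `RingHom.map_field_closure`); finish with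
`Subfield.relfinrank_map_map` (`IntermediateField.relfinrank` unfolds to `Subfield.relfinrank`).
-/

open MvPolynomial Finsupp

namespace Pool.Agent.Work.MP_10f4af_ag

open MP_ffcd14_ag (Amb)

universe u

theorem D1_fld {k L L' : Type u} [Field k] [Field L] [Field L'] [Algebra k L] [Algebra k L']
    (σ : k ≃+* k) (e : L →+* L') (he : ∀ c, e (algebraMap k L c) = algebraMap k L' (σ c))
    {P : Amb} (v : P.V → L) :
    (fld k fun s => e (v s)).toSubfield = (fld k v).toSubfield.map e := by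
  rw [fld, fld, IntermediateField.adjoin_toSubfield, IntermediateField.adjoin_toSubfield,
    RingHom.map_field_closure, Set.image_union]
  congr 2
  · ext y
    constructor
    · rintro ⟨c, rfl⟩
      exact ⟨_, ⟨σ.symm c, rfl⟩, by rw [he, σ.apply_symm_apply]⟩
    · rintro ⟨_, ⟨c, rfl⟩, rfl⟩
      exact ⟨σ c, (he c).symm⟩
  · ext y
    constructor
    · rintro ⟨i, s, t, rfl⟩
      exact ⟨_, ⟨i, s, t, rfl⟩, map_div₀ e _ _⟩
    · rintro ⟨_, ⟨i, s, t, rfl⟩, rfl⟩
      exact ⟨i, s, t, map_div₀ e _ _⟩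

variable {R R' : Type u} [CommRing R] [CommRing R'] {φ : R →+* R'} (hφ : Function.Bijective φ)
include hφ

theorem map_inj' : Function.Injective (Ideal.map φ : Ideal R → Ideal R') := by
  intro I J h
  rw [← Ideal.comap_map_of_bijective φ hφ (I := I), h, Ideal.comap_map_of_bijective φ hφ]

theorem map_surj' : Function.Surjective (Ideal.map φ : Ideal R → Ideal R') := fun I =>
  ⟨I.comap φ, Ideal.map_comap_of_surjective φ hφ.2 I⟩

theorem mem_map' {I : Ideal R} {f : R} : φ f ∈ I.map φ ↔ f ∈ I := by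
  rw [← Ideal.mem_comap, Ideal.comap_map_of_bijective φ hφ]

theorem prime_map' {p : Ideal R} : (p.map φ).IsPrime ↔ p.IsPrime := by
  refine ⟨fun h => ?_, fun h => Ideal.map_isPrime_of_surjective hφ.2 ?_⟩
  · rw [← Ideal.comap_map_of_bijective φ hφ (I := p)]
    exact Ideal.comap_isPrime φ _
  · rw [(RingHom.injective_iff_ker_eq_bot φ).1 hφ.1]
    exact bot_le

theorem min_map {q J : Ideal R} : q.map φ ∈ (J.map φ).minimalPrimes ↔ q ∈ J.minimalPrimes := by
  rw [Ideal.minimalPrimes_map_of_surjective hφ.2, (RingHom.injective_iff_ker_eq_bot φ).1 hφ.1,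
    sup_bot_eq]
  exact (map_inj' hφ).mem_set_image

theorem len_map (p J : Ideal R) [p.IsPrime] : len (p.map φ) (J.map φ) = len p J := by
  have : (p.map φ).IsPrime := (prime_map' hφ).2 ‹_›
  rw [len_def, len_def, lnM_flat φ (RingHom.Flat.of_bijective hφ)
    (Ideal.comap_map_of_bijective φ hφ)
    (fun b hb => ⟨1, (Ideal.ne_top_iff_one _).1 this.ne_top, by rwa [one_mul]⟩)]

theorem gen_map {J p q : Ideal R} {fs : List R} (h : Gen J p q fs) :
    Gen (J.map φ) (p.map φ) (q.map φ) (fs.map φ) := by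
  obtain ⟨h1, s, hs, h2⟩ := h
  refine ⟨fun f hf => ?_, φ s, fun h => hs ((mem_map' hφ).1 h), fun g hg => ?_⟩
  · obtain ⟨f, hf', rfl⟩ := List.mem_map.1 hf
    exact Ideal.mem_map_of_mem φ (h1 f hf')
  · obtain ⟨g, rfl⟩ := hφ.2 g
    rw [← Ideal.map_ofList, ← Ideal.map_sup, ← map_mul]
    exact Ideal.mem_map_of_mem φ (h2 g ((mem_map' hφ).1 hg))

theorem rdeg_map {k : Type u} [Field k] [Algebra k R] [Algebra k R'] (σ : k ≃+* k)
    (h : ∀ c, φ (algebraMap k R c) = algebraMap k R' (σ c)) {P Q : Amb} (p : Ideal R)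
    (v : P.V → R) (w : Q.V → R) :
    rdeg k (p.map φ) (fun s => φ (v s)) (fun s => φ (w s)) = rdeg k p v w := by
  by_cases hp : p.IsPrime
  · have hp' : (p.map φ).IsPrime := (prime_map' hφ).2 hp
    rw [rdeg, rdeg, dif_pos hp, dif_pos hp']
    have hc : p = (p.map φ).comap φ := (Ideal.comap_map_of_bijective φ hφ).symm
    have he : ∀ c, Ideal.ResidueField.map p (p.map φ) φ hc (algebraMap k _ c) =
        algebraMap k _ (σ c) := fun c => by
      rw [IsScalarTower.algebraMap_apply k R p.ResidueField, Ideal.ResidueField.map_algebraMap, h,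
        ← IsScalarTower.algebraMap_apply]
    have key := @D1_fld k _ _ _ _ _ _ _ σ (Ideal.ResidueField.map p (p.map φ) φ hc) he
    have k1 := key (fun s => algebraMap R p.ResidueField (v s))
    have k2 := key (fun s => algebraMap R p.ResidueField (w s))
    simp only [Ideal.ResidueField.map_algebraMap] at k1 k2
    rw [IntermediateField.relfinrank, IntermediateField.relfinrank, k1, k2,
      Subfield.relfinrank_map_map]
  · rw [rdeg, rdeg, dif_neg hp, dif_neg fun h => hp ((prime_map' hφ).1 h)]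

variable [IsNoetherianRing R] [IsNoetherianRing R']

theorem dv_map (f : R) (a : Ideal R →₀ ℚ) :
    dv (φ f) (mapDomain (Ideal.map φ) a) = mapDomain (Ideal.map φ) (dv f a) := by
  induction a using Finsupp.induction_linear with
  | zero => simp
  | add a b ha hb => rw [mapDomain_add, map_add, map_add, mapDomain_add, ha, hb]
  | single p c =>
    rw [mapDomain_single, ← smul_single_one, ← smul_single_one p, map_smul, map_smul,
      mapDomain_smul]
    congr 1
    by_cases hf : f ∈ p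
    · rw [dv_of_mem hf, dv_of_mem ((mem_map' hφ).2 hf), mapDomain_zero]
    · rw [dv_of_notMem hf, dv_of_notMem fun h => hf ((mem_map' hφ).1 h)]
      have e : p.map φ ⊔ Ideal.span {φ f} = (p ⊔ Ideal.span {f}).map φ := by
        rw [Ideal.map_sup, Ideal.map_span, Set.image_singleton]
      rw [e]
      ext q
      obtain ⟨q, rfl⟩ := map_surj' hφ q
      rw [mapDomain_apply (map_inj' hφ)]
      by_cases hq : q ∈ (p ⊔ Ideal.span {f}).minimalPrimes
      · have := hq.isPrime
        rw [cyI_of_mem hq, cyI_of_mem ((min_map hφ).2 hq), len_map hφ]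
      · rw [cyI_of_notMem hq, cyI_of_notMem fun h => hq ((min_map hφ).1 h)]

theorem dvs_map (fs : List R) (a : Ideal R →₀ ℚ) :
    dvs (fs.map φ) (mapDomain (Ideal.map φ) a) = mapDomain (Ideal.map φ) (dvs fs a) := by
  induction fs generalizing a with
  | nil => rfl
  | cons f fs ih => rw [List.map_cons, dvs_cons, dvs_cons, dv_map hφ, ih]

theorem mult_map (fs : List R) (p q : Ideal R) :
    mult (fs.map φ) (p.map φ) (q.map φ) = mult fs p q := by
  rw [mult_eq, mult_eq, ← mapDomain_apply (map_inj' hφ) (dvs fs (single p 1)) q, ← dvs_map hφ,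
    mapDomain_single]

end Pool.Agent.Work.MP_10f4af_ag
end

-- merged part: Pool.Agent.Work.MP_10f4af_ag.VG.D2
section
/-!
# Automorphisms of the base field act on cycles

Plan.  Everything is `Finsupp.mapDomain` along the bijection `Ideal.map (mp σ P)` (D1 with
`mp_bij`).  `tw_cut`: `dvs_map`, `G1c_filter`, `rel_map`.
`tw_gys`: compare the coefficients at `q.map (mp σ P)`.  If `q` is a minimal prime of
`idl V ⊔ J` and `Rel q`, then `q = idl T` (`Hmg_min`, `exists_idl`), `LG.gen'` gives `fs`, and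
`gys_gen` on both sides (`gen_map`, `min_map`, `Ideal.map_sup`, `idl_sg`) and `mult_map` finish.
Otherwise `gys_apply_not` on both sides.
`tw_push`, `tw_ex`: by linearity reduce to `single`; `mp_rename`, `rdeg_map` with `mp_X`, `mp_C`.
`tw_fib`: `fib_cS`.  `tw_Rt`: unfold `Rt`, `Sp_map`/`Sp_ext`, `fst_eq`, `pt_pr`.
`tw_ip`: `F1_ext`, `I1_apply`, `sg_xp`, `tw_gys` with `I1_lg`, `dI_fix`.  `tw_prp`: `prp_iff`,
every subvariety is `sg σ V`, `tw_apply`, `sdim_sg`.
-/

open MvPolynomial Topology TopologicalSpace Finsupp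

namespace Pool.Agent.Work.MP_10f4af_ag

open MP_ffcd14_ag hiding len vl cyc pl Weil idl_hmg mem_idl idl_prime idl_le_iff

universe u

variable {k : Type u} [Field k] {P Q S : Amb} (σ τ : k ≃+* k)

/-- The action on cycles. -/
noncomputable def tw (σ : k ≃+* k) (P : Amb) : Cyc k P →ₗ[ℚ] Cyc k P :=
  Finsupp.lmapDomain ℚ ℚ (Ideal.map (mp σ P))

theorem D2_single (p : Ideal (MvPolynomial P.V k)) (x : ℚ) :
    tw σ P (single p x) = single (p.map (mp σ P)) x := mapDomain_single

theorem D2_apply (a : Cyc k P) (q : Ideal (MvPolynomial P.V k)) :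
    tw σ P a (q.map (mp σ P)) = a q := mapDomain_apply (map_inj' (mp_bij σ)) a q

theorem D2_map (ε : P.V → S.V) (p : Ideal (MvPolynomial P.V k)) :
    (p.map (rename ε) : Ideal (MvPolynomial S.V k)).map (mp σ S) =
      (p.map (mp σ P)).map (rename ε) := by
  change (p.map (rename ε : _ →ₐ[k] _).toRingHom).map _ =
    (p.map _).map (rename ε : _ →ₐ[k] _).toRingHom
  rw [Ideal.map_map, Ideal.map_map]
  exact congrArg (Ideal.map · p) (RingHom.ext (mp_rename σ ε))

theorem tw_cS (Z : Sub k P) : tw σ P (cS Z) = cS (sg σ Z) := by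
  rw [cS, D2_single, cS, idl_sg]

theorem tw_apply (a : Cyc k P) (Z : Sub k P) :
    tw σ P a (idl (sg σ Z : Set (P.Pt k))) = a (idl (Z : Set (P.Pt k))) := by
  rw [idl_sg, D2_apply]

theorem tw_tw (a : Cyc k P) : tw σ P (tw τ P a) = tw (τ.trans σ) P a := by
  have : mp (τ.trans σ) P = (mp σ P).comp (mp τ P) := RingHom.ext fun f => (mp_mp σ τ f).symm
  change mapDomain _ (mapDomain _ a) = mapDomain _ a
  rw [← mapDomain_comp, this]
  exact congrArg (mapDomain · a) (funext fun q => Ideal.map_map _ _)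

theorem tw_refl (a : Cyc k P) : tw (RingEquiv.refl k) P a = a := by
  have : mp (RingEquiv.refl k) P = RingHom.id _ := RingHom.ext mp_refl
  change mapDomain _ a = a
  rw [this, show Ideal.map (RingHom.id (MvPolynomial P.V k)) = id from funext Ideal.map_id,
    mapDomain_id]

theorem tw_Sp {c c' : Sub k P → Prop} (h : ∀ Z, c Z → c' (sg σ Z)) {a : Cyc k P} (ha : a ∈ Sp c) :
    tw σ P a ∈ Sp c' := by
  exact Sp_map (tw σ P) _ (fun Z hZ => tw_cS σ Z ▸ cS_mem (h Z hZ)) ha

theorem rel_map {q : Ideal (MvPolynomial P.V k)} : Rel (q.map (mp σ P)) ↔ Rel q := by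
  refine forall_congr' fun i => exists_congr fun s => not_congr ?_
  rw [← mem_map' (mp_bij σ) (I := q), mp_X]

theorem dI_fix (ε η : P.V → S.V) : (dI k ε η).map (mp σ S) = dI k ε η := by
  rw [dI, Ideal.map_span]
  congr 1
  refine (Set.image_congr (g := id) ?_).trans (Set.image_id _)
  rintro _ ⟨i, s, t, rfl⟩
  simp only [map_sub, map_mul, mp_X, id]

theorem tw_cut (fs : List (MvPolynomial P.V k)) (a : Cyc k P) :
    cut (fs.map (mp σ P)) (tw σ P a) = tw σ P (cut fs a) := by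
  classical
  ext q
  obtain ⟨q, rfl⟩ := map_surj' (mp_bij σ) q
  rw [D2_apply]
  change ((dvs _ (mapDomain _ a)).filter Rel) _ = ((dvs fs a).filter Rel) q
  rw [dvs_map (mp_bij σ), filter_apply, filter_apply, mapDomain_apply (map_inj' (mp_bij σ))]
  exact if_congr (rel_map σ) rfl rfl

theorem tw_push (ε : P.V → S.V) (a : Cyc k S) : push ε (tw σ S a) = tw σ P (push ε a) := by
  induction a using Finsupp.induction_linear with
  | zero => simp only [map_zero]
  | add a b h h' => simp only [map_add, h, h']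
  | single p x =>
    have h1 : deg ε (p.map (mp σ S)) = deg ε p := by
      have := rdeg_map (mp_bij σ) σ (mp_C σ) p (fun s => X (ε s)) X
      simp only [mp_X] at this
      exact this
    have h2 : (p.map (mp σ S)).comap (rename ε) = (p.comap (rename ε)).map (mp σ P) := by
      ext f
      obtain ⟨f, rfl⟩ := (mp_bij σ).2 f
      rw [mem_map' (mp_bij σ), Ideal.mem_comap, Ideal.mem_comap, ← mp_rename, mem_map' (mp_bij σ)]
    rw [D2_single, push, linearCombination_single, linearCombination_single, map_smul, D2_single,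
      h1, h2]

theorem tw_ex (ε : P.V → S.V) (η : Q.V → S.V) (a : Cyc k P) (b : Cyc k Q) :
    ex ε η (tw σ P a) (tw σ Q b) = tw σ S (ex ε η a b) := by
  induction a using Finsupp.induction_linear with
  | zero => simp only [map_zero, LinearMap.zero_apply]
  | add a b h h' => simp only [map_add, LinearMap.add_apply, h, h']
  | single p x =>
    induction b using Finsupp.induction_linear with
    | zero => simp only [map_zero]
    | add a b h h' => simp only [map_add, h, h']
    | single q y =>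
      rw [D2_single, D2_single, G1_single, G1_single, D2_single, Ideal.map_sup, D2_map, D2_map]

variable [IsAlgClosed k]

theorem tw_gys {A : Set (P.Pt k)} {J : Ideal (MvPolynomial P.V k)} {c : ℕ} (h : LG A J c)
    (hJ : J.map (mp σ P) = J) {V : Sub k P} (hV : (V : Set (P.Pt k)) ⊆ A) :
    gys J c (cS (sg σ V)) = tw σ P (gys J c (cS V)) := by
  ext q
  obtain ⟨q, rfl⟩ := map_surj' (mp_bij σ) q
  have hm : q.map (mp σ P) ∈ ((idl (V : Set (P.Pt k))).map (mp σ P) ⊔ J).minimalPrimes ↔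
      q ∈ (idl (V : Set (P.Pt k)) ⊔ J).minimalPrimes := by
    rw [← min_map (mp_bij σ) (q := q), Ideal.map_sup, hJ]
  rw [D2_apply, cS, cS, idl_sg]
  by_cases hq : q ∈ (idl (V : Set (P.Pt k)) ⊔ J).minimalPrimes ∧ Rel q
  · have := hq.1.1.1
    obtain ⟨T, rfl⟩ := exists_idl (Hmg_min ((idl_hmg _).sup h.hmg) hq.1) hq.2
    obtain ⟨h1, h2, -⟩ := (min_iff h.hmg).1 hq.1
    obtain ⟨fs, f1, -, f2⟩ := h.gen' (Set.Subset.trans h1 hV) h2
    have := (prime_map' (mp_bij σ)).2 (idl_prime V)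
    have g := gen_map (mp_bij σ) (f2 V hV)
    rw [hJ] at g
    rw [gys_gen hq.1 hq.2 f1 (f2 V hV), gys_gen (hm.2 hq.1) ((rel_map σ).2 hq.2)
      ((List.length_map _).trans f1) g, mult_map (mp_bij σ)]
  · rw [gys_apply_not hq, gys_apply_not (by rwa [hm, rel_map])]

theorem sg_xp {β : Crd k P S} {γ : Crd k Q S} (h : Bij β γ) (V : Sub k P) (W : Sub k Q) :
    sg σ (h.xp V W) = h.xp (sg σ V) (sg σ W) := by
  refine idl_inj ?_
  rw [idl_sg, h.idl_xp, h.idl_xp, idl_sg, idl_sg, Ideal.map_sup, D2_map, D2_map]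

theorem tw_fib (b : Bool) (W : Sub k (P.sum P1)) :
    fib b (cS (sg σ W)) = tw σ P (fib b (cS W)) := by
  have := tw_cut σ [tt k P b] (cS W)
  rw [List.map_singleton, tt, mp_X, tw_cS] at this
  rw [fib_cS, fib_cS, ← tw_push, tt, this]

theorem tw_prp {n : ℕ} {a b : Cyc k P} (h : Prp n a b) : Prp n (tw σ P a) (tw σ P b) := by
  refine prp_iff.2 fun V W h1 h2 U h3 h4 => ?_
  obtain ⟨V, rfl⟩ := (sg σ).surjective V
  obtain ⟨W, rfl⟩ := (sg σ).surjective W
  obtain ⟨U, rfl⟩ := (sg σ).surjective U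
  rw [tw_apply] at h1 h2
  rw [sdim_sg, sdim_sg, sdim_sg]
  exact prp_iff.1 h V W h1 h2 U ((sg σ).le_iff_le.1 h3) ((sg σ).le_iff_le.1 h4)

theorem tw_ip (X : SV k P) {a b : Cyc k P} (ha : a ∈ ZA X.pts) (hb : b ∈ ZA X.pts) :
    ip X.dim (tw σ P a) (tw σ P b) = tw σ P (ip X.dim a b) := by
  have := F1_ext ((ip X.dim).compl₁₂ (tw σ P) (tw σ P)) ((ip X.dim).compr₂ (tw σ P))
    (fun V W hV hW => ?_) ha hb
  · rwa [LinearMap.compl₁₂_apply, LinearMap.compr₂_apply] at this
  rw [LinearMap.compl₁₂_apply, LinearMap.compr₂_apply, tw_cS, tw_cS, I1_apply, I1_apply, ← sg_xp,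
    tw_gys σ (I1_lg X bij_sum hV hW) (dI_fix σ _ _) subset_rfl, tw_push]

variable {σ}

omit [IsAlgClosed k] in
theorem tw_ZA {A : Set (P.Pt k)} (h : Stab σ A) {a : Cyc k P} (ha : a ∈ ZA A) :
    tw σ P a ∈ ZA A := by
  exact tw_Sp σ (fun Z hZ => h.sub.2 hZ) ha

theorem tw_Rt {A : Set (P.Pt k)} (h : Stab σ A) {a : Cyc k P} (ha : a ∈ Rt A) :
    tw σ P a ∈ Rt A := by
  obtain ⟨w, hw, rfl⟩ := ha
  refine ⟨tw σ _ w, tw_Sp σ (fun W hW z hz => ?_) hw, ?_⟩
  · obtain ⟨y, hy, rfl⟩ : z ∈ pt σ '' (W : Set ((P.sum P1).Pt k)) := coe_sg σ W ▸ hz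
    rw [fst_eq, pt_pr]
    exact (h _).2 (hW y hy)
  · refine Sp_ext ((fib true - fib false) ∘ₗ tw σ _) (tw σ P ∘ₗ (fib true - fib false))
      (fun W _ => ?_) hw
    simp only [LinearMap.comp_apply, LinearMap.sub_apply, map_sub, tw_cS, tw_fib]

end Pool.Agent.Work.MP_10f4af_ag
end
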